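import Mathlib

/-!
Chains of right ideals.
-/

set_option autoImplicit false

namespace Pool.Agent.MP_f4742e_al

open MulOpposite

section

variable {A : Type*} [Ring A]

/-- The right ideal `x A`. -/
def rid (x : A) : Submodule Aᵐᵒᵖ A := Submodule.span Aᵐᵒᵖ {x}

theorem mem_rid {x y : A} : y ∈ rid x ↔ ∃ z, y = x * z := by
  unfold rid
  rw [Submodule.mem_span_singleton]
  constructor
  · rintro ⟨c, hc⟩
    exact ⟨unop c, hc.symm⟩
  · rintro ⟨z, hz⟩
    exact ⟨op z, by rw [hz]; rfl⟩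

theorem self_mem_rid (x : A) : x ∈ rid x := mem_rid.2 ⟨1, (mul_one x).symm⟩

theorem mul_mem_rid (x z : A) : x * z ∈ rid x := mem_rid.2 ⟨z, rfl⟩

theorem mul_mem {I : Submodule Aᵐᵒᵖ A} {x : A} (hx : x ∈ I) (z : A) : x * z ∈ I :=
  I.smul_mem (op z) hx

/-- Left multiplication as an endomorphism of the right module `A`. -/
def lm (c : A) : A →ₗ[Aᵐᵒᵖ] A where
  toFun y := c * y
  map_add' := mul_add c
  map_smul' := by
    intro z y
    change c * (y * unop z) = c * y * unop z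
    rw [mul_assoc]

theorem lm_apply (c y : A) : lm c y = c * y := rfl

/-- A right ideal strictly between `I'` and `I`. -/
theorem exists_between {c : A} {I I' N0 N : Submodule Aᵐᵒᵖ A} (hI : I' ≤ I)
    (h0 : ∀ y ∈ I', c * y ∈ N0) (hN0 : N0 < N) (hN : ∀ y ∈ N, ∃ z ∈ I, c * z = y)
    (hN' : ∃ z ∈ I, c * z ∉ N) : ∃ M, I' < M ∧ M < I := by
  refine ⟨I ⊓ N.comap (lm c), lt_of_le_of_ne ?_ ?_, lt_of_le_of_ne inf_le_left ?_⟩
  · intro y hy
    exact ⟨hI hy, hN0.le (h0 y hy)⟩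
  · intro h
    obtain ⟨y, hy, hy'⟩ := SetLike.exists_of_lt hN0
    obtain ⟨z, hz, hcz⟩ := hN y hy
    have hz' : z ∈ I ⊓ N.comap (lm c) := ⟨hz, by
      change c * z ∈ N
      rw [hcz]
      exact hy⟩
    rw [← h] at hz'
    apply hy'
    rw [← hcz]
    exact h0 z hz'
  · intro h
    obtain ⟨z, hz, hcz⟩ := hN'
    rw [← h] at hz
    exact hcz hz.2

theorem height_two {I I' M : Submodule Aᵐᵒᵖ A} (h1 : I' < M) (h2 : M < I) {n : ℕ}
    (hn : (n : ℕ∞) ≤ Order.height I') : ((n + 2 : ℕ) : ℕ∞) ≤ Order.height I := by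
  have h3 := Order.height_add_one_le h1
  have h4 := Order.height_add_one_le h2
  have h5 : ((n + 2 : ℕ) : ℕ∞) = (n : ℕ∞) + 1 + 1 := by
    push_cast
    rw [add_assoc]
    rfl
  rw [h5]
  exact (add_le_add_left ((add_le_add_left hn 1).trans h3) 1).trans h4

theorem height_one {I I' : Submodule Aᵐᵒᵖ A} (h1 : I' < I) {n : ℕ}
    (hn : (n : ℕ∞) ≤ Order.height I') : ((n + 1 : ℕ) : ℕ∞) ≤ Order.height I := by
  have h3 := Order.height_add_one_le h1
  push_cast
  exact (add_le_add_left hn 1).trans h3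

end

end Pool.Agent.MP_f4742e_al
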