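import Pool.Agent.Lib.MP_f4742e_al.HCore
import Pool.Agent.Lib.MP_f4742e_al.G.RightId

/-!
Two facts on a Rota-Baxter operator `R` of weight zero, `a = R 1`, `a^m = 0`, `e = a^(m-1) ≠ 0`,
`b = a^(m-2)`: if the right ideal `e A` is minimal then `e (R x) e = 0` for all `x`; and then
`b (R x) e` or `e (R x) b` is nonzero for some `x`, unless `b` has a further block.
-/

set_option autoImplicit false

namespace Pool.Agent.MP_f4742e_al

open Polynomial

section

variable {F A : Type*} [Field F] [CharZero F] [Ring A] [Algebra F A]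

omit [CharZero F] in
/-- If `e = t e z` and `t` is integral then `e = t f(t) e` for a polynomial `f`. -/
theorem exists_poly_unit {t e z : A} (ht : IsIntegral F t) (hz : e = t * e * z) :
    ∃ f : F[X], aeval t (X * f) * e = e := by
  have hp0 : minpoly F t ≠ 0 := minpoly.ne_zero ht
  obtain ⟨q, hq, hnd⟩ := exists_eq_pow_rootMultiplicity_mul_and_not_dvd (minpoly F t) hp0 0
  rw [map_zero, sub_zero] at hq hnd
  obtain ⟨k, hk⟩ : ∃ k, k = (minpoly F t).rootMultiplicity 0 := ⟨_, rfl⟩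
  rw [← hk] at hq
  have h1 : ∀ j : ℕ, e = t ^ j * e * z ^ j := by
    intro j
    induction j with
    | zero => rw [pow_zero, pow_zero, one_mul, mul_one]
    | succ j ih =>
      conv_lhs => rw [ih, hz]
      rw [pow_succ, pow_succ']
      noncomm_ring
  have h2 : aeval t q * e = 0 := by
    rw [h1 k, mul_assoc, ← mul_assoc, ← mul_assoc]
    have h3 : aeval t q * t ^ k = 0 := by
      have h4 : aeval t q * t ^ k = aeval t (minpoly F t) := by
        rw [hq, mul_comm (X ^ k) q, map_mul, map_pow, aeval_X]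
      rw [h4, minpoly.aeval]
    rw [h3, zero_mul, zero_mul]
  have hq0 : q.coeff 0 ≠ 0 := by
    intro h
    exact hnd (X_dvd_iff.2 h)
  refine ⟨-(C (q.coeff 0)⁻¹ * divX q), ?_⟩
  have h3 : aeval t q = aeval t (X * divX q) + aeval t (C (q.coeff 0)) := by
    rw [← map_add, X_mul_divX_add]
  rw [h3, aeval_C, add_mul, ← Algebra.smul_def] at h2
  have h4 : aeval t (X * -(C (q.coeff 0)⁻¹ * divX q)) =
      -((q.coeff 0)⁻¹ • aeval t (X * divX q)) := by
    have h5 : X * -(C (q.coeff 0)⁻¹ * divX q) = -(C (q.coeff 0)⁻¹ * (X * divX q)) := by ring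
    rw [h5, map_neg, map_mul, aeval_C, ← Algebra.smul_def]
  rw [h4, neg_mul, smul_mul_assoc, eq_neg_of_add_eq_zero_left h2, smul_neg, neg_neg, smul_smul,
    inv_mul_cancel₀ hq0, one_smul]

variable {R : A →ₗ[F] A} (h : JRB R) {m : ℕ}

include h

theorem pow_es (x : A) (k : ℕ) :
    ∃ y, R x * ((R 1) ^ (m - 1) * R x) ^ k = R y := by
  induction k with
  | zero => exact ⟨x, by rw [pow_zero, mul_one]⟩
  | succ k ih =>
    obtain ⟨y, hy⟩ := ih
    have h1 := closure h (m - 1) x y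
    refine ⟨(2⁻¹ : F) • (tp x ((R 1) ^ (m - 1)) (R y) + tp (R x) ((R 1) ^ (m - 1)) y +
      ((m - 1 : ℕ) : F) • tp (R x) ((R 1) ^ (m - 1 - 1)) (R y)), ?_⟩
    rw [map_smul, ← h1, ← hy]
    have h2 : tp (R x) ((R 1) ^ (m - 1)) (R x * ((R 1) ^ (m - 1) * R x) ^ k) =
        (2 : F) • (R x * ((R 1) ^ (m - 1) * R x) ^ (k + 1)) := by
      unfold tp
      rw [two_smul]
      congr 1
      · rw [pow_succ']
        noncomm_ring
      · rw [pow_succ]
        noncomm_ring
    rw [h2, smul_smul, inv_mul_cancel₀ two_ne_zero, one_smul]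

theorem poly_es (x : A) (f : F[X]) : ∃ y, aeval ((R 1) ^ (m - 1) * R x) (X * f) *
    (R 1) ^ (m - 1) = (R 1) ^ (m - 1) * R y * (R 1) ^ (m - 1) := by
  induction f using Polynomial.induction_on' with
  | add f g hf hg =>
    obtain ⟨y1, h1⟩ := hf
    obtain ⟨y2, h2⟩ := hg
    refine ⟨y1 + y2, ?_⟩
    rw [mul_add, map_add, add_mul, h1, h2, map_add]
    noncomm_ring
  | monomial n c =>
    obtain ⟨y, hy⟩ := pow_es h (m := m) x n
    refine ⟨c • y, ?_⟩
    rw [X_mul_monomial, aeval_monomial, ← Algebra.smul_def, map_smul, ← hy, pow_succ',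
      mul_smul_comm, smul_mul_assoc, smul_mul_assoc]
    congr 1
    noncomm_ring

/-- If `e A` is a minimal right ideal then `e (R x) e = 0`. -/
theorem ese_zero [FiniteDimensional F A] (hm : 2 ≤ m) (ha : (R 1) ^ m = 0)
    (he : (R 1) ^ (m - 1) ≠ 0)
    (hmin : ∀ z : A, (R 1) ^ (m - 1) * z ≠ 0 → ∃ w, (R 1) ^ (m - 1) * z * w = (R 1) ^ (m - 1))
    (x : A) : (R 1) ^ (m - 1) * R x * (R 1) ^ (m - 1) = 0 := by
  by_contra hne
  obtain ⟨w, hw⟩ := hmin (R x * (R 1) ^ (m - 1)) (by rw [← mul_assoc]; exact hne)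
  obtain ⟨f, hf⟩ := exists_poly_unit (F := F) (t := (R 1) ^ (m - 1) * R x)
    (e := (R 1) ^ (m - 1)) (z := w) (Algebra.IsIntegral.isIntegral _)
    (by rw [mul_assoc ((R 1) ^ (m - 1)) (R x)]; exact hw.symm)
  obtain ⟨y, hy⟩ := poly_es h (m := m) x f
  rw [hf] at hy
  have hRe := R_e h (by omega : 1 ≤ m) ha
  have hRu := R_exe h hm ha y
  rw [← hy] at hRu
  have hm1 : (m : F) - 1 ≠ 0 := by
    have h1 : (m : F) ≠ 1 := by
      have : m ≠ 1 := by omega
      exact_mod_cast this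
    exact sub_ne_zero.2 h1
  have hk : R ((R 1) ^ (m - 1) * y * (R 1) ^ (m - 1) +
      (-((m : F) - 1)) • (R 1) ^ (m - 2)) = 0 := by
    rw [map_add, hRu, map_smul, R_b h hm, smul_smul, neg_mul, mul_inv_cancel₀ hm1, neg_smul,
      one_smul, add_neg_cancel]
  have h1 := Kj h hk (m - 1) y
  have h2 := Kj h hRe (m - 2) y
  rw [tp_comm] at h2
  rw [tp_add_right, tp_smul_right, map_add, map_smul, h2, smul_zero, add_zero] at h1
  have h3 : tp ((R 1) ^ (m - 1)) (R y) ((R 1) ^ (m - 1) * y * (R 1) ^ (m - 1)) =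
      (2 : F) • ((R 1) ^ (m - 1) * y * (R 1) ^ (m - 1)) := by
    unfold tp
    rw [two_smul]
    have e1 : (R 1) ^ (m - 1) * R y * ((R 1) ^ (m - 1) * y * (R 1) ^ (m - 1)) =
        (R 1) ^ (m - 1) * R y * (R 1) ^ (m - 1) * (y * (R 1) ^ (m - 1)) := by noncomm_ring
    have e2 : (R 1) ^ (m - 1) * y * (R 1) ^ (m - 1) * R y * (R 1) ^ (m - 1) =
        (R 1) ^ (m - 1) * y * ((R 1) ^ (m - 1) * R y * (R 1) ^ (m - 1)) := by noncomm_ring
    rw [e1, e2, ← hy, ← mul_assoc]
  rw [h3, map_smul, hRu] at h1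
  rcases smul_eq_zero.1 h1 with h4 | h4
  · exact two_ne_zero h4
  · exact he h4

/-- If `e (R x) e = 0` for all `x` and `b` has no block besides those of `e`, then
`b (R x) e + e (R x) b ≠ 0` for some `x`. -/
theorem exists_bse (hm : 2 ≤ m) (ha : (R 1) ^ m = 0) (he : (R 1) ^ (m - 1) ≠ 0)
    (hρ : ∀ x, (R 1) ^ (m - 1) * R x * (R 1) ^ (m - 1) = 0) {g : A}
    (hβ : (1 - (R 1) ^ (m - 1) * g) * (R 1) ^ (m - 2) * (1 - g * (R 1) ^ (m - 1)) = 0) :
    ∃ x, (R 1) ^ (m - 2) * R x * (R 1) ^ (m - 1) ≠ 0 ∨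
      (R 1) ^ (m - 1) * R x * (R 1) ^ (m - 2) ≠ 0 := by
  by_contra hcon
  push Not at hcon
  have hRe := R_e h (by omega : 1 ≤ m) ha
  have hRb := R_b h hm
  have hm1 : (m : F) - 1 ≠ 0 := by
    have h1 : (m : F) ≠ 1 := by
      have : m ≠ 1 := by omega
      exact_mod_cast this
    exact sub_ne_zero.2 h1
  have hζ : R (((m : F) - 1) • (R 1) ^ (m - 2)) = (R 1) ^ (m - 1) := by
    rw [map_smul, hRb, smul_smul, mul_inv_cancel₀ hm1, one_smul]
  have hT := T1g h (m - 2) g hRe hζ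
  have hρ' : ∀ x, R ((R 1) ^ (m - 1) * x * (R 1) ^ (m - 1)) = 0 := by
    intro x
    rw [R_exe h hm ha, hρ]
  have h1 := (hcon g).1
  have h2 := (hcon g).2
  have h3 := hρ g
  have h4 := hρ' (g * (R 1) ^ (m - 2) * g)
  have h5 := hρ' (g * (R 1) ^ (m - 2) * R g * (R 1) ^ (m - 2) * g)
  obtain ⟨e, hee⟩ : ∃ e, e = (R 1) ^ (m - 1) := ⟨_, rfl⟩
  obtain ⟨b, hb⟩ : ∃ b, b = (R 1) ^ (m - 2) := ⟨_, rfl⟩
  obtain ⟨s, hs⟩ : ∃ s, s = R g := ⟨_, rfl⟩
  rw [← hee] at he hβ hRb hζ hT h1 h2 h3 h4 h5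
  rw [← hb] at hβ hRb hζ hT h1 h2 h4 h5
  rw [← hs] at hT h1 h2 h3 h5
  have hbb : b = e * g * b + b * g * e - e * (g * b * g) * e := by
    have h6 : (1 - e * g) * b * (1 - g * e) =
        b - (e * g * b + b * g * e - e * (g * b * g) * e) := by noncomm_ring
    rw [h6] at hβ
    exact sub_eq_zero.1 hβ
  have h6 : tp b s e = 0 := by
    unfold tp
    rw [h1, h2, add_zero]
  have h7 : tp b g e = b + e * (g * b * g) * e := by
    have h := eq_sub_iff_add_eq.1 hbb
    unfold tp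
    rw [h, add_comm]
  have h8 : b * s * b = e * (g * b * s * b * g) * e := by
    have e1 : s * b = s * (e * g * b) + s * (b * g * e) - s * (e * (g * b * g) * e) := by
      conv_lhs => rw [hbb]
      noncomm_ring
    have e2 : b * s * b = e * g * b * s * b := by
      have e3 : b * s * b = (e * g * b + b * g * e - e * (g * b * g) * e) * s * b := by
        rw [← hbb]
      rw [e3]
      have e4 : (e * g * b + b * g * e - e * (g * b * g) * e) * s * b =
          e * g * b * s * b + b * g * (e * s * b) - e * (g * b * g) * (e * s * b) := by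
        noncomm_ring
      rw [e4, h2, mul_zero, mul_zero, add_zero, sub_zero]
    have e5 : b * s * b = b * s * b * (g * e) := by
      have e3 : b * s * b = b * s * (e * g * b + b * g * e - e * (g * b * g) * e) := by
        rw [← hbb]
      have e4 : b * s * (e * g * b + b * g * e - e * (g * b * g) * e) =
          b * s * e * (g * b) + b * s * b * (g * e) - b * s * e * ((g * b * g) * e) := by
        noncomm_ring
      have e6 := e3.trans e4
      rw [h1, zero_mul, zero_mul, zero_add, sub_zero] at e6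
      exact e6
    rw [e5]
    conv_lhs => rw [e2]
    noncomm_ring
  have h9 : tp b s (((m : F) - 1) • b) = (2 * ((m : F) - 1)) • (e * (g * b * s * b * g) * e) := by
    rw [tp_smul_right, ← h8]
    unfold tp
    module
  rw [h6, h7, h9, map_add, map_add, map_smul, h4, h5, smul_zero, add_zero, add_zero, hRb] at hT
  rcases smul_eq_zero.1 hT.symm with h10 | h10
  · exact inv_ne_zero hm1 h10
  · exact he h10

end

end Pool.Agent.MP_f4742e_al
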