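import Pool.Agent.Lib.MP_f4742e_al.HCore
import Pool.Agent.Lib.MP_f4742e_al.Defs

/-!
Jordan algebras of an algebra with involution, and the extension of Rota-Baxter operators.
-/

set_option autoImplicit false

namespace Pool.Agent.MP_f4742e_al

/-- An `F`-linear involution of an `F`-algebra: an anti-automorphism of period two. -/
structure Involution (F A : Type*) [Field F] [Ring A] [Algebra F A] where
  /-- the underlying linear map -/
  f : A →ₗ[F] A
  map_mul : ∀ x y : A, f (x * y) = f y * f x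
  invol : ∀ x : A, f (f x) = x

namespace Involution

variable {F A : Type*} [Field F] [Ring A] [Algebra F A] (σ : Involution F A)

/-- `H(A, *)`: the space of the symmetric elements. -/
def H : Submodule F A where
  carrier := {x | σ.f x = x}
  add_mem' := by
    intro x y hx hy
    change σ.f (x + y) = x + y
    rw [map_add, show σ.f x = x from hx, show σ.f y = y from hy]
  zero_mem' := map_zero σ.f
  smul_mem' := by
    intro c x hx
    change σ.f (c • x) = c • x
    rw [map_smul, show σ.f x = x from hx]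

theorem mem_H {x : A} : x ∈ σ.H ↔ σ.f x = x := Iff.rfl

theorem f_one : σ.f 1 = 1 := by
  have h1 := σ.map_mul 1 (σ.f 1)
  rw [σ.invol, one_mul, σ.invol] at h1
  exact h1.symm

theorem f_pow {x : A} (hx : σ.f x = x) (j : ℕ) : σ.f (x ^ j) = x ^ j := by
  induction j with
  | zero => rw [pow_zero, σ.f_one]
  | succ j ih => rw [pow_succ, σ.map_mul, ih, hx, ← pow_succ', pow_succ]

theorem jp_mem {x y : A} (hx : x ∈ σ.H) (hy : y ∈ σ.H) : x * y + y * x ∈ σ.H := by
  rw [mem_H] at hx hy ⊢
  rw [map_add, σ.map_mul, σ.map_mul, hx, hy, add_comm]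

/-- The Jordan algebra structure of `H(A, *)`: `x ∘ y = (x y + y x) / 2`. -/
noncomputable instance : NonUnitalNonAssocRing σ.H :=
  { (inferInstance : AddCommGroup σ.H) with
    mul := fun x y => ⟨(2⁻¹ : F) • ((x : A) * y + y * x), σ.H.smul_mem _ (σ.jp_mem x.2 y.2)⟩
    left_distrib := by
      intro x y z
      apply Subtype.ext
      change (2⁻¹ : F) • ((x : A) * (y + z) + (y + z) * x) =
        (2⁻¹ : F) • ((x : A) * y + y * x) + (2⁻¹ : F) • ((x : A) * z + z * x)
      rw [← smul_add]
      congr 1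
      noncomm_ring
    right_distrib := by
      intro x y z
      apply Subtype.ext
      change (2⁻¹ : F) • (((x : A) + y) * z + z * (x + y)) =
        (2⁻¹ : F) • ((x : A) * z + z * x) + (2⁻¹ : F) • ((y : A) * z + z * y)
      rw [← smul_add]
      congr 1
      noncomm_ring
    zero_mul := by
      intro x
      apply Subtype.ext
      change (2⁻¹ : F) • ((0 : A) * x + x * 0) = 0
      rw [zero_mul, mul_zero, add_zero, smul_zero]
    mul_zero := by
      intro x
      apply Subtype.ext
      change (2⁻¹ : F) • ((x : A) * 0 + 0 * x) = 0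
      rw [zero_mul, mul_zero, add_zero, smul_zero] }

theorem coe_mul (x y : σ.H) : ((x * y : σ.H) : A) = (2⁻¹ : F) • ((x : A) * y + y * x) := rfl

variable [CharZero F]

/-- The projection to the symmetric elements. -/
noncomputable def proj : A →ₗ[F] σ.H where
  toFun x := ⟨(2⁻¹ : F) • (x + σ.f x), by
    rw [mem_H, map_smul, map_add, σ.invol, add_comm]⟩
  map_add' := by
    intro x y
    apply Subtype.ext
    change (2⁻¹ : F) • (x + y + σ.f (x + y)) = (2⁻¹ : F) • (x + σ.f x) + (2⁻¹ : F) • (y + σ.f y)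
    rw [map_add]
    module
  map_smul' := by
    intro c x
    apply Subtype.ext
    change (2⁻¹ : F) • (c • x + σ.f (c • x)) = c • ((2⁻¹ : F) • (x + σ.f x))
    rw [map_smul]
    module

theorem coe_proj (x : A) : (σ.proj x : A) = (2⁻¹ : F) • (x + σ.f x) := rfl

theorem proj_coe (u : σ.H) : σ.proj (u : A) = u := by
  apply Subtype.ext
  rw [coe_proj, show σ.f (u : A) = u from u.2, ← two_smul F, smul_smul,
    inv_mul_cancel₀ two_ne_zero, one_smul]

theorem proj_f (x : A) : σ.proj (σ.f x) = σ.proj x := by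
  apply Subtype.ext
  rw [coe_proj, coe_proj, σ.invol, add_comm]

theorem proj_jp (u : σ.H) (y : A) : σ.proj (jp (u : A) y) = (2 : F) • (u * σ.proj y) := by
  apply Subtype.ext
  change (2⁻¹ : F) • (jp (u : A) y + σ.f (jp (u : A) y)) =
    (2 : F) • (2⁻¹ : F) • ((u : A) * ((2⁻¹ : F) • (y + σ.f y)) + ((2⁻¹ : F) • (y + σ.f y)) * u)
  unfold jp
  rw [map_add, σ.map_mul, σ.map_mul, show σ.f (u : A) = u from u.2, smul_smul,
    mul_inv_cancel₀ two_ne_zero, one_smul, mul_smul_comm, smul_mul_assoc, ← smul_add]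
  congr 1
  noncomm_ring

/-- The extension of a linear operator on `H(A, *)` to `A`, zero on the skew elements. -/
noncomputable def ext (R : σ.H →ₗ[F] σ.H) : A →ₗ[F] A := σ.H.subtype ∘ₗ R ∘ₗ σ.proj

theorem ext_apply (R : σ.H →ₗ[F] σ.H) (x : A) : σ.ext R x = R (σ.proj x) := rfl

theorem ext_sym (R : σ.H →ₗ[F] σ.H) (x : A) : σ.f (σ.ext R x) = σ.ext R x :=
  (R (σ.proj x)).2

theorem ext_f (R : σ.H →ₗ[F] σ.H) (x : A) : σ.ext R (σ.f x) = σ.ext R x := by
  rw [ext_apply, ext_apply, proj_f]

theorem ext_jrb {R : σ.H →ₗ[F] σ.H} (hR : IsRotaBaxter R) : JRB (σ.ext R) := by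
  intro x y
  have hcomm : ∀ u v : σ.H, u * v = v * u := by
    intro u v
    apply Subtype.ext
    rw [coe_mul, coe_mul, add_comm]
  have h1 : jp (σ.ext R x) (σ.ext R y) = (2 : F) • ((R (σ.proj x) * R (σ.proj y) : σ.H) : A) := by
    rw [coe_mul, smul_smul, mul_inv_cancel₀ two_ne_zero, one_smul]
    rfl
  rw [h1, hR, ext_apply, map_add σ.proj, jp_comm x, ext_apply, ext_apply, proj_jp, proj_jp,
    hcomm (R (σ.proj y)) (σ.proj x), ← smul_add, map_smul]
  rfl

theorem ext_pow (R : σ.H →ₗ[F] σ.H) (N : ℕ) (u : σ.H) :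
    ((σ.ext R) ^ N) (u : A) = ((R ^ N) u : σ.H) := by
  induction N with
  | zero => rfl
  | succ N ih =>
    rw [pow_succ', Module.End.mul_apply, ih, pow_succ', Module.End.mul_apply, ext_apply, proj_coe]

theorem pow_eq_zero_of_ext {R : σ.H →ₗ[F] σ.H} {N : ℕ} (h : (σ.ext R) ^ N = 0) : R ^ N = 0 := by
  apply LinearMap.ext
  intro u
  apply Subtype.ext
  rw [← ext_pow, h, LinearMap.zero_apply, LinearMap.zero_apply, Submodule.coe_zero]

end Involution

end Pool.Agent.MP_f4742e_al
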