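import Pool.Agent.Lib.MP_f4742e_al.G.Alg
import Pool.Agent.Lib.MP_f4742e_al.G.Setup

/-!
A long chain of right ideals inside a totally isotropic right ideal.
-/

set_option autoImplicit false

namespace Pool.Agent.MP_f4742e_al

section

variable {F A : Type*} [Field F] [Ring A] [Algebra F A]

/-- A totally isotropic right ideal. -/
def Involution.Iso (σ : Involution F A) (I : Submodule Aᵐᵒᵖ A) : Prop :=
  ∀ x ∈ I, ∀ y ∈ I, σ.f x * y = 0

theorem exists_reg [IsSemisimpleRing A] (e : A) : ∃ g, e * g * e = e := by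
  obtain ⟨f, hf, hI⟩ := IsSemisimpleRing.ideal_eq_span_idempotent (Ideal.span {e})
  have h1 : e ∈ Ideal.span {f} := hI ▸ Ideal.subset_span rfl
  have h2 : f ∈ Ideal.span {e} := hI ▸ Ideal.subset_span rfl
  obtain ⟨y, hy⟩ := Ideal.mem_span_singleton'.1 h1
  obtain ⟨z, hz⟩ := Ideal.mem_span_singleton'.1 h2
  refine ⟨z, ?_⟩
  have h3 : e * f = e := by
    rw [← hy, mul_assoc, hf.eq]
  rw [mul_assoc, hz, h3]

end

section chains

variable {A : Type*} [Ring A] {a : A} {m : ℕ}

theorem rid_pow_le (j : ℕ) : rid (a ^ (j + 1)) ≤ rid (a ^ j) := by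
  intro y hy
  obtain ⟨z, rfl⟩ := mem_rid.1 hy
  rw [pow_succ, mul_assoc]
  exact mul_mem_rid _ _

theorem bot_lt_rid {e : A} (he : e ≠ 0) : ⊥ < rid e := by
  rw [bot_lt_iff_ne_bot]
  intro h
  have h1 := self_mem_rid e
  rw [h] at h1
  exact he h1

/-- The case where `e A` is not minimal. -/
theorem height_of_between (ha : a ^ m = 0) {N : Submodule Aᵐᵒᵖ A} (h0 : ⊥ < N)
    (hN : N < rid (a ^ (m - 1))) : ∀ d : ℕ, d ≤ m →
    ((2 * d : ℕ) : ℕ∞) ≤ Order.height (rid (a ^ (m - d))) := by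
  intro d
  induction d with
  | zero =>
    intro _
    simp
  | succ d ih =>
    intro hd
    have h1 := ih (by omega)
    obtain ⟨j, hj⟩ : ∃ j, j = m - (d + 1) := ⟨_, rfl⟩
    have hj1 : m - d = j + 1 := by omega
    rw [hj1] at h1
    rw [← hj]
    have hmj : m - 1 - j + j = m - 1 := by omega
    obtain ⟨M, hM1, hM2⟩ := exists_between (c := a ^ (m - 1 - j)) (I := rid (a ^ j))
      (I' := rid (a ^ (j + 1))) (N0 := ⊥) (N := N) (rid_pow_le j) (by
        intro y hy
        obtain ⟨z, rfl⟩ := mem_rid.1 hy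
        rw [← mul_assoc, ← pow_add]
        have : m - 1 - j + (j + 1) = m := by omega
        rw [this, ha, zero_mul]
        exact Submodule.zero_mem _) h0 (by
        intro y hy
        obtain ⟨z, rfl⟩ := mem_rid.1 (hN.le hy)
        exact ⟨a ^ j * z, mul_mem_rid _ _, by rw [← mul_assoc, ← pow_add, hmj]⟩) (by
        obtain ⟨y, hy, hy'⟩ := SetLike.exists_of_lt hN
        obtain ⟨z, rfl⟩ := mem_rid.1 hy
        exact ⟨a ^ j * z, mul_mem_rid _ _, by rw [← mul_assoc, ← pow_add, hmj]; exact hy'⟩)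
    have h2 := height_two hM1 hM2 h1
    have h3 : 2 * d + 2 = 2 * (d + 1) := by ring
    rwa [h3] at h2

/-- The case where there is a further block of size `m - 1`. -/
theorem height_of_block (hm : 2 ≤ m) (ha : a ^ m = 0) (he : a ^ (m - 1) ≠ 0) {β c : A}
    (hβ : a ^ (m - 2) * c = β) (haβ : a * β = 0) (hβe : β ∉ rid (a ^ (m - 1))) :
    ∀ d : ℕ, d ≤ m - 1 →
    ((2 * d + 1 : ℕ) : ℕ∞) ≤ Order.height (rid (a ^ (m - 1 - d))) := by
  intro d
  induction d with
  | zero =>
    intro _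
    exact height_one (bot_lt_rid he) (n := 0) (by simp)
  | succ d ih =>
    intro hd
    have h1 := ih (by omega)
    obtain ⟨j, hj⟩ : ∃ j, j = m - 1 - (d + 1) := ⟨_, rfl⟩
    have hj1 : m - 1 - d = j + 1 := by omega
    rw [hj1] at h1
    rw [← hj]
    have hmj : m - 2 - j + j = m - 2 := by omega
    have hNlt : rid (a ^ (m - 1)) < rid (a ^ (m - 1)) ⊔ rid β :=
      left_lt_sup.2 (fun h => hβe (h (self_mem_rid β)))
    obtain ⟨M, hM1, hM2⟩ := exists_between (c := a ^ (m - 2 - j)) (I := rid (a ^ j))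
      (I' := rid (a ^ (j + 1))) (N0 := rid (a ^ (m - 1))) (N := rid (a ^ (m - 1)) ⊔ rid β)
      (rid_pow_le j) (by
        intro y hy
        obtain ⟨z, rfl⟩ := mem_rid.1 hy
        rw [← mul_assoc, ← pow_add]
        have : m - 2 - j + (j + 1) = m - 1 := by omega
        rw [this]
        exact mul_mem_rid _ _) hNlt (by
        intro y hy
        obtain ⟨y1, hy1, y2, hy2, rfl⟩ := Submodule.mem_sup.1 hy
        obtain ⟨z1, rfl⟩ := mem_rid.1 hy1
        obtain ⟨z2, rfl⟩ := mem_rid.1 hy2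
        refine ⟨a ^ j * (a * z1 + c * z2), mul_mem_rid _ _, ?_⟩
        rw [← mul_assoc, ← pow_add, hmj, mul_add, ← mul_assoc, ← mul_assoc, hβ, ← pow_succ]
        have : m - 2 + 1 = m - 1 := by omega
        rw [this]) (by
        refine ⟨a ^ j * 1, mul_mem_rid _ _, ?_⟩
        intro h
        rw [← mul_assoc, ← pow_add, hmj, mul_one] at h
        obtain ⟨y1, hy1, y2, hy2, h3⟩ := Submodule.mem_sup.1 h
        obtain ⟨z1, rfl⟩ := mem_rid.1 hy1
        obtain ⟨z2, rfl⟩ := mem_rid.1 hy2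
        apply he
        have h4 : a * a ^ (m - 2) = a ^ (m - 1) := by
          rw [← pow_succ']
          congr 1
          omega
        have h5 : a * a ^ (m - 1) = 0 := by
          rw [← pow_succ', ← ha]
          congr 1
          omega
        rw [← h4, ← h3, mul_add, ← mul_assoc, ← mul_assoc, h5, haβ, zero_mul, zero_mul, add_zero])
    have h2 := height_two hM1 hM2 h1
    have h3 : 2 * d + 1 + 2 = 2 * (d + 1) + 1 := by ring
    rwa [h3] at h2

end chains

section

variable {F A : Type*} [Field F] [Ring A] [Algebra F A] (σ : Involution F A)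

theorem iso_rid_pow {a : A} {m : ℕ} (hσ : σ.f a = a) (ha : a ^ m = 0) {k : ℕ}
    (hk : m ≤ 2 * k) : σ.Iso (rid (a ^ k)) := by
  intro x hx y hy
  obtain ⟨z, rfl⟩ := mem_rid.1 hx
  obtain ⟨w, rfl⟩ := mem_rid.1 hy
  have h1 : a ^ k * a ^ k = 0 := by
    rw [← pow_add]
    exact pow_eq_zero_of_le (by omega) ha
  rw [σ.map_mul, σ.f_pow hσ, mul_assoc, ← mul_assoc (a ^ k), h1, zero_mul, mul_zero]

end

section

variable {F A : Type*} [Field F] [CharZero F] [Ring A] [Algebra F A] [FiniteDimensional F A]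
  [IsSemisimpleRing A] (σ : Involution F A) {R : A →ₗ[F] A}

/-- The main construction: an isotropic right ideal of length at least `m - 1`. -/
theorem exists_iso (h : JRB R) (hσ : ∀ x, σ.f (R x) = R x) {m : ℕ} (hm : 2 ≤ m)
    (ha : (R 1) ^ m = 0) (he : (R 1) ^ (m - 1) ≠ 0) :
    ∃ I : Submodule Aᵐᵒᵖ A, σ.Iso I ∧ ((m - 1 : ℕ) : ℕ∞) ≤ Order.height I := by
  by_cases hmin : ∀ z : A, (R 1) ^ (m - 1) * z ≠ 0 →
      ∃ w, (R 1) ^ (m - 1) * z * w = (R 1) ^ (m - 1)
  swap
  · push Not at hmin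
    obtain ⟨z, hz, hw⟩ := hmin
    have h1 : rid ((R 1) ^ (m - 1) * z) < rid ((R 1) ^ (m - 1)) := by
      refine lt_of_le_of_ne ?_ ?_
      · intro y hy
        obtain ⟨w, rfl⟩ := mem_rid.1 hy
        rw [mul_assoc]
        exact mul_mem_rid _ _
      · intro h2
        have h3 := self_mem_rid ((R 1) ^ (m - 1))
        rw [← h2] at h3
        obtain ⟨w, h4⟩ := mem_rid.1 h3
        exact hw w h4.symm
    have h2 := height_of_between ha (bot_lt_rid hz) h1 (m - (m + 1) / 2) (by omega)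
    have h3 : m - (m - (m + 1) / 2) = (m + 1) / 2 := by omega
    rw [h3] at h2
    refine ⟨_, iso_rid_pow σ (hσ 1) ha (by omega : m ≤ 2 * ((m + 1) / 2)), le_trans ?_ h2⟩
    exact_mod_cast (by omega : m - 1 ≤ 2 * (m - (m + 1) / 2))
  obtain ⟨g, hg⟩ := exists_reg ((R 1) ^ (m - 1))
  have hρ := ese_zero h hm ha he hmin
  have hab : (R 1) ^ (m - 2) * R 1 = (R 1) ^ (m - 1) := by
    rw [← pow_succ]
    congr 1
    omega
  have hba : R 1 * (R 1) ^ (m - 2) = (R 1) ^ (m - 1) := by
    rw [← pow_succ']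
    congr 1
    omega
  have hae : R 1 * (R 1) ^ (m - 1) = 0 := by
    rw [← pow_succ', ← ha]
    congr 1
    omega
  have hea : (R 1) ^ (m - 1) * R 1 = 0 := by
    rw [← pow_succ, ← ha]
    congr 1
    omega
  by_cases hβ : (1 - (R 1) ^ (m - 1) * g) * (R 1) ^ (m - 2) * (1 - g * (R 1) ^ (m - 1)) = 0
  · obtain ⟨x, hx⟩ := exists_bse h hm ha he hρ hβ
    have hx' : (R 1) ^ (m - 2) * R x * (R 1) ^ (m - 1) ≠ 0 := by
      rcases hx with hx | hx
      · exact hx
      · intro h1
        apply hx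
        have h2 := congrArg σ.f h1
        rw [map_zero, σ.map_mul, σ.map_mul, σ.f_pow (hσ 1), σ.f_pow (hσ 1), hσ,
          ← mul_assoc] at h2
        exact h2
    have hese : ∀ j, (R 1) ^ (m - 1) * (R x * (R 1) ^ j * R x) * (R 1) ^ (m - 1) = 0 := by
      intro j
      rw [closure_sq h]
      exact hρ _
    obtain ⟨W, hW⟩ : ∃ W : ℕ → Submodule Aᵐᵒᵖ A, ∀ i, W i = Submodule.span Aᵐᵒᵖ
        {y | ∃ j, i ≤ j ∧ y = (R 1) ^ j * R x * (R 1) ^ (m - 1)} := ⟨_, fun _ => rfl⟩
    have hkill : ∀ i, i + 1 ≤ m - 1 → ∀ y ∈ W (i + 1), (R 1) ^ (m - 2 - i) * y = 0 := by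
      intro i hi y hy
      rw [hW] at hy
      induction hy using Submodule.span_induction with
      | mem y hy =>
        obtain ⟨j, hj, rfl⟩ := hy
        have h1 : (R 1) ^ (m - 2 - i) * ((R 1) ^ j * R x * (R 1) ^ (m - 1)) =
            (R 1) ^ (m - 2 - i + j - (m - 1)) *
              ((R 1) ^ (m - 1) * R x * (R 1) ^ (m - 1)) := by
          rw [← mul_assoc, ← mul_assoc, ← mul_assoc, ← mul_assoc, ← pow_add, ← pow_add]
          congr 3
          omega
        rw [h1, hρ, mul_zero]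
      | zero => exact mul_zero _
      | add y z _ _ hy hz => rw [mul_add, hy, hz, add_zero]
      | smul c y _ hy =>
        change (R 1) ^ (m - 2 - i) * (y * MulOpposite.unop c) = 0
        rw [← mul_assoc, hy, zero_mul]
    have hlt : ∀ i, i + 1 ≤ m - 1 → W (i + 1) < W i := by
      intro i hi
      refine lt_of_le_of_ne ?_ ?_
      · rw [hW, hW]
        apply Submodule.span_mono
        rintro y ⟨j, hj, rfl⟩
        exact ⟨j, by omega, rfl⟩
      · intro h1
        apply hx'
        have h2 : (R 1) ^ i * R x * (R 1) ^ (m - 1) ∈ W (i + 1) := by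
          rw [h1, hW]
          exact Submodule.subset_span ⟨i, le_refl i, rfl⟩
        have h3 := hkill i hi _ h2
        rw [← mul_assoc, ← mul_assoc, ← pow_add] at h3
        have h4 : m - 2 - i + i = m - 2 := by omega
        rw [h4] at h3
        exact h3
    refine ⟨W 0, ?_, ?_⟩
    · intro y hy z hz
      have key : ∀ i j : ℕ, σ.f ((R 1) ^ i * R x * (R 1) ^ (m - 1)) *
          ((R 1) ^ j * R x * (R 1) ^ (m - 1)) = 0 := by
        intro i j
        rw [σ.map_mul, σ.map_mul, σ.f_pow (hσ 1), σ.f_pow (hσ 1), hσ]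
        have h1 := hese (i + j)
        rw [pow_add] at h1
        rw [← h1]
        noncomm_ring
      rw [hW] at hy hz
      induction hy using Submodule.span_induction with
      | mem y hy =>
        obtain ⟨i, _, rfl⟩ := hy
        induction hz using Submodule.span_induction with
        | mem z hz =>
          obtain ⟨j, _, rfl⟩ := hz
          exact key i j
        | zero => exact mul_zero _
        | add z z' _ _ hz hz' => rw [mul_add, hz, hz', add_zero]
        | smul c z _ hz =>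
          change _ * (z * MulOpposite.unop c) = 0
          rw [← mul_assoc, hz, zero_mul]
      | zero => rw [map_zero, zero_mul]
      | add y y' _ _ hy hy' => rw [map_add, add_mul, hy, hy', add_zero]
      | smul c y _ hy =>
        change σ.f (y * MulOpposite.unop c) * z = 0
        rw [σ.map_mul, mul_assoc, hy, mul_zero]
    · have hh : ∀ d, d ≤ m - 1 → ((d : ℕ) : ℕ∞) ≤ Order.height (W (m - 1 - d)) := by
        intro d
        induction d with
        | zero =>
          intro _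
          simp
        | succ d ih =>
          intro hd
          have h1 := ih (by omega)
          have h2 := hlt (m - 1 - (d + 1)) (by omega)
          have h3 : m - 1 - (d + 1) + 1 = m - 1 - d := by omega
          rw [h3] at h2
          exact height_one h2 h1
      have h1 := hh (m - 1) (le_refl _)
      rwa [Nat.sub_self] at h1
  · -- a further block of size `m - 1`
    obtain ⟨β, hβd⟩ : ∃ β, β = (1 - (R 1) ^ (m - 1) * g) * (R 1) ^ (m - 2) *
      (1 - g * (R 1) ^ (m - 1)) := ⟨_, rfl⟩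
    rw [← hβd] at hβ
    obtain ⟨c, hc⟩ : ∃ c, c = (1 - R 1 * g * (R 1) ^ (m - 2)) * (1 - g * (R 1) ^ (m - 1)) :=
      ⟨_, rfl⟩
    have hbc : (R 1) ^ (m - 2) * c = β := by
      rw [hc, hβd]
      have e1 : (R 1) ^ (m - 2) * ((1 - R 1 * g * (R 1) ^ (m - 2)) * (1 - g * (R 1) ^ (m - 1))) =
          ((R 1) ^ (m - 2) - (R 1) ^ (m - 2) * R 1 * g * (R 1) ^ (m - 2)) *
            (1 - g * (R 1) ^ (m - 1)) := by noncomm_ring
      rw [e1, hab]
      noncomm_ring
    have hec : (R 1) ^ (m - 1) * c = 0 := by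
      rw [hc]
      have e1 : (R 1) ^ (m - 1) * ((1 - R 1 * g * (R 1) ^ (m - 2)) * (1 - g * (R 1) ^ (m - 1))) =
          ((R 1) ^ (m - 1) - (R 1) ^ (m - 1) * R 1 * g * (R 1) ^ (m - 2)) *
            (1 - g * (R 1) ^ (m - 1)) := by noncomm_ring
      rw [e1, hea, zero_mul, zero_mul, sub_zero, mul_sub, mul_one, ← mul_assoc, hg, sub_self]
    have haβ : R 1 * β = 0 := by
      rw [← hbc, ← mul_assoc, hba, hec]
    have hβe : β ∉ rid ((R 1) ^ (m - 1)) := by
      intro h1
      obtain ⟨z, hz⟩ := mem_rid.1 h1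
      apply hβ
      have h2 : (1 - (R 1) ^ (m - 1) * g) * (R 1) ^ (m - 1) = 0 := by
        rw [sub_mul, one_mul, hg, sub_self]
      have h3 : (1 - (R 1) ^ (m - 1) * g) * β = β := by
        have h4 : (1 - (R 1) ^ (m - 1) * g) * (1 - (R 1) ^ (m - 1) * g) =
            1 - (R 1) ^ (m - 1) * g := by
          have e1 : (1 - (R 1) ^ (m - 1) * g) * (1 - (R 1) ^ (m - 1) * g) =
            1 - (R 1) ^ (m - 1) * g - (R 1) ^ (m - 1) * g +
              (R 1) ^ (m - 1) * g * (R 1) ^ (m - 1) * g := by noncomm_ring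
          rw [e1, hg, sub_add_cancel]
        rw [hβd, ← mul_assoc, ← mul_assoc, h4]
      rw [← h3, hz, ← mul_assoc, h2, zero_mul]
    have hH := height_of_block hm ha he hbc haβ hβe
    rcases Nat.even_or_odd m with ⟨k, hk⟩ | ⟨k, hk⟩
    · have h1 := hH (m - 1 - k) (by omega)
      have h2 : m - 1 - (m - 1 - k) = k := by omega
      rw [h2] at h1
      refine ⟨_, iso_rid_pow σ (hσ 1) ha (by omega : m ≤ 2 * k), le_trans ?_ h1⟩
      exact_mod_cast (by omega : m - 1 ≤ 2 * (m - 1 - k) + 1)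
    · have hk1 : 1 ≤ k := by omega
      have h1 := hH (m - 1 - (k + 1)) (by omega)
      have h2 : m - 1 - (m - 1 - (k + 1)) = k + 1 := by omega
      rw [h2] at h1
      have hlt : rid ((R 1) ^ (k + 1)) < rid ((R 1) ^ (k + 1)) ⊔ rid ((R 1) ^ k * c) := by
        refine left_lt_sup.2 (fun h3 => ?_)
        obtain ⟨z, hz⟩ := mem_rid.1 (h3 (self_mem_rid ((R 1) ^ k * c)))
        apply hβe
        rw [mem_rid]
        refine ⟨z, ?_⟩
        rw [← hbc]
        have e1 : (R 1) ^ (m - 2) = (R 1) ^ (m - 2 - k) * (R 1) ^ k := by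
          rw [← pow_add]
          congr 1
          omega
        have e2 : (R 1) ^ (m - 1) = (R 1) ^ (m - 2 - k) * (R 1) ^ (k + 1) := by
          rw [← pow_add]
          congr 1
          omega
        rw [e1, e2, mul_assoc, hz, mul_assoc]
      have h3 := height_one hlt h1
      refine ⟨_, ?_, le_trans ?_ h3⟩
      · intro x hx y hy
        obtain ⟨x1, hx1, x2, hx2, rfl⟩ := Submodule.mem_sup.1 hx
        obtain ⟨y1, hy1, y2, hy2, rfl⟩ := Submodule.mem_sup.1 hy
        obtain ⟨u1, rfl⟩ := mem_rid.1 hx1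
        obtain ⟨u2, rfl⟩ := mem_rid.1 hx2
        obtain ⟨w1, rfl⟩ := mem_rid.1 hy1
        obtain ⟨w2, rfl⟩ := mem_rid.1 hy2
        rw [map_add, σ.map_mul, σ.map_mul, σ.map_mul, σ.f_pow (hσ 1), σ.f_pow (hσ 1)]
        have e1 : (R 1) ^ (k + 1) * (R 1) ^ (k + 1) = 0 := by
          rw [← pow_add]
          exact pow_eq_zero_of_le (by omega) ha
        have e2 : (R 1) ^ (k + 1) * (R 1) ^ k = 0 := by
          rw [← pow_add, ← ha]
          congr 1
          omega
        have e3 : (R 1) ^ k * (R 1) ^ (k + 1) = 0 := by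
          rw [← pow_add, ← ha]
          congr 1
          omega
        have e4 : (R 1) ^ k * (R 1) ^ k = (R 1) ^ (m - 1) := by
          rw [← pow_add]
          congr 1
          omega
        have e5 : (σ.f u1 * (R 1) ^ (k + 1) + σ.f u2 * (σ.f c * (R 1) ^ k)) *
            ((R 1) ^ (k + 1) * w1 + (R 1) ^ k * c * w2) =
            σ.f u1 * ((R 1) ^ (k + 1) * (R 1) ^ (k + 1)) * w1 +
            σ.f u1 * ((R 1) ^ (k + 1) * (R 1) ^ k) * (c * w2) +
            σ.f u2 * σ.f c * ((R 1) ^ k * (R 1) ^ (k + 1)) * w1 +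
            σ.f u2 * σ.f c * ((R 1) ^ k * (R 1) ^ k * c) * w2 := by
          noncomm_ring
        rw [e5, e1, e2, e3, e4, hec]
        simp
      · exact_mod_cast (by omega : m - 1 ≤ 2 * (m - 1 - (k + 1)) + 1 + 1)

end

end Pool.Agent.MP_f4742e_al
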