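import Pool.Agent.Lib.MP_f4742e_al.HCore

/-!
The core identity for the upper bound if the last power of `R 1` does not generate a minimal right
ideal.
-/

set_option autoImplicit false

namespace Pool.Agent.MP_f4742e_al

section

variable {F A : Type*} [Field F] [CharZero F] [Ring A] [Algebra F A] {R : A →ₗ[F] A}

omit [CharZero F] in
theorem core_aux {e b g y : A} {c : F} (hc : c ≠ 0) (hRe : R e = 0)
    (hRx : ∀ x, R (e * x * e) = e * R x * e) (hN0 : ∀ x, R (e * R x * e) = 0)
    (hRb : R (c • b) = e)
    (T1 : ∀ x z ζ : A, R z = 0 → R ζ = z → tp b (R x) z = R (tp b x z + tp b (R x) ζ))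
    (T2 : ∀ x z ζ : A, R z = 0 → R ζ = z → tp e (R x) z = R (tp e x z + tp e (R x) ζ))
    (hg : e * g * e = e) (hβ : (1 - e * g) * b * (1 - g * e) = 0)
    (hf : e * R y * e * R y * e = e * R y * e)
    (H1 : ∀ x, e * R x * (e - e * R y * e) = 0) (H1' : ∀ x, (e - e * R y * e) * R x * e = 0)
    (H2 : ∀ x, b * R x * (e - e * R y * e) = 0) (H2' : ∀ x, (e - e * R y * e) * R x * b = 0) :
    ∃ x, e = e * R x * e := by
  obtain ⟨t, ht⟩ : ∃ t, t = R y := ⟨_, rfl⟩
  rw [← ht] at hf H1 H1' H2 H2'
  have K1 : ∀ x, e * R x * e = e * R x * e * t * e := by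
    intro x
    have h1 : e * R x * (e - e * t * e) = e * R x * e - e * R x * e * t * e := by noncomm_ring
    exact sub_eq_zero.1 (h1 ▸ H1 x)
  have K1' : ∀ x, e * R x * e = e * t * (e * R x * e) := by
    intro x
    have h1 : (e - e * t * e) * R x * e = e * R x * e - e * t * (e * R x * e) := by noncomm_ring
    exact sub_eq_zero.1 (h1 ▸ H1' x)
  have hbb : b = e * g * b + b * g * e - e * (g * b * g) * e := by
    have h6 : (1 - e * g) * b * (1 - g * e) =
        b - (e * g * b + b * g * e - e * (g * b * g) * e) := by noncomm_ring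
    rw [h6] at hβ
    exact sub_eq_zero.1 hβ
  obtain ⟨g', hg'⟩ : ∃ g', g' = (1 - t * e) * g * (1 - e * t) := ⟨_, rfl⟩
  obtain ⟨s, hs⟩ : ∃ s, s = R g' := ⟨_, rfl⟩
  have hse : e * s * e = 0 := by
    have h1 : e * g' * e = e - e * t * e := by
      have h2 : e * g' * e = e * g * e - (e * g * e) * t * e - e * t * (e * g * e) +
          e * t * (e * g * e) * t * e := by
        rw [hg']
        noncomm_ring
      rw [h2, hg, hf]
      abel
    have h3 := hRx g'
    rw [h1, map_sub, hRe, ht, hN0, sub_zero, ← hs] at h3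
    exact h3.symm
  obtain ⟨z, hz⟩ : ∃ z, z = b * s * e := ⟨_, rfl⟩
  obtain ⟨z', hz'⟩ : ∃ z', z' = e * s * b := ⟨_, rfl⟩
  have hzt : z * t * e = z := by
    have h1 : b * s * (e - e * t * e) = z - z * t * e := by
      rw [hz]
      noncomm_ring
    exact (sub_eq_zero.1 (h1 ▸ (hs ▸ H2 g' : b * s * (e - e * t * e) = 0))).symm
  have htz' : e * t * z' = z' := by
    have h1 : (e - e * t * e) * s * b = z' - e * t * z' := by
      rw [hz']
      noncomm_ring
    exact (sub_eq_zero.1 (h1 ▸ (hs ▸ H2' g' : (e - e * t * e) * s * b = 0))).symm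
  have hegz : e * g * z = z := by
    have h1 : (e * g * b + b * g * e - e * (g * b * g) * e) * s * e =
        e * g * (b * s * e) + b * g * (e * s * e) - e * g * b * g * (e * s * e) := by
      noncomm_ring
    rw [← hbb, hse, mul_zero, mul_zero, add_zero, sub_zero, ← hz] at h1
    exact h1.symm
  have hzge : z' * g * e = z' := by
    have h1 : e * s * (e * g * b + b * g * e - e * (g * b * g) * e) =
        (e * s * e) * g * b + (e * s * b) * g * e - (e * s * e) * g * b * g * e := by
      noncomm_ring
    rw [← hbb, hse, ← hz'] at h1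
    simp only [zero_mul, zero_add, sub_zero] at h1
    exact h1.symm
  -- the relation from `f`
  obtain ⟨w5, hw5⟩ : ∃ w5, w5 = g * z * y + y * z' * g := ⟨_, rfl⟩
  have h5 : z + z' = e * R w5 * e := by
    have h1 := T1 g' (e * t * e) (e * y * e) (ht ▸ hN0 y) (by rw [hRx, ht])
    rw [← hs] at h1
    have h2 : tp b s (e * t * e) = z + z' := by
      unfold tp
      have e1 : b * s * (e * t * e) = z * t * e := by
        rw [hz]
        noncomm_ring
      have e2 : e * t * e * s * b = e * t * z' := by
        rw [hz']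
        noncomm_ring
      rw [e1, e2, hzt, htz']
    have h3 : tp b g' (e * t * e) = 0 := by
      unfold tp
      have e1 : b * g' * (e * t * e) = b * (1 - t * e) * g * (e * t * e - e * t * e * t * e) := by
        rw [hg']
        noncomm_ring
      have e2 : e * t * e * g' * b = (e * t * e - e * t * e * t * e) * g * (1 - e * t) * b := by
        rw [hg']
        noncomm_ring
      rw [e1, e2, hf, sub_self, mul_zero, zero_mul, zero_mul, zero_mul, add_zero]
    have h4 : tp b s (e * y * e) = e * w5 * e := by
      unfold tp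
      have e1 : b * s * (e * y * e) = (e * g * z) * y * e := by
        rw [hegz, hz]
        noncomm_ring
      have e2 : e * y * e * s * b = e * y * (z' * g * e) := by
        rw [hzge, hz']
        noncomm_ring
      rw [e1, e2, hw5]
      noncomm_ring
    rw [h2, h3, h4, zero_add, hRx] at h1
    exact h1
  have htz : e * t * z = z := by
    have h1 := K1' w5
    rw [← h5, mul_add, htz'] at h1
    exact (add_right_cancel h1).symm
  have hz't : z' * t * e = z' := by
    have h1 := K1 w5
    rw [← h5, add_mul, add_mul, hzt] at h1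
    exact (add_left_cancel h1).symm
  -- the relation from `e`
  have h4 := T1 g' e (c • b) hRe hRb
  rw [← hs] at h4
  have a1 : tp b s e = z + z' := by
    unfold tp
    rw [hz, hz']
  obtain ⟨c1, hc1⟩ : ∃ c1, c1 = g * b * s * b * g - g * z * g * b * g - g * b * g * z' * g :=
    ⟨_, rfl⟩
  have a2 : b * s * b = z * g * b + b * g * z' + e * c1 * e := by
    have i1 : b * s * b = e * g * (b * s * b) + b * g * z' - e * g * b * g * z' := by
      have e1 : (e * g * b + b * g * e - e * (g * b * g) * e) * s * b =
          e * g * (b * s * b) + b * g * (e * s * b) - e * g * b * g * (e * s * b) := by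
        noncomm_ring
      rw [← hbb, ← hz'] at e1
      exact e1
    have i2 : b * s * b = z * g * b + b * s * b * g * e - z * g * b * g * e := by
      have e1 : b * s * (e * g * b + b * g * e - e * (g * b * g) * e) =
          (b * s * e) * g * b + b * s * b * g * e - (b * s * e) * g * b * g * e := by
        noncomm_ring
      rw [← hbb, ← hz] at e1
      exact e1
    have i3 : e * g * (b * s * b) =
        z * g * b + e * g * (b * s * b) * g * e - (e * g * z) * g * b * g * e := by
      have e1 : e * g * (z * g * b + b * s * b * g * e - z * g * b * g * e) =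
          (e * g * z) * g * b + e * g * (b * s * b) * g * e - (e * g * z) * g * b * g * e := by
        noncomm_ring
      rw [← i2] at e1
      conv_rhs at e1 => rw [hegz]
      rw [hegz]
      exact e1
    rw [i1, i3, hc1]
    have i4 : e * g * b * g * z' = e * g * b * g * (z' * g * e) := by rw [hzge]
    rw [i4]
    noncomm_ring
  have a3 : tp b g' e = b + e * (g * b * g) * e - (b * g * (e * t * e) + e * t * e * g * b) := by
    have e1 : b * g' * e = b * g * e - b * g * (e * t * e) - b * t * (e * g * e) +
        b * t * (e * g * e) * t * e := by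
      rw [hg']
      noncomm_ring
    have e2 : e * g' * b = e * g * b - e * t * e * g * b - (e * g * e) * t * b +
        e * t * (e * g * e) * t * b := by
      rw [hg']
      noncomm_ring
    have e3 : b * t * e = b * t * e * t * e := by
      have h1 : b * t * (e - e * t * e) = b * t * e - b * t * e * t * e := by noncomm_ring
      exact sub_eq_zero.1 (h1 ▸ (ht ▸ H2 y : b * t * (e - e * t * e) = 0))
    have e4 : e * t * b = e * t * e * t * b := by
      have h1 : (e - e * t * e) * t * b = e * t * b - e * t * e * t * b := by noncomm_ring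
      exact sub_eq_zero.1 (h1 ▸ (ht ▸ H2' y : (e - e * t * e) * t * b = 0))
    unfold tp
    rw [e1, e2, hg, ← e3, ← e4]
    have e5 := eq_sub_iff_add_eq.1 hbb
    rw [e5]
    abel
  obtain ⟨θ, hθ⟩ : ∃ θ, θ = (2 * c) • (z * g * b + b * g * z') -
    (b * g * (e * t * e) + e * t * e * g * b) := ⟨_, rfl⟩
  have a4 : tp b s (c • b) = (2 * c) • (z * g * b + b * g * z') + (2 * c) • (e * c1 * e) := by
    rw [← smul_add, ← a2, tp_smul_right]
    unfold tp
    module
  obtain ⟨w6, hw6⟩ : ∃ w6, w6 = w5 - g * b * g - (2 * c) • c1 := ⟨_, rfl⟩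
  have h6 : R θ = e * R w6 * e - c⁻¹ • e := by
    have e1 : tp b g' e + tp b s (c • b) =
        b + e * (g * b * g) * e + (2 * c) • (e * c1 * e) + θ := by
      rw [a3, a4, hθ]
      abel
    have e2 : R b = c⁻¹ • e := by
      rw [← hRb, map_smul, smul_smul, inv_mul_cancel₀ hc, one_smul]
    rw [a1, e1, map_add, map_add, map_add, map_smul, hRx, hRx, e2, h5] at h4
    have e3 : e * R w6 * e = e * R w5 * e - e * R (g * b * g) * e - (2 * c) • (e * R c1 * e) := by
      rw [hw6, map_sub, map_sub, map_smul, mul_sub, mul_sub, sub_mul, sub_mul, mul_smul_comm,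
        smul_mul_assoc]
    rw [e3, h4]
    abel
  obtain ⟨z0, hz0⟩ : ∃ z0, z0 = R θ := ⟨_, rfl⟩
  have hRz0 : R z0 = 0 := by
    rw [hz0, h6, map_sub, map_smul, hRe, hN0, smul_zero, sub_zero]
  have h7 := T2 y z0 θ hRz0 hz0.symm
  rw [← ht] at h7
  rw [← hz0] at h6
  obtain ⟨u, hu⟩ : ∃ u, u = R w6 - c⁻¹ • g := ⟨_, rfl⟩
  have hz0u : z0 = e * u * e := by
    rw [h6, hu, mul_sub, sub_mul, mul_smul_comm, smul_mul_assoc, hg]
  have b1 : tp e t z0 = (2 : F) • (e * R w6 * e) - (2 * c⁻¹) • (e * t * e) := by
    unfold tp
    have e1 : e * t * z0 = e * t * (e * R w6 * e) - c⁻¹ • (e * t * e) := by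
      rw [h6, mul_sub, mul_smul_comm]
    have e2 : z0 * t * e = e * R w6 * e * t * e - c⁻¹ • (e * t * e) := by
      rw [h6, sub_mul, sub_mul, smul_mul_assoc, smul_mul_assoc]
    rw [e1, e2, ← K1', ← K1]
    module
  obtain ⟨w7, hw7⟩ : ∃ w7, w7 = y * e * u + u * e * y := ⟨_, rfl⟩
  have b2 : tp e y z0 = e * w7 * e := by
    unfold tp
    rw [hz0u, hw7]
    noncomm_ring
  obtain ⟨w8, hw8⟩ : ∃ w8, w8 = (2 * c) • (t * b * g * z' * g + g * z * g * b * t) -
    (t * b * g * e * t + t * e * g * b * t) := ⟨_, rfl⟩
  have b3 : tp e t θ = θ + e * w8 * e := by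
    have e1 : e * t * (z * g * b + b * g * z') + (z * g * b + b * g * z') * t * e =
        z * g * b + b * g * z' + e * (t * b * g * z' * g + g * z * g * b * t) * e := by
      have f1 : e * t * (z * g * b + b * g * z') + (z * g * b + b * g * z') * t * e =
          (e * t * z) * g * b + b * g * (z' * t * e) + e * t * b * g * z' +
            z * g * b * t * e := by noncomm_ring
      have f2 : e * (t * b * g * z' * g + g * z * g * b * t) * e =
          e * t * b * g * (z' * g * e) + (e * g * z) * g * b * t * e := by noncomm_ring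
      rw [f1, f2, htz, hz't, hzge, hegz]
      abel
    have e2 : e * t * (b * g * (e * t * e) + e * t * e * g * b) +
        (b * g * (e * t * e) + e * t * e * g * b) * t * e =
        b * g * (e * t * e) + e * t * e * g * b +
          e * (t * b * g * e * t + t * e * g * b * t) * e := by
      have f1 : e * t * (b * g * (e * t * e) + e * t * e * g * b) +
          (b * g * (e * t * e) + e * t * e * g * b) * t * e =
          b * g * (e * t * e * t * e) + (e * t * e * t * e) * g * b +
            e * (t * b * g * e * t + t * e * g * b * t) * e := by noncomm_ring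
      rw [f1, hf]
    have e3 : tp e t θ = (2 * c) • (e * t * (z * g * b + b * g * z') +
        (z * g * b + b * g * z') * t * e) - (e * t * (b * g * (e * t * e) + e * t * e * g * b) +
        (b * g * (e * t * e) + e * t * e * g * b) * t * e) := by
      unfold tp
      rw [hθ, mul_sub, sub_mul, sub_mul, mul_smul_comm, smul_mul_assoc, smul_mul_assoc, smul_add]
      abel
    rw [e3, e1, e2, hθ, hw8, mul_sub, sub_mul, mul_smul_comm, smul_mul_assoc, smul_add]
    abel
  rw [b1, b2, b3, map_add, map_add, hRx, hRx, ← hz0, h6] at h7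
  refine ⟨c • (w7 + w8 - w6) + (2 : F) • y, ?_⟩
  have h8 : e * R w7 * e + e * R w8 * e - e * R w6 * e = c⁻¹ • e - (2 * c⁻¹) • (e * t * e) := by
    have h9 : e * R w7 * e + e * R w8 * e - e * R w6 * e =
        (e * R w7 * e + (e * R w6 * e - c⁻¹ • e + e * R w8 * e)) -
          (2 : F) • (e * R w6 * e) + c⁻¹ • e := by
      module
    rw [h9, ← h7]
    module
  have h9 : e * R (c • (w7 + w8 - w6) + (2 : F) • y) * e =
      c • (e * R w7 * e + e * R w8 * e - e * R w6 * e) + (2 : F) • (e * t * e) := by
    rw [map_add, map_smul, map_smul, map_sub, map_add, ← ht, mul_add, add_mul, mul_smul_comm,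
      smul_mul_assoc, mul_smul_comm, smul_mul_assoc, mul_sub, mul_add, sub_mul, add_mul]
  rw [h9, h8, smul_sub, smul_smul, smul_smul, mul_inv_cancel₀ hc, one_smul,
    show c * (2 * c⁻¹) = 2 by field_simp, sub_add_cancel]

end

end Pool.Agent.MP_f4742e_al
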