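import Pool.Agent.Lib.MP_f4742e_al.G.Core
import Pool.Agent.Lib.MP_f4742e_al.G.Chain
import Pool.Agent.Lib.MP_f4742e_al.Anis

/-!
The Jordan algebra of the elements `e (R x) e`, where `e` is the last nonzero power of `R 1`, if
the form given by `e` is anisotropic.
-/

set_option autoImplicit false

namespace Pool.Agent.MP_f4742e_al

open Polynomial

section

variable {F A : Type*} [Field F] [CharZero F] [Ring A] [Algebra F A] {R : A →ₗ[F] A}
  (h : JRB R) {m : ℕ}

include h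

theorem poly_e (x : A) (f : F[X]) : ∃ y, aeval ((R 1) ^ (m - 1) * R x) (X * f) =
    (R 1) ^ (m - 1) * R y := by
  induction f using Polynomial.induction_on' with
  | add f g hf hg =>
    obtain ⟨y1, h1⟩ := hf
    obtain ⟨y2, h2⟩ := hg
    exact ⟨y1 + y2, by rw [mul_add, map_add, h1, h2, map_add, mul_add]⟩
  | monomial n c =>
    obtain ⟨y, hy⟩ := pow_es h (m := m) x n
    refine ⟨c • y, ?_⟩
    rw [X_mul_monomial, aeval_monomial, ← Algebra.smul_def, map_smul, ← hy, pow_succ',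
      mul_smul_comm, mul_assoc]

/-- `e` is not of the form `e (R x) e`. -/
theorem e_not_mem (hm : 2 ≤ m) (ha : (R 1) ^ m = 0) (he : (R 1) ^ (m - 1) ≠ 0) (y : A) :
    (R 1) ^ (m - 1) ≠ (R 1) ^ (m - 1) * R y * (R 1) ^ (m - 1) := by
  intro hy
  have hRe := R_e h (by omega : 1 ≤ m) ha
  have hRu := R_exe h hm ha y
  rw [← hy] at hRu
  have hm1 : (m : F) - 1 ≠ 0 := by
    have h1 : (m : F) ≠ 1 := by
      have : m ≠ 1 := by omega
      exact_mod_cast this
    exact sub_ne_zero.2 h1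
  have hk : R ((R 1) ^ (m - 1) * y * (R 1) ^ (m - 1) +
      (-((m : F) - 1)) • (R 1) ^ (m - 2)) = 0 := by
    rw [map_add, hRu, map_smul, R_b h hm, smul_smul, neg_mul, mul_inv_cancel₀ hm1, neg_smul,
      one_smul, add_neg_cancel]
  have h1 := Kj h hk (m - 1) y
  have h2 := Kj h hRe (m - 2) y
  rw [tp_comm] at h2
  rw [tp_add_right, tp_smul_right, map_add, map_smul, h2, smul_zero, add_zero] at h1
  have h3 : tp ((R 1) ^ (m - 1)) (R y) ((R 1) ^ (m - 1) * y * (R 1) ^ (m - 1)) =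
      (2 : F) • ((R 1) ^ (m - 1) * y * (R 1) ^ (m - 1)) := by
    unfold tp
    rw [two_smul]
    have e1 : (R 1) ^ (m - 1) * R y * ((R 1) ^ (m - 1) * y * (R 1) ^ (m - 1)) =
        (R 1) ^ (m - 1) * R y * (R 1) ^ (m - 1) * (y * (R 1) ^ (m - 1)) := by noncomm_ring
    have e2 : (R 1) ^ (m - 1) * y * (R 1) ^ (m - 1) * R y * (R 1) ^ (m - 1) =
        (R 1) ^ (m - 1) * y * ((R 1) ^ (m - 1) * R y * (R 1) ^ (m - 1)) := by noncomm_ring
    rw [e1, e2, ← hy, ← mul_assoc]
  rw [h3, map_smul, hRu] at h1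
  rcases smul_eq_zero.1 h1 with h4 | h4
  · exact two_ne_zero h4
  · exact he h4

/-- The core contradiction. -/
theorem core (hm : 2 ≤ m) (ha : (R 1) ^ m = 0) (he : (R 1) ^ (m - 1) ≠ 0) {g y : A}
    (hg : (R 1) ^ (m - 1) * g * (R 1) ^ (m - 1) = (R 1) ^ (m - 1))
    (hβ : (1 - (R 1) ^ (m - 1) * g) * (R 1) ^ (m - 2) * (1 - g * (R 1) ^ (m - 1)) = 0)
    (hf : (R 1) ^ (m - 1) * R y * (R 1) ^ (m - 1) * R y * (R 1) ^ (m - 1) =
      (R 1) ^ (m - 1) * R y * (R 1) ^ (m - 1))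
    (H1 : ∀ x, (R 1) ^ (m - 1) * R x *
      ((R 1) ^ (m - 1) - (R 1) ^ (m - 1) * R y * (R 1) ^ (m - 1)) = 0)
    (H1' : ∀ x, ((R 1) ^ (m - 1) - (R 1) ^ (m - 1) * R y * (R 1) ^ (m - 1)) * R x *
      (R 1) ^ (m - 1) = 0)
    (H2 : ∀ x, (R 1) ^ (m - 2) * R x *
      ((R 1) ^ (m - 1) - (R 1) ^ (m - 1) * R y * (R 1) ^ (m - 1)) = 0)
    (H2' : ∀ x, ((R 1) ^ (m - 1) - (R 1) ^ (m - 1) * R y * (R 1) ^ (m - 1)) * R x *
      (R 1) ^ (m - 2) = 0) : False := by
  have hRe := R_e h (by omega : 1 ≤ m) ha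
  have hm1 : (m : F) - 1 ≠ 0 := by
    have h1 : (m : F) ≠ 1 := by
      have : m ≠ 1 := by omega
      exact_mod_cast this
    exact sub_ne_zero.2 h1
  obtain ⟨x, hx⟩ := core_aux (b := (R 1) ^ (m - 2)) hm1 hRe (R_exe h hm ha) (by
      intro x
      have h1 := Kj h hRe (m - 1) x
      have h2 : tp ((R 1) ^ (m - 1)) (R x) ((R 1) ^ (m - 1)) =
          (2 : F) • ((R 1) ^ (m - 1) * R x * (R 1) ^ (m - 1)) := by
        unfold tp
        rw [two_smul]
      rw [h2, map_smul] at h1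
      exact (smul_eq_zero.1 h1).resolve_left two_ne_zero)
    (by rw [map_smul, R_b h hm, smul_smul, mul_inv_cancel₀ hm1, one_smul])
    (fun x z ζ => T1g h (m - 2) x) (fun x z ζ => T1g h (m - 1) x) hg hβ hf H1 H1' H2 H2'
  exact e_not_mem h hm ha he x hx

end

section

variable {F A : Type*} [Field F] [CharZero F] [Ring A] [Algebra F A] [FiniteDimensional F A]
  (σ : Involution F A) {R : A →ₗ[F] A} {m : ℕ}

omit [CharZero F] [FiniteDimensional F A] in
theorem pow_mul_swap (e s : A) (i : ℕ) : (e * s) ^ (i + 1) = e * (s * e) ^ i * s := by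
  induction i with
  | zero => rw [pow_one, pow_zero, mul_one]
  | succ i ih => rw [pow_succ, ih, pow_succ (s * e) i]; noncomm_ring

omit [CharZero F] [FiniteDimensional F A] in
theorem not_nil_of_anis {e s : A} (he : σ.f e = e) (hs : σ.f s = s)
    (hanis : ∀ t : A, σ.f t * e * t = 0 → e * t = 0) :
    ∀ k : ℕ, (e * s) ^ k * e = 0 → e * s * e = 0 := by
  intro k
  induction k using Nat.strong_induction_on with
  | _ k ih =>
    intro hk
    rcases Nat.lt_or_ge k 2 with hk2 | hk2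
    · interval_cases k
      · rw [pow_zero, one_mul] at hk
        rw [hk, mul_zero]
      · rw [pow_one] at hk
        exact hk
    · obtain ⟨j, hj1, hj2⟩ : ∃ j, k ≤ 2 * (j + 1) ∧ j + 1 < k := ⟨(k + 1) / 2 - 1, by omega,
        by omega⟩
      apply ih (j + 1) hj2
      have hτ : σ.f (s * ((e * s) ^ j * e)) * e * (s * ((e * s) ^ j * e)) = 0 := by
        have h1 : ∀ i : ℕ, σ.f ((e * s) ^ i) = (s * e) ^ i := by
          intro i
          induction i with
          | zero => rw [pow_zero, pow_zero, σ.f_one]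
          | succ i ih => rw [pow_succ, σ.map_mul, σ.map_mul, ih, he, hs, ← pow_succ']
        rw [σ.map_mul, σ.map_mul, h1, he, hs, ← pow_mul_swap]
        have h2 : (e * s) ^ (j + 1) * e * (s * ((e * s) ^ j * e)) =
            (e * s) ^ (j + 1) * (e * s * (e * s) ^ j) * e := by noncomm_ring
        rw [h2, ← pow_succ', ← pow_add]
        have h3 : j + 1 + (j + 1) = (j + 1 + (j + 1) - k) + k := by omega
        rw [h3, pow_add, mul_assoc, hk, mul_zero]
      have h4 := hanis _ hτ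
      rw [pow_succ', mul_assoc, mul_assoc]
      exact h4

theorem exists_full (h : JRB R) (hσ : ∀ x, σ.f (R x) = R x)
    (hanis : ∀ t : A, σ.f t * (R 1) ^ (m - 1) * t = 0 → (R 1) ^ (m - 1) * t = 0) :
    ∃ y, (R 1) ^ (m - 1) * R y * (R 1) ^ (m - 1) * R y * (R 1) ^ (m - 1) =
      (R 1) ^ (m - 1) * R y * (R 1) ^ (m - 1) ∧
      ∀ x, (R 1) ^ (m - 1) * R x *
        ((R 1) ^ (m - 1) - (R 1) ^ (m - 1) * R y * (R 1) ^ (m - 1)) = 0 := by
  have hes : σ.f ((R 1) ^ (m - 1)) = (R 1) ^ (m - 1) := σ.f_pow (hσ 1) _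
  obtain ⟨M, ⟨y, hy, rfl⟩, hmax⟩ := set_has_maximal_iff_noetherian.2
    (inferInstance : IsNoetherian F A)
    {M : Submodule F A | ∃ y, ((R 1) ^ (m - 1) * R y) * ((R 1) ^ (m - 1) * R y) =
      (R 1) ^ (m - 1) * R y ∧ M = LinearMap.range (LinearMap.mulLeft F ((R 1) ^ (m - 1) * R y))}
    ⟨_, 0, by rw [map_zero, mul_zero, mul_zero], rfl⟩
  have cl := closure h (m - 1)
  have clsq := closure_sq h (m - 1)
  have pol := fun x f => poly_e h (m := m) x f
  obtain ⟨e, hee⟩ : ∃ e, e = (R 1) ^ (m - 1) := ⟨_, rfl⟩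
  simp only [← hee] at hes hanis hy hmax cl clsq pol ⊢
  obtain ⟨t, ht⟩ : ∃ t, t = R y := ⟨_, rfl⟩
  rw [← ht] at hy hmax
  have hy' : e * t * e * t = e * t := by
    rw [mul_assoc (e * t) e t, hy]
  have hc1 : ∀ x, (1 - e * t) * (e * R x * e) * (1 - t * e) = 0 := by
    intro x
    by_contra hne
    -- the component of `R x`
    obtain ⟨x2, hx2⟩ : ∃ x2, R x2 = (1 - t * e) * R x * (1 - e * t) := by
      obtain ⟨w1, hw1⟩ : ∃ w1, tp t e (R x) = R w1 := ⟨_, ht ▸ cl y x⟩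
      obtain ⟨w2, hw2⟩ : ∃ w2, tp t e (R w1) = R w2 := ⟨_, ht ▸ cl y w1⟩
      obtain ⟨w3, hw3⟩ : ∃ w3, t * e * t = R w3 := ⟨_, ht ▸ clsq y⟩
      obtain ⟨w4, hw4⟩ : ∃ w4, tp (R w3) e (R x) = R w4 := ⟨_, cl w3 x⟩
      refine ⟨x - w1 + (2⁻¹ : F) • (w2 - w4), ?_⟩
      have e1 : tp t e (R w1) - tp (R w3) e (R x) = (2 : F) • (t * e * R x * e * t) := by
        rw [← hw1, ← hw3, two_smul]
        unfold tp
        noncomm_ring
      rw [map_add, map_sub, map_smul, map_sub, ← hw4, ← hw2, e1, smul_smul,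
        inv_mul_cancel₀ two_ne_zero, one_smul, ← hw1]
      unfold tp
      noncomm_ring
    have hne2 : e * R x2 * e ≠ 0 := by
      intro h0
      apply hne
      rw [← h0, hx2]
      noncomm_ring
    have hnil : ¬ IsNilpotent (e * R x2) := by
      rintro ⟨k, hk⟩
      exact hne2 (not_nil_of_anis σ hes (hσ x2) hanis k (by rw [hk, zero_mul]))
    obtain ⟨P, hP1, hP2⟩ := exists_idem_ne (F := F) (e * R x2)
      (Algebra.IsIntegral.isIntegral _) hnil
    obtain ⟨x3, hx3⟩ := pol x2 P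
    have o1 : e * t * (e * R x3) = 0 := by
      rw [← hx3, map_mul, aeval_X, ← mul_assoc]
      have e1 : e * t * (e * R x2) = (e * t * e - e * t * e * t * e) * R x * (1 - e * t) := by
        rw [hx2]
        noncomm_ring
      rw [e1, hy', sub_self, zero_mul, zero_mul, zero_mul]
    have o2 : e * R x3 * (e * t) = 0 := by
      rw [← hx3, mul_comm X P, map_mul, aeval_X, mul_assoc]
      have e1 : e * R x2 * (e * t) = e * (1 - t * e) * R x * (e * t - e * t * e * t) := by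
        rw [hx2]
        noncomm_ring
      rw [e1, hy', sub_self, mul_zero, mul_zero]
    rw [hx3] at hP1 hP2
    have hyx : e * R (y + x3) = e * t + e * R x3 := by
      rw [map_add, ht, mul_add]
    refine hmax _ ⟨y + x3, ?_, rfl⟩ (lt_of_le_of_ne ?_ ?_)
    · rw [hyx, mul_add, add_mul, add_mul, hy, hP1, o1, o2, zero_add, add_zero]
    · rintro _ ⟨c, rfl⟩
      refine ⟨e * t * c, ?_⟩
      rw [LinearMap.mulLeft_apply, LinearMap.mulLeft_apply, hyx, add_mul,
        ← mul_assoc (e * t) (e * t) c, hy, ← mul_assoc (e * R x3) (e * t) c, o2, zero_mul,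
        add_zero]
    · intro heq
      have h1 : e * R x3 ∈ LinearMap.range (LinearMap.mulLeft F (e * R (y + x3))) :=
        ⟨e * R x3, by rw [LinearMap.mulLeft_apply, hyx, add_mul, o1, hP1, zero_add]⟩
      rw [← heq] at h1
      obtain ⟨c, hc⟩ := h1
      rw [LinearMap.mulLeft_apply] at hc
      apply hP2
      rw [← o1, ← hc, ← mul_assoc, hy]
  refine ⟨y, ?_, ?_⟩
  · rw [← ht, hy']
  · intro x
    rw [← ht]
    have hfs : σ.f (e - e * t * e) = e - e * t * e := by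
      rw [map_sub, σ.map_mul, σ.map_mul, hes, ht, hσ, mul_assoc]
    have h1 := hanis (R x * (e - e * t * e)) (by
      rw [σ.map_mul, hfs, hσ]
      have e1 : (e - e * t * e) * R x * e * (R x * (e - e * t * e)) =
          (1 - e * t) * (e * (R x * e * R x) * e) * (1 - t * e) := by noncomm_ring
      rw [e1, clsq x, hc1])
    rw [← mul_assoc] at h1
    exact h1

end

end Pool.Agent.MP_f4742e_al
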