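import Pool.Agent.Lib.MP_f4742e_al.HOp
import Pool.Agent.Lib.MP_f4742e_al.G.Chain
import Pool.Agent.Lib.MP_f4742e_al.Upper

/-!
If the last nonzero power `e` of `R 1` generates a minimal right ideal then `R^(2m-1) = 0`.
-/

set_option autoImplicit false

namespace Pool.Agent.MP_f4742e_al

open Polynomial

section

variable {F A : Type*} [Field F] [CharZero F] [Ring A] [Algebra F A] [FiniteDimensional F A]

omit [CharZero F] [FiniteDimensional F A] in
theorem commute_aeval {q e : A} (h : q * e = e * q) (f : F[X]) :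
    aeval q f * e = e * aeval q f := by
  have h1 : ∀ j : ℕ, q ^ j * e = e * q ^ j := by
    intro j
    induction j with
    | zero => rw [pow_zero, one_mul, mul_one]
    | succ j ih => rw [pow_succ, mul_assoc, h, ← mul_assoc, ih, mul_assoc]
  induction f using Polynomial.induction_on' with
  | add f g hf hg => rw [map_add, add_mul, mul_add, hf, hg]
  | monomial n c => rw [aeval_monomial, ← Algebra.smul_def, smul_mul_assoc, mul_smul_comm, h1]

theorem comm_of_rel [Nontrivial A] (σ : Involution F A) {e q g : A} (hq : σ.f q = q)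
    (he : σ.f e = e) (hgs : σ.f g = g) (hg : e * g * e = e)
    (hmin : ∀ z : A, e * z ≠ 0 → ∃ w, e * z * w = e)
    (hF : e * (q * q) + q * q * e = (2 : F) • (q * e * q)) : q * e = e * q := by
  have hX : (1 - e * g) * q * e = 0 := by
    by_contra hne
    have hYX : σ.f (e * (q * (1 - g * e))) = (1 - e * g) * q * e := by
      rw [σ.map_mul, σ.map_mul, map_sub, σ.map_mul, σ.f_one, he, hq, hgs]
    have hY0 : e * (q * (1 - g * e)) ≠ 0 := by
      intro h
      apply hne
      rw [← hYX, h, map_zero]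
    obtain ⟨w, hw⟩ := hmin _ hY0
    have h1 : (1 - e * g) * q * e * g * (e * (q * (1 - g * e))) = 0 := by
      have h2 : (1 - e * g) * (e * (q * q) + q * q * e) * (1 - g * e) =
          (1 - e * g) * ((2 : F) • (q * e * q)) * (1 - g * e) := by rw [hF]
      have e1 : (1 - e * g) * (e * (q * q) + q * q * e) * (1 - g * e) =
          (e - e * g * e) * (q * q) * (1 - g * e) +
            (1 - e * g) * (q * q) * (e - e * g * e) := by noncomm_ring
      rw [e1, hg, sub_self, zero_mul, zero_mul, mul_zero, add_zero, mul_smul_comm,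
        smul_mul_assoc] at h2
      have h3 := (smul_eq_zero.1 h2.symm).resolve_left two_ne_zero
      have e2 : (1 - e * g) * q * e * g * (e * (q * (1 - g * e))) =
          (1 - e * g) * q * (e * g * e) * q * (1 - g * e) := by noncomm_ring
      rw [e2, hg, ← h3]
      noncomm_ring
    apply hne
    have h4 : (1 - e * g) * q * e = (1 - e * g) * q * e * g * (e * (q * (1 - g * e)) * w) := by
      rw [hw]
      have h5 : (1 - e * g) * q * e * g * e = (1 - e * g) * q * (e * g * e) := by noncomm_ring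
      rw [h5, hg]
    rw [h4, ← mul_assoc, h1, zero_mul]
  have h1 : e * g * q * e = q * e := by
    have e1 : (1 - e * g) * q * e = q * e - e * g * q * e := by noncomm_ring
    rw [e1] at hX
    exact (sub_eq_zero.1 hX).symm
  have h2 : e * q * g * e = e * q := by
    have h3 := congrArg σ.f h1
    rw [σ.map_mul, σ.map_mul, σ.map_mul, σ.map_mul, he, hq, hgs] at h3
    rw [← mul_assoc, ← mul_assoc] at h3
    exact h3
  obtain ⟨α, hα⟩ : ∃ α, α = g * q * e := ⟨_, rfl⟩
  obtain ⟨β, hβ⟩ : ∃ β, β = g * e * q := ⟨_, rfl⟩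
  have hrel : β * β + α * α = (2 : F) • (α * β) := by
    have h3 := congrArg (fun t => g * t) hF
    simp only [mul_smul_comm] at h3
    have e1 : g * (e * (q * q) + q * q * e) = g * (e * q) * q + g * q * (q * e) := by
      noncomm_ring
    have e2 : g * (q * e * q) = g * q * e * q := by noncomm_ring
    have e3 : β * β = g * (e * q) * q := by
      rw [hβ, ← h2]
      noncomm_ring
    have e4 : α * α = g * q * (q * e) := by
      rw [hα, ← h1]
      noncomm_ring
    have e5 : α * β = g * q * e * q := by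
      have e6 : α * β = g * q * (e * g * e) * q := by
        rw [hα, hβ]
        noncomm_ring
      rw [e6, hg]
    rw [e1, e2] at h3
    rw [e3, e4, e5, h3]
  obtain ⟨δ, hδ⟩ : ∃ δ, δ = α - β := ⟨_, rfl⟩
  have hnil : IsNilpotent δ := by
    apply nil_of_rel (F := F) (H := -β) (c := 1) (Algebra.IsIntegral.isIntegral _) one_ne_zero
    rw [one_smul, pow_two, hδ]
    have e1 : (α - β) * (α - β) = (β * β + α * α) - α * β - β * α := by noncomm_ring
    rw [e1, hrel, two_smul]
    noncomm_ring
  have hgeδ : g * e * δ = δ := by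
    rw [hδ, mul_sub]
    congr 1
    · have e1 : g * e * α = g * (e * g * q * e) := by
        rw [hα]
        noncomm_ring
      rw [e1, h1, hα, mul_assoc]
    · have e1 : g * e * β = g * (e * g * e) * q := by
        rw [hβ]
        noncomm_ring
      rw [e1, hg, hβ]
  have hδge : δ * (g * e) = δ := by
    rw [hδ, sub_mul]
    congr 1
    · have e1 : α * (g * e) = g * q * (e * g * e) := by
        rw [hα]
        noncomm_ring
      rw [e1, hg, hα]
    · have e1 : β * (g * e) = g * (e * q * g * e) := by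
        rw [hβ]
        noncomm_ring
      rw [e1, h2, hβ, mul_assoc]
  have hδ0 : δ = 0 := by
    obtain ⟨k, hk, hk0, hk1⟩ := exists_index hnil one_ne_zero
    by_cases hk2 : k < 2
    · have : k = 1 := by omega
      rw [this, pow_one] at hk0
      exact hk0
    · obtain ⟨j, rfl⟩ : ∃ j, k = j + 2 := ⟨k - 2, by omega⟩
      have h3 : j + 2 - 1 = j + 1 := by omega
      rw [h3] at hk1
      have h4 : g * e * δ ^ (j + 1) = δ ^ (j + 1) := by
        rw [pow_succ', ← mul_assoc, hgeδ]
      obtain ⟨w, hw⟩ := hmin (δ ^ (j + 1)) (by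
        intro h5
        apply hk1
        rw [← h4, mul_assoc, h5, mul_zero])
      have h5 : δ * (g * (e * δ ^ (j + 1) * w)) = δ * (g * e * δ ^ (j + 1)) * w := by
        noncomm_ring
      rw [hw, hδge, h4, ← pow_succ'] at h5
      rw [h5, hk0, zero_mul]
  have h3 : α = β := sub_eq_zero.1 (by rw [← hδ, hδ0])
  have h4 : e * α = q * e := by
    rw [← h1, hα]
    noncomm_ring
  have h5 : e * β = e * q := by
    have e1 : e * β = e * g * e * q := by
      rw [hβ]
      noncomm_ring
    rw [e1, hg]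
  rw [← h4, h3, h5]

/-- If `e A` is minimal then `R^(2m-1) = 0`. -/
theorem last_min [Nontrivial A] (σ : Involution F A) {R : A →ₗ[F] A} (h : JRB R)
    (hσ : ∀ x, σ.f (R x) = R x) {m : ℕ} (hm : 2 ≤ m) (ha : (R 1) ^ m = 0)
    (he : (R 1) ^ (m - 1) ≠ 0)
    (hmin : ∀ z : A, (R 1) ^ (m - 1) * z ≠ 0 → ∃ w, (R 1) ^ (m - 1) * z * w = (R 1) ^ (m - 1))
    {g : A} (hg : (R 1) ^ (m - 1) * g * (R 1) ^ (m - 1) = (R 1) ^ (m - 1)) :
    R ^ (2 * m - 1) = 0 := by
  have hes : σ.f ((R 1) ^ (m - 1)) = (R 1) ^ (m - 1) := σ.f_pow (hσ 1) _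
  obtain ⟨g', hg'⟩ : ∃ g', g' = (2⁻¹ : F) • (g + σ.f g) := ⟨_, rfl⟩
  have hgs : σ.f g' = g' := by
    rw [hg', map_smul, map_add, σ.invol, add_comm]
  have hgg : (R 1) ^ (m - 1) * g' * (R 1) ^ (m - 1) = (R 1) ^ (m - 1) := by
    have h1 : (R 1) ^ (m - 1) * σ.f g * (R 1) ^ (m - 1) = (R 1) ^ (m - 1) := by
      have h2 := congrArg σ.f hg
      rw [σ.map_mul, σ.map_mul, hes, ← mul_assoc] at h2
      exact h2
    rw [hg', mul_smul_comm, smul_mul_assoc, mul_add, add_mul, hg, h1, ← two_smul F, smul_smul,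
      inv_mul_cancel₀ two_ne_zero, one_smul]
  have key : ∀ x, (R ^ m) x * (R 1) ^ (m - 1) = (R 1) ^ (m - 1) * (R ^ m) x := by
    intro x
    have hqs : σ.f ((R ^ m) x) = (R ^ m) x := by
      have h1 : (R ^ m) x = R ((R ^ (m - 1)) x) := by
        rw [← Module.End.mul_apply, ← pow_succ']
        congr 2
        omega
      rw [h1, hσ]
    exact comm_of_rel σ hqs hes hgs hgg hmin (F_rel h (by omega) ha x)
  apply LinearMap.ext
  intro x
  rw [LinearMap.zero_apply]
  apply last_zero h (by omega) ha x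
  have h0 : (R ^ m) x * (R 1) ^ (m - 1) = 0 := by
    by_contra hne
    obtain ⟨w, hw⟩ := hmin ((R ^ m) x) (by rw [← key]; exact hne)
    rw [← key] at hw
    obtain ⟨f, hf⟩ := exists_poly_unit (F := F) (Algebra.IsIntegral.isIntegral ((R ^ m) x))
      hw.symm
    obtain ⟨z, hz⟩ := aeval_mem_range h m rfl f (w := x)
    have h1 := commute_aeval (key x) (X * f)
    rw [hf, hz] at h1
    rw [hz] at hf
    have h2 : jp ((R 1) ^ (m - 1)) ((R ^ m) z) = (2 : F) • (R 1) ^ (m - 1) := by
      unfold jp
      rw [hf, ← h1, two_smul]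
    exact two_ne_zero (jp_e_ne h (by omega) ha he z h2)
  unfold jp
  rw [h0, ← key, h0, add_zero]

end

end Pool.Agent.MP_f4742e_al
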