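import Pool.Agent.Lib.MP_f4742e_al.G.Units
import Pool.Agent.Lib.MP_f4742e_al.Transfer

/-!
The lower bound `2 w - 1`: the operator of `M_w(F)^+` acts on `H(A, σ)` through matrix units in a
totally isotropic right ideal.
-/

set_option autoImplicit false

namespace Pool.Agent.MP_f4742e_al

open Matrix SymAlg

section

variable {F A : Type*} [Field F] [Ring A] [Algebra F A] {n : ℕ} {p : A}

/-- The embedding of the matrix algebra given by matrix units. -/
noncomputable def emb (F : Type*) [Field F] [Algebra F A] (E : MUnits A n p) :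
    Matrix (Fin n) (Fin n) F →ₗ[F] A where
  toFun u := ∑ k, ∑ l, u k l • E.e k l
  map_add' u v := by
    simp only [Matrix.add_apply, add_smul, Finset.sum_add_distrib]
  map_smul' c u := by
    simp only [Matrix.smul_apply, smul_eq_mul, mul_smul, Finset.smul_sum, RingHom.id_apply]

theorem emb_apply (E : MUnits A n p) (u : Matrix (Fin n) (Fin n) F) :
    emb F E u = ∑ k, ∑ l, u k l • E.e k l := rfl

theorem e_mul_emb (E : MUnits A n p) (u : Matrix (Fin n) (Fin n) F) (i k : Fin n) :
    E.e i k * emb F E u = ∑ l, u k l • E.e i l := by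
  rw [emb_apply, Finset.mul_sum, Finset.sum_eq_single k]
  · rw [Finset.mul_sum]
    refine Finset.sum_congr rfl fun l _ => ?_
    rw [mul_smul_comm, E.mul_same]
  · intro k' _ hk
    rw [Finset.mul_sum]
    refine Finset.sum_eq_zero fun l _ => ?_
    rw [mul_smul_comm, E.mul_ne _ _ _ _ (Ne.symm hk), smul_zero]
  · intro h
    exact absurd (Finset.mem_univ _) h

theorem emb_mul_e (E : MUnits A n p) (u : Matrix (Fin n) (Fin n) F) (l j : Fin n) :
    emb F E u * E.e l j = ∑ k, u k l • E.e k j := by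
  rw [emb_apply, Finset.sum_mul]
  refine Finset.sum_congr rfl fun k _ => ?_
  rw [Finset.sum_mul, Finset.sum_eq_single l]
  · rw [smul_mul_assoc, E.mul_same]
  · intro l' _ hl
    rw [smul_mul_assoc, E.mul_ne _ _ _ _ hl, smul_zero]
  · intro h
    exact absurd (Finset.mem_univ _) h

theorem emb_mul (E : MUnits A n p) (u v : Matrix (Fin n) (Fin n) F) :
    emb F E (u * v) = emb F E u * emb F E v := by
  rw [emb_apply E u, Finset.sum_mul]
  simp only [Finset.sum_mul, smul_mul_assoc, e_mul_emb, Finset.smul_sum, smul_smul]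
  rw [emb_apply]
  refine Finset.sum_congr rfl fun k _ => ?_
  rw [Finset.sum_comm]
  refine Finset.sum_congr rfl fun l _ => ?_
  rw [Matrix.mul_apply, Finset.sum_smul]

theorem p_mul_emb (E : MUnits A n p) (u : Matrix (Fin n) (Fin n) F) :
    p * emb F E u = emb F E u := by
  rw [emb_apply]
  simp only [Finset.mul_sum, mul_smul_comm, E.left]

theorem emb_mul_p (E : MUnits A n p) (u : Matrix (Fin n) (Fin n) F) :
    emb F E u * p = emb F E u := by
  rw [emb_apply]
  simp only [Finset.sum_mul, smul_mul_assoc, E.right]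

end

section

variable {F A : Type*} [Field F] [CharZero F] [Ring A] [Algebra F A] {σ : Involution F A}
  {m : ℕ} {p : A}

theorem lower_units (E : MUnits A (m + 1) p) (h1 : p * σ.f p = 0) (h2 : σ.f p * p = 0) :
    ∃ R : σ.H →ₗ[F] σ.H, IsRotaBaxter R ∧ R ^ (2 * m) ≠ 0 := by
  obtain ⟨R, hR, hne⟩ := lower_MPlus (F := F) m
  obtain ⟨φ, hφ⟩ : ∃ φ : A →ₗ[F] F, φ (E.e 0 0) = 1 := by
    obtain ⟨φ, hφ⟩ : ∃ φ : A →ₗ[F] F, φ (E.e 0 0) ≠ 0 := by
      by_contra hcon
      push Not at hcon
      exact E.ne 0 0 ((Module.forall_dual_apply_eq_zero_iff F _).1 hcon)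
    exact ⟨(φ (E.e 0 0))⁻¹ • φ, by rw [LinearMap.smul_apply, smul_eq_mul, inv_mul_cancel₀ hφ]⟩
  -- products with the image of the involution
  have a1 : ∀ u : Matrix (Fin (m + 1)) (Fin (m + 1)) F, p * σ.f (emb F E u) = 0 := by
    intro u
    rw [← emb_mul_p E u, σ.map_mul, ← mul_assoc, h1, zero_mul]
  have a2 : ∀ u : Matrix (Fin (m + 1)) (Fin (m + 1)) F, σ.f (emb F E u) * p = 0 := by
    intro u
    rw [← p_mul_emb E u, σ.map_mul, mul_assoc, h2, mul_zero]
  have a3 : ∀ u v : Matrix (Fin (m + 1)) (Fin (m + 1)) F, emb F E u * σ.f (emb F E v) = 0 := by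
    intro u v
    rw [← emb_mul_p E u, mul_assoc, a1, mul_zero]
  have a4 : ∀ u v : Matrix (Fin (m + 1)) (Fin (m + 1)) F, σ.f (emb F E u) * emb F E v = 0 := by
    intro u v
    rw [← p_mul_emb E v, ← mul_assoc, a2, zero_mul]
  obtain ⟨i, hi⟩ : ∃ i : MPlus (m + 1) F →ₗ[F] σ.H, ∀ u,
      ((i u : σ.H) : A) = emb F E (unsym u) + σ.f (emb F E (unsym u)) :=
    ⟨{ toFun := fun u => ⟨emb F E (unsym u) + σ.f (emb F E (unsym u)), by
        rw [σ.mem_H, map_add, σ.invol, add_comm]⟩
       map_add' := by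
        intro u v
        apply Subtype.ext
        change emb F E (unsym u + unsym v) + σ.f (emb F E (unsym u + unsym v)) =
          (emb F E (unsym u) + σ.f (emb F E (unsym u))) +
            (emb F E (unsym v) + σ.f (emb F E (unsym v)))
        rw [map_add, map_add]
        abel
       map_smul' := by
        intro c u
        apply Subtype.ext
        change emb F E (c • unsym u) + σ.f (emb F E (c • unsym u)) =
          c • (emb F E (unsym u) + σ.f (emb F E (unsym u)))
        rw [map_smul, map_smul, smul_add] }, fun _ => rfl⟩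
  obtain ⟨P, hP⟩ : ∃ P : σ.H →ₗ[F] MPlus (m + 1) F, ∀ y k l,
      unsym (P y) k l = φ (E.e 0 k * (y : A) * E.e l 0) :=
    ⟨{ toFun := fun y => sym (Matrix.of fun k l => φ (E.e 0 k * (y : A) * E.e l 0))
       map_add' := by
        intro x y
        apply unsym_injective
        ext k l
        change φ (E.e 0 k * ((x : A) + y) * E.e l 0) = φ (E.e 0 k * (x : A) * E.e l 0) +
          φ (E.e 0 k * (y : A) * E.e l 0)
        rw [mul_add, add_mul, map_add]
       map_smul' := by
        intro c y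
        apply unsym_injective
        ext k l
        change φ (E.e 0 k * (c • (y : A)) * E.e l 0) = c • φ (E.e 0 k * (y : A) * E.e l 0)
        rw [mul_smul_comm, smul_mul_assoc, map_smul] }, fun _ _ _ => rfl⟩
  have b1 : ∀ (u : MPlus (m + 1) F) k, E.e 0 k * ((i u : σ.H) : A) =
      ∑ l, unsym u k l • E.e 0 l := by
    intro u k
    rw [hi, mul_add, e_mul_emb, ← E.right 0 k, mul_assoc _ p (σ.f _), a1, mul_zero, add_zero]
  have b2 : ∀ (u : MPlus (m + 1) F) l, ((i u : σ.H) : A) * E.e l 0 =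
      ∑ k, unsym u k l • E.e k 0 := by
    intro u l
    rw [hi, add_mul, emb_mul_e, ← E.left l 0, ← mul_assoc (σ.f _) p, a2, zero_mul, add_zero]
  refine transport i P ?_ ?_ ?_ ?_ hR hne
  · intro u
    apply unsym_injective
    ext k l
    rw [hP, b1, Finset.sum_mul, Finset.sum_eq_single l]
    · rw [smul_mul_assoc, E.mul_same, map_smul, hφ, smul_eq_mul, mul_one]
    · intro j _ hj
      rw [smul_mul_assoc, E.mul_ne _ _ _ _ hj, smul_zero]
    · intro h
      exact absurd (Finset.mem_univ _) h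
  · intro u v
    apply Subtype.ext
    rw [Involution.coe_mul, hi, hi, hi, unsym_mul_eq, map_smul, map_add, map_smul, map_add,
      emb_mul, emb_mul, σ.map_mul, σ.map_mul, ← smul_add]
    congr 1
    simp only [add_mul, mul_add, a3, a4]
    abel
  · intro u y
    apply unsym_injective
    ext k l
    rw [hP, unsym_mul_eq, Involution.coe_mul, Matrix.smul_apply, Matrix.add_apply,
      Matrix.mul_apply, Matrix.mul_apply, mul_smul_comm, smul_mul_assoc, map_smul]
    congr 1
    rw [mul_add, add_mul, map_add, ← mul_assoc, b1, ← mul_assoc, mul_assoc _ ((i u : σ.H) : A),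
      b2]
    simp only [Finset.sum_mul, Finset.mul_sum, smul_mul_assoc, mul_smul_comm, map_sum, map_smul,
      hP, smul_eq_mul]
    congr 1
    refine Finset.sum_congr rfl fun j _ => ?_
    exact _root_.mul_comm _ _
  · intro u y
    apply unsym_injective
    ext k l
    rw [hP, unsym_mul_eq, Involution.coe_mul, Matrix.smul_apply, Matrix.add_apply,
      Matrix.mul_apply, Matrix.mul_apply, mul_smul_comm, smul_mul_assoc, map_smul]
    congr 1
    rw [mul_add, add_mul, map_add, ← mul_assoc, mul_assoc _ ((i u : σ.H) : A), b2,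
      ← mul_assoc, b1]
    simp only [Finset.sum_mul, Finset.mul_sum, smul_mul_assoc, mul_smul_comm, map_sum, map_smul,
      hP, smul_eq_mul]
    congr 1
    refine Finset.sum_congr rfl fun j _ => ?_
    exact _root_.mul_comm _ _

end

section

variable {F A : Type*} [Field F] [CharZero F] [Ring A] [Algebra F A] [IsSimpleRing A]
  [IsArtinianRing A] {σ : Involution F A}

/-- An idempotent `p` generating a totally isotropic right ideal, with `p σ(p) = 0`. -/
theorem exists_iso_idem {I : Submodule Aᵐᵒᵖ A} (hI : σ.Iso I) :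
    ∃ p : A, I = rid p ∧ p * p = p ∧ p * σ.f p = 0 ∧ σ.f p * p = 0 := by
  obtain ⟨f, hf, hfx⟩ := exists_idem I
  have hff := hfx f hf
  have hgf : σ.f f * f = 0 := hI f hf f hf
  obtain ⟨g, hg⟩ : ∃ g, g = σ.f f := ⟨_, rfl⟩
  have hsg : σ.f g = f := by rw [hg, σ.invol]
  have hgg : g * g = g := by rw [hg, ← σ.map_mul, hff]
  rw [← hg] at hgf
  obtain ⟨p, hp⟩ : ∃ p, p = f - (2⁻¹ : F) • (f * g) := ⟨_, rfl⟩
  have hsp : σ.f p = g - (2⁻¹ : F) • (f * g) := by
    rw [hp, map_sub, map_smul, σ.map_mul, hsg, ← hg]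
  have hpf : p * f = f := by
    rw [hp, sub_mul, hff, smul_mul_assoc, mul_assoc, hgf, mul_zero, smul_zero, sub_zero]
  have hfp : f * p = p := by
    rw [hp, mul_sub, hff, mul_smul_comm, ← mul_assoc, hff]
  have hgp : g * p = 0 := by
    rw [← hfp, ← mul_assoc, hgf, zero_mul]
  have hpg : p * g = (2⁻¹ : F) • (f * g) := by
    rw [hp, sub_mul, smul_mul_assoc, mul_assoc, hgg]
    module
  refine ⟨p, ?_, ?_, ?_, ?_⟩
  · apply le_antisymm
    · intro x hx
      rw [mem_rid]
      exact ⟨x, by rw [← hfx x hx, ← mul_assoc, hpf]⟩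
    · intro x hx
      obtain ⟨z, rfl⟩ := mem_rid.1 hx
      rw [← hfp, mul_assoc]
      exact mul_mem hf _
  · have h5 : p * (f * p) = p := by rw [← mul_assoc, hpf, hfp]
    rwa [hfp] at h5
  · rw [hsp, mul_sub, hpg, mul_smul_comm, ← mul_assoc, hpf, sub_self]
  · rw [hsp, sub_mul, hgp, smul_mul_assoc, mul_assoc, hgp, mul_zero, smul_zero, sub_zero]

theorem lower_H {m : ℕ} {I : Submodule Aᵐᵒᵖ A} (hI : σ.Iso I)
    (hh : ((m + 1 : ℕ) : ℕ∞) ≤ Order.height I) :
    ∃ R : σ.H →ₗ[F] σ.H, IsRotaBaxter R ∧ R ^ (2 * m) ≠ 0 := by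
  obtain ⟨p, rfl, hpp, h1, h2⟩ := exists_iso_idem hI
  obtain ⟨E⟩ := exists_units hpp hh
  exact lower_units E h1 h2

end

end Pool.Agent.MP_f4742e_al
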