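import Pool.Agent.Lib.MP_f4742e_al.G.Setup

/-!
A Rota-Baxter operator with `R^2 ≠ 0` on `H(A, σ)`, from two orthogonal self-adjoint idempotents
and a self-adjoint square zero element orthogonal to both.
-/

set_option autoImplicit false

namespace Pool.Agent.MP_f4742e_al

section

variable {F A : Type*} [Field F] [CharZero F] [Ring A] [Algebra F A] (σ : Involution F A)

theorem exists_sq_ne_zero_H {p q e u : A} (hp : σ.f p = p) (hpp : p * p = p) (hq : σ.f q = q)
    (hqq : q * q = q) (hpq : p * q = 0) (he : σ.f e = e) (hee : e * e = 0) (hep : e * p = 0)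
    (heq : e * q = 0) (he0 : e ≠ 0) (hq0 : q ≠ 0) (hu : q * u * p ≠ 0) :
    ∃ R : σ.H →ₗ[F] σ.H, IsRotaBaxter R ∧ R ^ 2 ≠ 0 := by
  have hqp : q * p = 0 := by
    have h1 := congrArg σ.f hpq
    rwa [σ.map_mul, hp, hq, map_zero] at h1
  have hpe : p * e = 0 := by
    have h1 := congrArg σ.f hep
    rwa [σ.map_mul, hp, he, map_zero] at h1
  have hqe : q * e = 0 := by
    have h1 := congrArg σ.f heq
    rwa [σ.map_mul, hq, he, map_zero] at h1
  obtain ⟨f, hf⟩ : ∃ f, f = 1 - p := ⟨_, rfl⟩
  have hfs : σ.f f = f := by rw [hf, map_sub, σ.f_one, hp]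
  have hff : f * f = f := by
    have h1 : (1 - p) * (1 - p) = 1 - p - p + p * p := by noncomm_ring
    rw [hf, h1, hpp, sub_add_cancel]
  have hfe : f * e = e := by rw [hf, sub_mul, one_mul, hpe, sub_zero]
  have hef : e * f = e := by rw [hf, mul_sub, mul_one, hep, sub_zero]
  have hqf : q * f = q := by rw [hf, mul_sub, mul_one, hqp, sub_zero]
  have hfq : f * q = q := by rw [hf, sub_mul, one_mul, hpq, sub_zero]
  have hpf : p * f = 0 := by rw [hf, mul_sub, mul_one, hpp, sub_self]
  have hfp : f * p = 0 := by rw [hf, sub_mul, one_mul, hpp, sub_self]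
  -- the element of the half space
  obtain ⟨y, hy⟩ : ∃ y, y = q * u * p + p * σ.f u * q := ⟨_, rfl⟩
  have hys : σ.f y = y := by
    rw [hy, map_add, σ.map_mul, σ.map_mul, σ.map_mul, σ.map_mul, σ.invol, hp, hq, add_comm]
    noncomm_ring
  have hyq : q * y * p + p * y * q = y := by
    rw [hy]
    have e1 : q * (q * u * p + p * σ.f u * q) * p + p * (q * u * p + p * σ.f u * q) * q =
        (q * q) * u * (p * p) + (q * p) * σ.f u * (q * p) + (p * q) * u * (p * q) +
          (p * p) * σ.f u * (q * q) := by noncomm_ring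
    rw [e1, hpp, hqq, hpq, hqp]
    noncomm_ring
  have hy0 : y ≠ 0 := by
    intro h
    apply hu
    have h1 : q * y = q * q * u * p + (q * p) * σ.f u * q := by
      rw [hy]
      noncomm_ring
    rw [h, hqq, hqp, mul_zero, zero_mul, zero_mul, add_zero] at h1
    exact h1.symm
  have hex : ∀ z : A, z ≠ 0 → ∃ φ : A →ₗ[F] F, φ z ≠ 0 := by
    intro z hz
    by_contra hcon
    push Not at hcon
    exact hz ((Module.forall_dual_apply_eq_zero_iff F z).1 hcon)
  obtain ⟨φ, hφ⟩ := hex y hy0
  obtain ⟨ψ, hψ⟩ := hex q hq0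
  obtain ⟨P, hP⟩ : ∃ P : A →ₗ[F] F, ∀ x, P x = φ (q * x * p + p * x * q) :=
    ⟨{ toFun := fun x => φ (q * x * p + p * x * q)
       map_add' := by
        intro x z
        rw [← map_add]
        congr 1
        noncomm_ring
       map_smul' := by
        intro c x
        rw [mul_smul_comm, smul_mul_assoc, mul_smul_comm, smul_mul_assoc, ← smul_add, map_smul,
          RingHom.id_apply] }, fun _ => rfl⟩
  obtain ⟨Q, hQ⟩ : ∃ Q : A →ₗ[F] F, ∀ x, Q x = ψ (q * x * q) :=
    ⟨{ toFun := fun x => ψ (q * x * q)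
       map_add' := by
        intro x z
        rw [← map_add]
        congr 1
        noncomm_ring
       map_smul' := by
        intro c x
        rw [mul_smul_comm, smul_mul_assoc, map_smul, RingHom.id_apply] }, fun _ => rfl⟩
  obtain ⟨S, hS⟩ : ∃ S : σ.H →ₗ[F] σ.H, ∀ x, ((S x : σ.H) : A) =
      P (x : A) • f + Q (x : A) • e :=
    ⟨{ toFun := fun x => ⟨P (x : A) • f + Q (x : A) • e,
        σ.H.add_mem (σ.H.smul_mem _ hfs) (σ.H.smul_mem _ he)⟩
       map_add' := by
        intro x z
        apply Subtype.ext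
        change P ((x : A) + z) • f + Q ((x : A) + z) • e =
          (P (x : A) • f + Q (x : A) • e) + (P (z : A) • f + Q (z : A) • e)
        rw [map_add, map_add]
        module
       map_smul' := by
        intro c x
        apply Subtype.ext
        change P (c • (x : A)) • f + Q (c • (x : A)) • e = c • (P (x : A) • f + Q (x : A) • e)
        rw [map_smul, map_smul, smul_add, smul_smul, smul_smul, smul_eq_mul, smul_eq_mul] },
      fun _ => rfl⟩
  have hPf : ∀ x, P (f * x + x * f) = P x := by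
    intro x
    rw [hP, hP]
    congr 1
    have e1 : q * (f * x + x * f) * p + p * (f * x + x * f) * q =
        (q * f) * x * p + q * x * (f * p) + (p * f) * x * q + p * x * (f * q) := by noncomm_ring
    rw [e1, hqf, hfp, hpf, hfq]
    noncomm_ring
  have hQf : ∀ x, Q (f * x + x * f) = 2 * Q x := by
    intro x
    rw [hQ, hQ, two_mul, ← map_add]
    congr 1
    have e1 : q * (f * x + x * f) * q = (q * f) * x * q + q * x * (f * q) := by noncomm_ring
    rw [e1, hqf, hfq]
  have hPe : ∀ x, P (e * x + x * e) = 0 := by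
    intro x
    rw [hP]
    have e1 : q * (e * x + x * e) * p + p * (e * x + x * e) * q =
        (q * e) * x * p + q * x * (e * p) + (p * e) * x * q + p * x * (e * q) := by noncomm_ring
    rw [e1, hqe, hep, hpe, heq]
    simp
  have hQe : ∀ x, Q (e * x + x * e) = 0 := by
    intro x
    rw [hQ]
    have e1 : q * (e * x + x * e) * q = (q * e) * x * q + q * x * (e * q) := by noncomm_ring
    rw [e1, hqe, heq]
    simp
  refine ⟨S, ?_, ?_⟩
  · intro x z
    apply Subtype.ext
    rw [Involution.coe_mul, hS, hS, hS]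
    change _ = P ((2⁻¹ : F) • (((S x : σ.H) : A) * z + z * ((S x : σ.H) : A)) +
      (2⁻¹ : F) • ((x : A) * ((S z : σ.H) : A) + ((S z : σ.H) : A) * x)) • f +
      Q ((2⁻¹ : F) • (((S x : σ.H) : A) * z + z * ((S x : σ.H) : A)) +
      (2⁻¹ : F) • ((x : A) * ((S z : σ.H) : A) + ((S z : σ.H) : A) * x)) • e
    rw [hS, hS]
    obtain ⟨α, hα⟩ : ∃ α, α = P (x : A) := ⟨_, rfl⟩
    obtain ⟨β, hβ⟩ : ∃ β, β = P (z : A) := ⟨_, rfl⟩
    obtain ⟨γ, hγ⟩ : ∃ γ, γ = Q (x : A) := ⟨_, rfl⟩
    obtain ⟨δ, hδ⟩ : ∃ δ, δ = Q (z : A) := ⟨_, rfl⟩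
    rw [← hα, ← hβ, ← hγ, ← hδ]
    have e1 : (2⁻¹ : F) • ((α • f + γ • e) * (z : A) + (z : A) * (α • f + γ • e)) +
        (2⁻¹ : F) • ((x : A) * (β • f + δ • e) + (β • f + δ • e) * (x : A)) =
        (2⁻¹ : F) • (α • (f * (z : A) + (z : A) * f) + γ • (e * (z : A) + (z : A) * e) +
          β • (f * (x : A) + (x : A) * f) + δ • (e * (x : A) + (x : A) * e)) := by
      simp only [add_mul, mul_add, smul_mul_assoc, mul_smul_comm]
      module
    have e2 : (α • f + γ • e) * (β • f + δ • e) + (β • f + δ • e) * (α • f + γ • e) =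
        (2 * (α * β)) • f + (2 * (α * δ + γ * β)) • e := by
      simp only [add_mul, mul_add, smul_mul_smul_comm, hff, hfe, hef, hee, smul_zero]
      module
    rw [e1, e2]
    simp only [map_smul, map_add, hPf, hQf, hPe, hQe, ← hα, ← hβ, ← hγ, ← hδ, smul_eq_mul]
    rw [smul_add, smul_smul, smul_smul]
    congr 2
    · field_simp
      ring
    · field_simp
      ring
  · intro h
    have h1 : ((S (S ⟨y, hys⟩) : σ.H) : A) = 0 := by
      have h2 := LinearMap.congr_fun h (⟨y, hys⟩ : σ.H)
      rw [pow_two, Module.End.mul_apply, LinearMap.zero_apply] at h2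
      rw [h2]
      rfl
    have hPy : P y = φ y := by rw [hP, hyq]
    have hQy : Q y = 0 := by
      rw [hQ, hy]
      have e1 : q * (q * u * p + p * σ.f u * q) * q =
        q * q * u * (p * q) + (q * p) * σ.f u * q * q := by noncomm_ring
      rw [e1, hpq, hqp]
      simp
    have hPf0 : P f = 0 := by
      rw [hP, hqf, hqp, hpf, zero_mul, add_zero, map_zero]
    have hQf0 : Q f = ψ q := by
      rw [hQ, hqf, hqq]
    rw [hS, hS] at h1
    change P (P y • f + Q y • e) • f + Q (P y • f + Q y • e) • e = 0 at h1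
    rw [hPy, hQy, zero_smul, add_zero, map_smul, map_smul, hPf0, hQf0, smul_zero, zero_smul,
      zero_add, smul_eq_mul] at h1
    rcases smul_eq_zero.1 h1 with h2 | h2
    · rcases mul_eq_zero.1 h2 with h3 | h3
      · exact hφ h3
      · exact hψ h3
    · exact he0 h2

end

end Pool.Agent.MP_f4742e_al
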