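import Pool.Agent.Lib.MP_f4742e_al.G.Setup

/-!
A nonzero Rota-Baxter operator on `H(A, σ)` if there is a self-adjoint idempotent `p` with
`p A (1 - p) ≠ 0`.
-/

set_option autoImplicit false

namespace Pool.Agent.MP_f4742e_al

section

variable {F A : Type*} [Field F] [CharZero F] [Ring A] [Algebra F A] (σ : Involution F A)

theorem exists_ne_zero_H {p y : A} (hp : σ.f p = p) (hpp : p * p = p) (hp0 : p ≠ 0)
    (hy : σ.f y = y) (hyp : p * y + y * p = y) (hy0 : y ≠ 0) :
    ∃ R : σ.H →ₗ[F] σ.H, IsRotaBaxter R ∧ R ≠ 0 := by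
  obtain ⟨φ, hφ⟩ : ∃ φ : A →ₗ[F] F, φ y ≠ 0 := by
    by_contra hcon
    push Not at hcon
    exact hy0 ((Module.forall_dual_apply_eq_zero_iff F y).1 hcon)
  -- the Peirce projection to the half space
  obtain ⟨P, hP⟩ : ∃ P : A →ₗ[F] A, ∀ x, P x = p * x + x * p - (2 : F) • (p * x * p) :=
    ⟨{ toFun := fun x => p * x + x * p - (2 : F) • (p * x * p)
       map_add' := by
        intro x z
        rw [mul_add, add_mul, add_mul, smul_add]
        abel
       map_smul' := by
        intro c x
        rw [mul_smul_comm, smul_mul_assoc, smul_mul_assoc, smul_comm, RingHom.id_apply,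
          ← smul_add, ← smul_sub] }, fun _ => rfl⟩
  obtain ⟨S, hS⟩ : ∃ S : σ.H →ₗ[F] σ.H, ∀ x, ((S x : σ.H) : A) = φ (P (x : A)) • p :=
    ⟨{ toFun := fun x => ⟨φ (P (x : A)) • p, σ.H.smul_mem _ hp⟩
       map_add' := by
        intro x z
        apply Subtype.ext
        change φ (P ((x : A) + z)) • p = φ (P (x : A)) • p + φ (P (z : A)) • p
        rw [map_add, map_add, add_smul]
       map_smul' := by
        intro c x
        apply Subtype.ext
        change φ (P (c • (x : A))) • p = c • φ (P (x : A)) • p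
        rw [map_smul, map_smul, smul_eq_mul, mul_smul] }, fun _ => rfl⟩
  have hPp : P p = 0 := by
    rw [hP, hpp, hpp, two_smul, sub_self]
  have hPx : ∀ x, P (p * x + x * p) = P x := by
    intro x
    rw [hP, hP]
    have e1 : p * (p * x + x * p) = p * p * x + p * x * p := by noncomm_ring
    have e2 : (p * x + x * p) * p = p * x * p + x * (p * p) := by noncomm_ring
    have e3 : p * (p * x + x * p) * p = p * p * x * p + p * x * (p * p) := by noncomm_ring
    rw [e3, e1, e2, hpp, two_smul, two_smul]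
    abel
  have hPy : P y = y := by
    have e1 : p * y * p = 0 := by
      have e2 := congrArg (fun t => p * t) hyp
      simp only [mul_add, ← mul_assoc, hpp] at e2
      exact add_eq_left.1 e2
    rw [hP, e1, smul_zero, sub_zero, hyp]
  refine ⟨S, ?_, ?_⟩
  · intro x z
    apply Subtype.ext
    rw [Involution.coe_mul, hS, hS, hS]
    change _ = φ (P ((2⁻¹ : F) • (((S x : σ.H) : A) * z + z * ((S x : σ.H) : A)) +
      (2⁻¹ : F) • ((x : A) * ((S z : σ.H) : A) + ((S z : σ.H) : A) * x))) • p
    rw [hS, hS]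
    obtain ⟨α, hα⟩ : ∃ α, α = φ (P (x : A)) := ⟨_, rfl⟩
    obtain ⟨β, hβ⟩ : ∃ β, β = φ (P (z : A)) := ⟨_, rfl⟩
    rw [← hα, ← hβ]
    have e1 : (2⁻¹ : F) • (α • p * (z : A) + (z : A) * α • p) +
        (2⁻¹ : F) • ((x : A) * β • p + β • p * (x : A)) =
        (2⁻¹ : F) • (α • (p * (z : A) + (z : A) * p) + β • (p * (x : A) + (x : A) * p)) := by
      simp only [smul_mul_assoc, mul_smul_comm]
      rw [← smul_add, ← smul_add, ← smul_add, add_comm ((x : A) * p)]
    rw [e1, map_smul P, map_add P, map_smul P, map_smul P, hPx, hPx, map_smul, map_add, map_smul,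
      map_smul, ← hα, ← hβ]
    rw [smul_mul_smul_comm, smul_mul_smul_comm, hpp, ← add_smul, smul_smul]
    congr 1
  · intro h
    have h1 : ((S ⟨y, hy⟩ : σ.H) : A) = 0 := by
      rw [h]
      rfl
    rw [hS, hPy] at h1
    rcases smul_eq_zero.1 h1 with h2 | h2
    · exact hφ h2
    · exact hp0 h2

end

end Pool.Agent.MP_f4742e_al
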