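import Pool.Agent.Lib.MP_f4742e_al.G.Full

/-!
If the last nonzero power of `R 1` does not generate a minimal right ideal then there is a totally
isotropic right ideal of length at least the index of `R 1`.
-/

set_option autoImplicit false

namespace Pool.Agent.MP_f4742e_al

section

variable {F A : Type*} [Field F] [Ring A] [Algebra F A] (σ : Involution F A)

theorem iso_span {s : Set A} (hs : ∀ y ∈ s, ∀ z ∈ s, σ.f y * z = 0) :
    σ.Iso (Submodule.span Aᵐᵒᵖ s) := by
  intro y hy z hz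
  induction hy using Submodule.span_induction with
  | mem y hy =>
    induction hz using Submodule.span_induction with
    | mem z hz => exact hs y hy z hz
    | zero => exact mul_zero _
    | add z z' _ _ hz hz' => rw [mul_add, hz, hz', add_zero]
    | smul c z _ hz =>
      change _ * (z * MulOpposite.unop c) = 0
      rw [← mul_assoc, hz, zero_mul]
  | zero => rw [map_zero, zero_mul]
  | add y y' _ _ hy hy' => rw [map_add, add_mul, hy, hy', add_zero]
  | smul c y _ hy =>
    change σ.f (y * MulOpposite.unop c) * z = 0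
    rw [σ.map_mul, mul_assoc, hy, mul_zero]

/-- An isotropic right ideal containing `a^(k+1) A`, if `a^(2k+1) = 0`. -/
theorem exists_iso_of {a c : A} {k : ℕ} (hσ : σ.f a = a) (ha : a ^ (2 * k + 1) = 0)
    (hc : σ.f c * a ^ (2 * k) * c = 0) (hne : a ^ k * c ∉ rid (a ^ (k + 1))) {n : ℕ}
    (hn : (n : ℕ∞) ≤ Order.height (rid (a ^ (k + 1)))) :
    ∃ I : Submodule Aᵐᵒᵖ A, σ.Iso I ∧ ((n + 1 : ℕ) : ℕ∞) ≤ Order.height I := by
  have hlt : rid (a ^ (k + 1)) < Submodule.span Aᵐᵒᵖ {a ^ (k + 1), a ^ k * c} := by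
    rw [Submodule.span_insert]
    exact left_lt_sup.2 (fun h => hne (h (self_mem_rid _)))
  refine ⟨_, iso_span σ ?_, height_one hlt hn⟩
  intro y hy z hz
  have e1 : a ^ (k + 1) * a ^ (k + 1) = 0 := by
    rw [← pow_add]
    exact pow_eq_zero_of_le (by omega) ha
  have e2 : a ^ (k + 1) * a ^ k = 0 := by
    rw [← pow_add, ← ha]
    congr 1
    omega
  have e3 : a ^ k * a ^ (k + 1) = 0 := by
    rw [← pow_add, ← ha]
    congr 1
    omega
  have e4 : a ^ k * a ^ k = a ^ (2 * k) := by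
    rw [← pow_add]
    congr 1
    omega
  rcases hy with rfl | rfl <;> rcases hz with rfl | rfl
  · rw [σ.f_pow hσ, e1]
  · rw [σ.f_pow hσ, ← mul_assoc, e2, zero_mul]
  · rw [σ.map_mul, σ.f_pow hσ, mul_assoc, e3, mul_zero]
  · rw [σ.map_mul, σ.f_pow hσ, mul_assoc, ← mul_assoc (a ^ k), e4, ← mul_assoc, hc]

/-- A chain above `e A`. -/
theorem exists_iso_chain {a X : A} {m : ℕ} (hσ : σ.f a = a) (hm : 2 ≤ m) (ha : a ^ m = 0)
    (hXX : ∀ j, σ.f X * a ^ j * X = 0) (hXe : a ^ (m - 1) * X = 0) (hXb : a ^ (m - 2) * X ≠ 0)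
    {n : ℕ} (hn : (n : ℕ∞) ≤ Order.height (rid (a ^ (m - 1)))) :
    ∃ I : Submodule Aᵐᵒᵖ A, σ.Iso I ∧ ((m - 2 + n : ℕ) : ℕ∞) ≤ Order.height I := by
  obtain ⟨W, hW⟩ : ∃ W : ℕ → Submodule Aᵐᵒᵖ A, ∀ i, W i = Submodule.span Aᵐᵒᵖ
      {y | (∃ j, i ≤ j ∧ y = a ^ j * X) ∨ y = a ^ (m - 1)} := ⟨_, fun _ => rfl⟩
  have heX : ∀ j, a ^ (m - 1) * (a ^ j * X) = 0 := by
    intro j
    rw [← mul_assoc, ← pow_add, add_comm, pow_add, mul_assoc, hXe, mul_zero]
  have hea : ∀ j, 1 ≤ j → a ^ j * a ^ (m - 1) = 0 := by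
    intro j hj
    rw [← pow_add]
    exact pow_eq_zero_of_le (by omega) ha
  have hkill : ∀ i, i + 1 ≤ m - 2 → ∀ y ∈ W (i + 1), a ^ (m - 2 - i) * y = 0 := by
    intro i hi y hy
    rw [hW] at hy
    induction hy using Submodule.span_induction with
    | mem y hy =>
      rcases hy with ⟨j, hj, rfl⟩ | rfl
      · have h1 : m - 2 - i + j = (m - 2 - i + j - (m - 1)) + (m - 1) := by omega
        rw [← mul_assoc, ← pow_add, h1, pow_add, mul_assoc, hXe, mul_zero]
      · exact hea _ (by omega)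
    | zero => exact mul_zero _
    | add y z _ _ hy hz => rw [mul_add, hy, hz, add_zero]
    | smul c y _ hy =>
      change a ^ (m - 2 - i) * (y * MulOpposite.unop c) = 0
      rw [← mul_assoc, hy, zero_mul]
  have hlt : ∀ i, i + 1 ≤ m - 2 → W (i + 1) < W i := by
    intro i hi
    refine lt_of_le_of_ne ?_ ?_
    · rw [hW, hW]
      apply Submodule.span_mono
      rintro y (⟨j, hj, rfl⟩ | rfl)
      · exact Or.inl ⟨j, by omega, rfl⟩
      · exact Or.inr rfl
    · intro h1
      apply hXb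
      have h2 : a ^ i * X ∈ W (i + 1) := by
        rw [h1, hW]
        exact Submodule.subset_span (Or.inl ⟨i, le_refl i, rfl⟩)
      have h3 := hkill i hi _ h2
      rw [← mul_assoc, ← pow_add] at h3
      have h4 : m - 2 - i + i = m - 2 := by omega
      rw [h4] at h3
      exact h3
  have hh : ∀ d, d ≤ m - 2 → ((d + n : ℕ) : ℕ∞) ≤ Order.height (W (m - 2 - d)) := by
    intro d
    induction d with
    | zero =>
      intro _
      rw [zero_add, Nat.sub_zero]
      refine hn.trans (Order.height_mono ?_)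
      rw [hW]
      unfold rid
      apply Submodule.span_mono
      intro y hy
      exact Or.inr hy
    | succ d ih =>
      intro hd
      have h1 := ih (by omega)
      have h2 := hlt (m - 2 - (d + 1)) (by omega)
      have h3 : m - 2 - (d + 1) + 1 = m - 2 - d := by omega
      rw [h3] at h2
      have h4 : d + 1 + n = d + n + 1 := by omega
      rw [h4]
      exact height_one h2 h1
  refine ⟨W 0, ?_, ?_⟩
  · rw [hW]
    apply iso_span
    have hXe' : ∀ j, σ.f (a ^ j * X) * a ^ (m - 1) = 0 := by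
      intro j
      have h1 := congrArg σ.f (heX j)
      rw [σ.map_mul, map_zero, σ.f_pow hσ] at h1
      exact h1
    rintro y (⟨i, _, rfl⟩ | rfl) z (⟨j, _, rfl⟩ | rfl)
    · rw [σ.map_mul, σ.f_pow hσ, mul_assoc, ← mul_assoc (a ^ i), ← pow_add, ← mul_assoc, hXX]
    · exact hXe' i
    · rw [σ.f_pow hσ, heX]
    · rw [σ.f_pow hσ, hea _ (by omega)]
  · have h1 := hh (m - 2) (le_refl _)
    rwa [Nat.sub_self] at h1

end

section

variable {F A : Type*} [Field F] [CharZero F] [Ring A] [Algebra F A] [FiniteDimensional F A]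
  [IsSemisimpleRing A] (σ : Involution F A) {R : A →ₗ[F] A}

/-- If `e A` is not minimal then there is an isotropic right ideal of length `m`. -/
theorem exists_iso_nonmin (h : JRB R) (hσ : ∀ x, σ.f (R x) = R x) {m : ℕ} (hm : 2 ≤ m)
    (ha : (R 1) ^ m = 0) (he : (R 1) ^ (m - 1) ≠ 0) {N : Submodule Aᵐᵒᵖ A} (h0 : ⊥ < N)
    (hN : N < rid ((R 1) ^ (m - 1))) :
    ∃ I : Submodule Aᵐᵒᵖ A, σ.Iso I ∧ (m : ℕ∞) ≤ Order.height I := by
  rcases Nat.even_or_odd m with ⟨k, hk⟩ | ⟨k, hk⟩
  · have h2 := height_of_between ha h0 hN k (by omega)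
    have h3 : m - k = k := by omega
    rw [h3] at h2
    refine ⟨_, iso_rid_pow σ (hσ 1) ha (by omega : m ≤ 2 * k), le_trans ?_ h2⟩
    exact_mod_cast (by omega : m ≤ 2 * k)
  · by_contra hcon
    push Not at hcon
    have hk1 : 1 ≤ k := by omega
    have h2 := height_of_between ha h0 hN k (by omega)
    have h3 : m - k = k + 1 := by omega
    rw [h3] at h2
    have ha' : (R 1) ^ (2 * k + 1) = 0 := by rw [← hk]; exact ha
    have hm1 : m - 1 = 2 * k := by omega
    have h4 : ∀ c : A, σ.f c * (R 1) ^ (m - 1) * c = 0 →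
        (R 1) ^ k * c ∈ rid ((R 1) ^ (k + 1)) := by
      intro c hc
      by_contra hne
      rw [hm1] at hc
      obtain ⟨I, hI1, hI2⟩ := exists_iso_of σ (hσ 1) ha' hc hne h2
      have h5 := hcon I hI1
      rw [← hk] at hI2
      exact absurd hI2 (not_le.2 h5)
    -- anisotropy
    have hanis : ∀ t : A, σ.f t * (R 1) ^ (m - 1) * t = 0 → (R 1) ^ (m - 1) * t = 0 := by
      intro t ht
      obtain ⟨z, hz⟩ := mem_rid.1 (h4 t ht)
      have h5 : (R 1) ^ (m - 1) * t = (R 1) ^ k * ((R 1) ^ k * t) := by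
        rw [← mul_assoc, ← pow_add]
        congr 2
        omega
      rw [h5, hz, ← mul_assoc, ← pow_add]
      have h6 : k + (k + 1) = 2 * k + 1 := by omega
      rw [h6, ha', zero_mul]
    obtain ⟨y, hy, H1⟩ := exists_full σ h hσ hanis
    have hes : σ.f ((R 1) ^ (m - 1)) = (R 1) ^ (m - 1) := σ.f_pow (hσ 1) _
    have hbs : σ.f ((R 1) ^ (m - 2)) = (R 1) ^ (m - 2) := σ.f_pow (hσ 1) _
    obtain ⟨f', hf'⟩ : ∃ f', f' = (R 1) ^ (m - 1) - (R 1) ^ (m - 1) * R y * (R 1) ^ (m - 1) :=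
      ⟨_, rfl⟩
    have hfs : σ.f f' = f' := by
      rw [hf', map_sub, σ.map_mul, σ.map_mul, hes, hσ, mul_assoc]
    rw [← hf'] at H1
    have H1' : ∀ x, f' * R x * (R 1) ^ (m - 1) = 0 := by
      intro x
      have h5 := congrArg σ.f (H1 x)
      rw [σ.map_mul, σ.map_mul, hes, hσ, hfs, map_zero, ← mul_assoc] at h5
      exact h5
    have hfe : ∃ v, f' = (R 1) ^ (m - 1) * v := ⟨1 - R y * (R 1) ^ (m - 1), by
      rw [hf', mul_sub, mul_one, mul_assoc]⟩
    -- no further block
    obtain ⟨g, hg⟩ := exists_reg ((R 1) ^ (m - 1))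
    have hab : (R 1) ^ (m - 2) * R 1 = (R 1) ^ (m - 1) := by
      rw [← pow_succ]
      congr 1
      omega
    have hba : R 1 * (R 1) ^ (m - 2) = (R 1) ^ (m - 1) := by
      rw [← pow_succ']
      congr 1
      omega
    have hea : (R 1) ^ (m - 1) * R 1 = 0 := by
      rw [← pow_succ, ← ha]
      congr 1
      omega
    have hβ : (1 - (R 1) ^ (m - 1) * g) * (R 1) ^ (m - 2) * (1 - g * (R 1) ^ (m - 1)) = 0 := by
      by_contra hβ
      obtain ⟨c, hc⟩ : ∃ c, c = (1 - R 1 * g * (R 1) ^ (m - 2)) * (1 - g * (R 1) ^ (m - 1)) :=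
        ⟨_, rfl⟩
      have hbc : (R 1) ^ (m - 2) * c =
          (1 - (R 1) ^ (m - 1) * g) * (R 1) ^ (m - 2) * (1 - g * (R 1) ^ (m - 1)) := by
        rw [hc]
        have e1 : (R 1) ^ (m - 2) *
            ((1 - R 1 * g * (R 1) ^ (m - 2)) * (1 - g * (R 1) ^ (m - 1))) =
            ((R 1) ^ (m - 2) - (R 1) ^ (m - 2) * R 1 * g * (R 1) ^ (m - 2)) *
              (1 - g * (R 1) ^ (m - 1)) := by noncomm_ring
        rw [e1, hab]
        noncomm_ring
      have hec : (R 1) ^ (m - 1) * c = 0 := by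
        rw [hc]
        have e1 : (R 1) ^ (m - 1) *
            ((1 - R 1 * g * (R 1) ^ (m - 2)) * (1 - g * (R 1) ^ (m - 1))) =
            ((R 1) ^ (m - 1) - (R 1) ^ (m - 1) * R 1 * g * (R 1) ^ (m - 2)) *
              (1 - g * (R 1) ^ (m - 1)) := by noncomm_ring
        rw [e1, hea, zero_mul, zero_mul, sub_zero, mul_sub, mul_one, ← mul_assoc, hg, sub_self]
      obtain ⟨z, hz⟩ := mem_rid.1 (h4 c (by rw [mul_assoc, hec, mul_zero]))
      apply hβ
      have h5 : (R 1) ^ (m - 2) * c = (R 1) ^ (m - 1) * z := by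
        have e1 : (R 1) ^ (m - 2) = (R 1) ^ (m - 2 - k) * (R 1) ^ k := by
          rw [← pow_add]
          congr 1
          omega
        have e2 : (R 1) ^ (m - 1) = (R 1) ^ (m - 2 - k) * (R 1) ^ (k + 1) := by
          rw [← pow_add]
          congr 1
          omega
        rw [e1, e2, mul_assoc, hz, mul_assoc]
      have h6 : (1 - (R 1) ^ (m - 1) * g) * (R 1) ^ (m - 1) = 0 := by
        rw [sub_mul, one_mul, hg, sub_self]
      have h7 : (1 - (R 1) ^ (m - 1) * g) * (1 - (R 1) ^ (m - 1) * g) =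
          1 - (R 1) ^ (m - 1) * g := by
        have e1 : (1 - (R 1) ^ (m - 1) * g) * (1 - (R 1) ^ (m - 1) * g) =
          1 - (R 1) ^ (m - 1) * g - (R 1) ^ (m - 1) * g +
            (R 1) ^ (m - 1) * g * (R 1) ^ (m - 1) * g := by noncomm_ring
        rw [e1, hg, sub_add_cancel]
      rw [← h7, mul_assoc, mul_assoc, ← mul_assoc (1 - (R 1) ^ (m - 1) * g) ((R 1) ^ (m - 2)),
        ← hbc, h5, ← mul_assoc, h6, zero_mul]
    -- the images of `R` on `f'`
    have H2 : ∀ x, (R 1) ^ (m - 2) * R x * f' = 0 := by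
      intro x
      by_contra hne
      have hX : ∀ j, σ.f (R x * f') * (R 1) ^ j * (R x * f') = 0 := by
        intro j
        rw [σ.map_mul, hfs, hσ]
        have e1 : f' * R x * (R 1) ^ j * (R x * f') = f' * (R x * (R 1) ^ j * R x) * f' := by
          noncomm_ring
        obtain ⟨v, hv⟩ := hfe
        have h9 : ∀ w, f' * R w * f' = 0 := by
          intro w
          have h10 : f' * R w * ((R 1) ^ (m - 1) * v) = 0 := by
            rw [← mul_assoc, H1', zero_mul]
          rw [← hv] at h10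
          exact h10
        rw [e1, closure_sq h j x, h9]
      have hn : ((2 : ℕ) : ℕ∞) ≤ Order.height (rid ((R 1) ^ (m - 1))) :=
        height_two h0 hN (n := 0) (by simp)
      obtain ⟨I, hI1, hI2⟩ := exists_iso_chain σ (hσ 1) hm ha hX
        (by rw [← mul_assoc]; exact H1 x) (by rw [← mul_assoc]; exact hne) hn
      have h5 := hcon I hI1
      have h6 : m - 2 + 2 = m := by omega
      rw [h6] at hI2
      exact absurd hI2 (not_le.2 h5)
    have H2' : ∀ x, f' * R x * (R 1) ^ (m - 2) = 0 := by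
      intro x
      have h5 := congrArg σ.f (H2 x)
      rw [σ.map_mul, σ.map_mul, hbs, hσ, hfs, map_zero, ← mul_assoc] at h5
      exact h5
    rw [hf'] at H1 H1' H2 H2'
    exact core h hm ha he hg hβ hy H1 H1' H2 H2'

end

end Pool.Agent.MP_f4742e_al
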