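import Pool.Agent.Lib.MP_f4742e_al.G.Low
import Pool.Agent.Lib.MP_f4742e_al.G.LowTwo
import Pool.Agent.Lib.MP_f4742e_al.G.LowThree
import Pool.Agent.Lib.MP_f4742e_al.G.LemB
import Pool.Agent.Lib.MP_f4742e_al.G.NonMin
import Pool.Agent.Lib.MP_f4742e_al.Anis

/-!
Bounds for the RB-index of `H(A, σ)` by the Witt index.
-/

set_option autoImplicit false

namespace Pool.Agent.MP_f4742e_al

open Polynomial

section

variable {F A : Type*} [Field F] [Ring A] [Algebra F A]

/-- Every finite-dimensional algebra with involution has a Witt index. -/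
theorem exists_wittIndex [FiniteDimensional F A] (σ : Involution F A) :
    ∃ w, σ.IsWittIndex w := by
  classical
  have hbd : ∀ l : ℕ, (∃ I : Fin (l + 1) → Submodule Aᵐᵒᵖ A, StrictMono I ∧
      σ.Iso (I (Fin.last l))) → l ≤ Module.finrank F A := by
    rintro l ⟨I, hI, -⟩
    let J : Fin (l + 1) → Submodule F A := fun i =>
      { carrier := I i
        add_mem' := fun hx hy => (I i).add_mem hx hy
        zero_mem' := (I i).zero_mem
        smul_mem' := by
          intro c x hx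
          have h1 : c • x = x * algebraMap F A c := by rw [Algebra.smul_def, Algebra.commutes]
          rw [h1]
          exact mul_mem hx _ }
    have hJ : StrictMono J := by
      intro i j hij
      obtain ⟨h1, h2⟩ := hI hij
      exact ⟨h1, h2⟩
    have hfin : StrictMono fun i => Module.finrank F (J i) := fun i j hij =>
      Submodule.finrank_lt_finrank_of_lt (hJ hij)
    have h1 : ∀ i : Fin (l + 1), (i : ℕ) ≤ Module.finrank F (J i) := by
      intro i
      induction i using Fin.induction with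
      | zero => exact Nat.zero_le _
      | succ i ih =>
        have h2 := hfin (Fin.castSucc_lt_succ (i := i))
        have h3 : ((Fin.castSucc i : Fin (l + 1)) : ℕ) = i := rfl
        simp only at h2
        rw [Fin.val_succ]
        omega
    exact (h1 (Fin.last l)).trans (Submodule.finrank_le _)
  have hne : ∃ l : ℕ, ∃ I : Fin (l + 1) → Submodule Aᵐᵒᵖ A, StrictMono I ∧
      σ.Iso (I (Fin.last l)) := by
    refine ⟨0, fun _ => ⊥, ?_, ?_⟩
    · intro i j hij
      exact absurd hij (by omega)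
    · intro x hx y _
      rw [(Submodule.mem_bot _).1 hx, map_zero, zero_mul]
  obtain ⟨l0, hl0⟩ := hne
  exact ⟨_, Nat.findGreatest_spec (P := fun l => ∃ I : Fin (l + 1) → Submodule Aᵐᵒᵖ A,
    StrictMono I ∧ σ.Iso (I (Fin.last l))) (hbd l0 hl0) hl0,
    fun l hl => Nat.le_findGreatest (hbd l hl) hl⟩

end

section

variable {F A : Type*} [Field F] [CharZero F] [Ring A] [Nontrivial A] [Algebra F A]
  [FiniteDimensional F A] [IsSemisimpleRing A] {σ : Involution F A}

theorem upper_ext_one {w : ℕ} (hw : σ.IsWittIndex w) (hw1 : 1 ≤ w) {R : A →ₗ[F] A} (h : JRB R)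
    (hσ : ∀ x, σ.f (R x) = R x) : R ^ (2 * w + 1) = 0 := by
  obtain ⟨m, hm, hm0, hm1⟩ := exists_index h.nilpotent_one one_ne_zero
  rcases Nat.lt_or_ge w m with hlt | hge
  swap
  · exact pow_zero_of_le h hm0 (by omega)
  · have hm2 : 2 ≤ m := by omega
    have hmw : m - 1 ≤ w := by
      obtain ⟨I, hI, hh⟩ := exists_iso σ h hσ hm2 hm0 hm1
      obtain ⟨J, hJ, hJl⟩ := exists_chain hh
      exact hw.2 ⟨J, hJ, by rw [hJl]; exact hI⟩
    by_cases hmin : ∀ z : A, (R 1) ^ (m - 1) * z ≠ 0 →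
      ∃ w, (R 1) ^ (m - 1) * z * w = (R 1) ^ (m - 1)
    · obtain ⟨g, hg⟩ := exists_reg ((R 1) ^ (m - 1))
      exact pow_eq_zero_of_le (by omega) (last_min σ h hσ hm2 hm0 hm1 hmin hg)
    · exfalso
      push Not at hmin
      obtain ⟨z, hz, hw'⟩ := hmin
      have h1 : rid ((R 1) ^ (m - 1) * z) < rid ((R 1) ^ (m - 1)) := by
        refine lt_of_le_of_ne ?_ ?_
        · intro y hy
          obtain ⟨w, rfl⟩ := mem_rid.1 hy
          rw [mul_assoc]
          exact mul_mem_rid _ _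
        · intro h2
          have h3 := self_mem_rid ((R 1) ^ (m - 1))
          rw [← h2] at h3
          obtain ⟨w, h4⟩ := mem_rid.1 h3
          exact hw' w h4.symm
      obtain ⟨I, hI, hh⟩ := exists_iso_nonmin σ h hσ hm2 hm0 hm1 (bot_lt_rid hz) h1
      obtain ⟨J, hJ, hJl⟩ := exists_chain hh
      have h5 : m ≤ w := hw.2 ⟨J, hJ, by rw [hJl]; exact hI⟩
      omega

/-- The upper bound `2 w + 1` if `w ≥ 1`. -/
theorem upper_H_one {w : ℕ} (hw : σ.IsWittIndex w) (hw1 : 1 ≤ w) {R : σ.H →ₗ[F] σ.H}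
    (hR : IsRotaBaxter R) : R ^ (2 * w + 1) = 0 :=
  σ.pow_eq_zero_of_ext (upper_ext_one hw hw1 (σ.ext_jrb hR) (σ.ext_sym R))

end

section

variable {F A : Type*} [Field F] [CharZero F] [Ring A] [Nontrivial A] [Algebra F A]
  [FiniteDimensional F A] {σ : Involution F A}

omit [CharZero F] [FiniteDimensional F A] in
theorem nonil_of_witt_zero (hw : σ.IsWittIndex 0) {q : A} (hq : σ.f q = q)
    (hnil : IsNilpotent q) : q = 0 := by
  obtain ⟨m, hm, hm0, hm1⟩ := exists_index hnil one_ne_zero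
  by_cases hm2 : m < 2
  · have : m = 1 := by omega
    rw [this, pow_one] at hm0
    exact hm0
  · exfalso
    have h1 : σ.Iso (rid (q ^ (m - 1))) := iso_rid_pow σ hq hm0 (by omega)
    have h2 : (1 : ℕ∞) ≤ Order.height (rid (q ^ (m - 1))) := by
      have := height_one (bot_lt_rid hm1) (n := 0) (by simp)
      simpa using this
    obtain ⟨J, hJ, hJl⟩ := exists_chain (n := 1) (by exact_mod_cast h2)
    have h3 : 1 ≤ 0 := hw.2 ⟨J, hJ, by rw [hJl]; exact h1⟩
    omega

theorem zero_of_division (hw : σ.IsWittIndex 0)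
    (hid : ∀ p : A, σ.f p = p → p * p = p → p = 0 ∨ p = 1) {R : σ.H →ₗ[F] σ.H}
    (hR : IsRotaBaxter R) : R = 0 := by
  obtain ⟨S, hS⟩ : ∃ S, S = σ.ext R := ⟨_, rfl⟩
  have hJ : JRB S := by
    rw [hS]
    exact σ.ext_jrb hR
  have hsym : ∀ x, σ.f (S x) = S x := by
    intro x
    rw [hS]
    exact σ.ext_sym R x
  have h0 : S ^ 1 = 0 := by
    apply LinearMap.ext
    intro x
    rw [LinearMap.zero_apply]
    by_contra hne
    obtain ⟨q, hq⟩ : ∃ q, q = (S ^ 1) x := ⟨_, rfl⟩
    rw [← hq] at hne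
    have hqs : σ.f q = q := by
      rw [hq, pow_one, hsym]
    obtain ⟨P, hP1, hP2⟩ := exists_idem_ne (F := F) q (Algebra.IsIntegral.isIntegral q)
      (fun h => hne (nonil_of_witt_zero hw hqs h))
    obtain ⟨z, hz⟩ := aeval_mem_range hJ 1 hq P
    have hps : σ.f (aeval q (X * P)) = aeval q (X * P) := by
      rw [hz, pow_one, hsym]
    have h1 := (hid _ hps hP1).resolve_left hP2
    have h2 := not_range hJ 0 (by rw [pow_zero]; exact one_ne_zero) z
    apply h2
    rw [pow_zero, mul_zero, zero_add, ← hz, h1]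
  have h1 : R ^ 1 = 0 := σ.pow_eq_zero_of_ext (by rw [← hS]; exact h0)
  rw [pow_one] at h1
  exact h1

end

section

variable {F A : Type*} [Field F] [CharZero F] [Ring A] [Algebra F A]
  [FiniteDimensional F A] [IsSimpleRing A] {σ : Involution F A}

theorem prime_of_simple {a b : A} (ha : a ≠ 0) (hb : b ≠ 0) : ∃ x, a * x * b ≠ 0 := by
  by_contra hcon
  push Not at hcon
  -- the set of all `c` with `a x c = 0` for all `x` is a two-sided ideal
  let I : TwoSidedIdeal A := TwoSidedIdeal.mk' {c | ∀ x, a * x * c = 0}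
    (fun x => mul_zero _)
    (fun {c d} hc hd x => by rw [mul_add, hc, hd, add_zero])
    (fun {c} hc x => by rw [mul_neg, hc, neg_zero])
    (fun {c d} hd x => by rw [← mul_assoc, mul_assoc a x c]; exact hd _)
    (fun {c d} hc x => by rw [← mul_assoc, hc, zero_mul])
  have hbI : b ∈ I := by
    rw [TwoSidedIdeal.mem_mk']
    exact hcon
  have h1 := IsSimpleRing.one_mem_of_ne_zero_mem I hb hbI
  rw [TwoSidedIdeal.mem_mk'] at h1
  apply ha
  have h2 := h1 1
  rwa [mul_one, mul_one] at h2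

/-- Bounds for the RB-index by the Witt index. -/
theorem general_bounds {w : ℕ} (hw : σ.IsWittIndex w) :
    ∃ r, HasRBIndex F σ.H r ∧ 2 * w - 1 ≤ r ∧ r ≤ max 2 (2 * w + 1) ∧
      ((∃ p, σ.f p = p ∧ p * p = p ∧ p ≠ 0 ∧ p ≠ 1) → 2 ≤ r) ∧
      ((∃ p q e : A, σ.f p = p ∧ σ.f q = q ∧ σ.f e = e ∧ p ≠ 0 ∧ q ≠ 0 ∧ e ≠ 0 ∧
        p * p = p ∧ q * q = q ∧ e * e = 0 ∧ p * q = 0 ∧ e * p = 0 ∧ e * q = 0) → 3 ≤ r) ∧
      (w = 0 → (∀ p : A, σ.f p = p → p * p = p → p = 0 ∨ p = 1) → r = 1) := by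
  classical
  have hart : IsArtinianRing A := IsArtinianRing.of_finite F A
  have hup : ∃ n : ℕ, ∀ R : σ.H →ₗ[F] σ.H, IsRotaBaxter R → R ^ n = 0 :=
    ⟨2 * w + 2, fun R hR => upper_H hw hR⟩
  obtain ⟨r, hr⟩ : ∃ r, r = Nat.find hup := ⟨_, rfl⟩
  have hr1 : ∀ R : σ.H →ₗ[F] σ.H, IsRotaBaxter R → R ^ r = 0 := by
    rw [hr]
    exact Nat.find_spec hup
  have hr2 : ∀ n, (∀ R : σ.H →ₗ[F] σ.H, IsRotaBaxter R → R ^ n = 0) → r ≤ n := by
    intro n hn
    rw [hr]
    exact Nat.find_min' hup hn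
  have hr0 : 1 ≤ r := by
    by_contra hcon
    have h0 : r = 0 := by omega
    have h1 := hr1 0 (by intro x y; simp)
    rw [h0, pow_zero] at h1
    have h2 : ((⟨1, σ.f_one⟩ : σ.H) : A) = 0 := by
      have h3 := LinearMap.congr_fun h1 (⟨1, σ.f_one⟩ : σ.H)
      rw [Module.End.one_apply, LinearMap.zero_apply] at h3
      rw [h3]
      rfl
    exact one_ne_zero h2
  refine ⟨r, ⟨hr1, hr2⟩, ?_, ?_, ?_, ?_, ?_⟩
  · rcases Nat.eq_zero_or_pos w with hw0 | hw0
    · omega
    · obtain ⟨m, rfl⟩ : ∃ m, w = m + 1 := ⟨w - 1, by omega⟩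
      obtain ⟨I, hI, hIso⟩ := hw.1
      have hh : ((m + 1 : ℕ) : ℕ∞) ≤ Order.height (I (Fin.last (m + 1))) := by
        have h1 := Order.length_le_height_last (p := LTSeries.mk (m + 1) I hI)
        exact h1
      obtain ⟨R, hR, hne⟩ := lower_H hIso hh
      by_contra hcon
      exact hne (pow_eq_zero_of_le (by omega) (hr1 R hR))
  · rcases Nat.eq_zero_or_pos w with hw0 | hw0
    · have h1 := hr2 _ fun R hR => upper_H hw hR
      rw [hw0] at h1
      exact le_trans h1 (le_max_left _ _)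
    · exact le_trans (hr2 _ fun R hR => upper_H_one hw hw0 hR) (le_max_right _ _)
  · rintro ⟨p, hp, hpp, hp0, hp1⟩
    obtain ⟨x, hx⟩ := prime_of_simple hp0 (b := 1 - p) (by
      intro h
      exact hp1 (sub_eq_zero.1 h).symm)
    obtain ⟨u, hu⟩ : ∃ u, u = p * x * (1 - p) := ⟨_, rfl⟩
    rw [← hu] at hx
    have hpu : p * u = u := by rw [hu, ← mul_assoc, ← mul_assoc, hpp]
    have hup' : u * p = 0 := by
      rw [hu, mul_assoc, sub_mul, one_mul, hpp, sub_self, mul_zero]
    have hpsu : p * σ.f u = 0 := by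
      have h1 := congrArg σ.f hup'
      rwa [σ.map_mul, hp, map_zero] at h1
    have hsup : σ.f u * p = σ.f u := by
      have h1 := congrArg σ.f hpu
      rwa [σ.map_mul, hp] at h1
    obtain ⟨R, hR, hne⟩ := exists_ne_zero_H σ (p := p) (y := u + σ.f u) hp hpp hp0
      (by rw [map_add, σ.invol, add_comm])
      (by rw [mul_add, add_mul, hpu, hup', hpsu, hsup, add_zero, zero_add])
      (by
        intro h
        apply hx
        have h1 := congrArg (fun t => p * t) h
        simp only [mul_add, hpu, hpsu, add_zero, mul_zero] at h1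
        exact h1)
    by_contra hcon
    apply hne
    have h1 : R ^ 1 = 0 := pow_eq_zero_of_le (by omega) (hr1 R hR)
    rwa [pow_one] at h1
  · rintro ⟨p, q, e, hp, hq, he, hp0, hq0, he0, hpp, hqq, hee, hpq, hep, heq⟩
    obtain ⟨x, hx⟩ := prime_of_simple hq0 hp0
    obtain ⟨R, hR, hne⟩ := exists_sq_ne_zero_H σ hp hpp hq hqq hpq he hee hep heq he0 hq0 hx
    by_contra hcon
    exact hne (pow_eq_zero_of_le (by omega) (hr1 R hR))
  · intro hw0 hid
    subst hw0
    have h1 : r ≤ 1 := hr2 1 fun R hR => by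
      rw [pow_one]
      exact zero_of_division hw hid hR
    omega

end

end Pool.Agent.MP_f4742e_al
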