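import Pool.Agent.Lib.MP_f4742e_al.G.WOneMain

/-!
The bounds for the RB-index of `H(A, σ)` with the exact value if the Witt index is one.
-/

set_option autoImplicit false

namespace Pool.Agent.MP_f4742e_al

section

variable {F A : Type*} [Field F] [CharZero F] [Ring A] [Algebra F A]
  [FiniteDimensional F A] [IsSimpleRing A] {σ : Involution F A}

theorem general_bounds_two {w : ℕ} (hw : σ.IsWittIndex w) :
    ∃ r, HasRBIndex F σ.H r ∧ 2 * w - 1 ≤ r ∧ r ≤ max 2 (2 * w + 1) ∧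
      ((∃ p, σ.f p = p ∧ p * p = p ∧ p ≠ 0 ∧ p ≠ 1) → 2 ≤ r) ∧
      ((∃ p q e : A, σ.f p = p ∧ σ.f q = q ∧ σ.f e = e ∧ p ≠ 0 ∧ q ≠ 0 ∧ e ≠ 0 ∧
        p * p = p ∧ q * q = q ∧ e * e = 0 ∧ p * q = 0 ∧ e * p = 0 ∧ e * q = 0) → 3 ≤ r) ∧
      (w = 0 → (∀ p : A, σ.f p = p → p * p = p → p = 0 ∨ p = 1) → r = 1) ∧
      (w = 1 → (¬ ∃ p q e : A, σ.f p = p ∧ σ.f q = q ∧ σ.f e = e ∧ p ≠ 0 ∧ q ≠ 0 ∧ e ≠ 0 ∧
        p * p = p ∧ q * q = q ∧ e * e = 0 ∧ p * q = 0 ∧ e * p = 0 ∧ e * q = 0) →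
        ((¬ ∃ p e : A, σ.f p = p ∧ σ.f e = e ∧ p ≠ 0 ∧ e ≠ 0 ∧ p * p = p ∧ e * e = 0 ∧
          e * p = 0) ∨
          ∀ x e : A, σ.f x = x → σ.f e = e → e * e = 0 → ∃ c : F, e * x * e = c • e) →
        r ≤ 2) := by
  obtain ⟨r, hr, h1, h2, h3, h4, h5⟩ := general_bounds hw
  refine ⟨r, hr, h1, h2, h3, h4, h5, ?_⟩
  rintro rfl hno hor
  have hart : IsArtinianRing A := IsArtinianRing.of_finite F A
  apply hr.2
  intro R hR
  apply w1_H hw hR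
  · intro p q e a1 a2 a3 a4 a5 a6 a7 a8 a9 a10 a11 a12
    exact hno ⟨p, q, e, a1, a2, a3, a4, a5, a6, a7, a8, a9, a10, a11, a12⟩
  · rcases hor with hor | hor
    · left
      intro p e a1 a2 a3 a4 a5 a6 a7
      exact hor ⟨p, e, a1, a2, a3, a4, a5, a6, a7⟩
    · right
      exact hor

end

end Pool.Agent.MP_f4742e_al
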