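import Pool.Agent.Lib.MP_f4742e_al.G.Witt

/-!
Matrix units in a right ideal of a simple Artinian ring.
-/

set_option autoImplicit false

namespace Pool.Agent.MP_f4742e_al

open MulOpposite

section

variable {A : Type*} [Ring A]

/-- A right ideal of a semisimple ring is generated by an idempotent. -/
theorem exists_idem [IsSemisimpleRing A] (I : Submodule Aᵐᵒᵖ A) :
    ∃ f ∈ I, ∀ x ∈ I, f * x = x := by
  obtain ⟨I', hI⟩ := exists_isCompl I
  have h1 : (1 : A) ∈ I ⊔ I' := by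
    rw [hI.sup_eq_top]
    exact Submodule.mem_top
  obtain ⟨f, hf, f', hf', h2⟩ := Submodule.mem_sup.1 h1
  refine ⟨f, hf, fun x hx => ?_⟩
  have h3 : f' * x ∈ I ⊓ I' := by
    refine ⟨?_, mul_mem hf' x⟩
    have h4 : f' * x = x - f * x := by
      rw [eq_sub_iff_add_eq, ← add_mul, add_comm, h2, one_mul]
    rw [h4]
    exact I.sub_mem hx (mul_mem hf x)
  rw [hI.inf_eq_bot, Submodule.mem_bot] at h3
  have h4 : x = f * x + f' * x := by rw [← add_mul, h2, one_mul]
  rw [h3, add_zero] at h4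
  exact h4.symm

/-- Matrix units. -/
structure MUnits (A : Type*) [Ring A] (n : ℕ) (p : A) where
  /-- the units -/
  e : Fin n → Fin n → A
  mul_same : ∀ i j k, e i j * e j k = e i k
  mul_ne : ∀ i j j' k, j ≠ j' → e i j * e j' k = 0
  left : ∀ i j, p * e i j = e i j
  right : ∀ i j, e i j * p = e i j
  ne : ∀ i j, e i j ≠ 0

theorem exists_units [IsSimpleRing A] [IsArtinianRing A] {p : A} (hp : p * p = p) {w : ℕ}
    (hw : (w : ℕ∞) ≤ Order.height (rid p)) : Nonempty (MUnits A w p) := by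
  rcases Nat.eq_zero_or_pos w with hw0 | hw0
  · subst hw0
    exact ⟨⟨fun _ _ => 0, fun i => i.elim0, fun i => i.elim0, fun i => i.elim0, fun i => i.elim0,
      fun i => i.elim0⟩⟩
  have hiso : IsIsotypic Aᵐᵒᵖ Aᵐᵒᵖ :=
    (isSimpleRing_isArtinianRing_iff.1 ⟨inferInstance, inferInstance⟩).2.1
  have hisoI : IsIsotypic Aᵐᵒᵖ (rid p) := IsIsotypic.of_self (rid p) hiso
  have hnt : Nontrivial (rid p) := by
    rw [← Module.length_pos_iff (R := Aᵐᵒᵖ), Module.length_submodule]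
    refine lt_of_lt_of_le ?_ hw
    exact_mod_cast hw0
  have hfin : Module.Finite Aᵐᵒᵖ (rid p) := by
    unfold rid
    infer_instance
  obtain ⟨n, _, S, hS, ⟨E⟩⟩ := hisoI.linearEquiv_fun
  have hwn : w ≤ n := by
    have h1 : Module.length Aᵐᵒᵖ (rid p) = Module.length Aᵐᵒᵖ (Fin n → S) :=
      LinearEquiv.length_eq E
    rw [Module.length_submodule, Module.length_pi, Module.length_eq_one, mul_one,
      ENat.card_eq_coe_fintype_card, Fintype.card_fin] at h1
    rw [h1] at hw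
    exact_mod_cast hw
  obtain ⟨p0, hp0⟩ : ∃ p0 : rid p, p0 = ⟨p, self_mem_rid p⟩ := ⟨_, rfl⟩
  have hp0' : (p0 : A) = p := by rw [hp0]
  have key : ∀ (t : rid p →ₗ[Aᵐᵒᵖ] rid p) (x : rid p), ((t x : rid p) : A) = (t p0 : A) * x := by
    intro t x
    have h1 : x = op (x : A) • p0 := by
      apply Subtype.ext
      change (x : A) = (p0 : A) * x
      rw [hp0']
      obtain ⟨z, hz⟩ := mem_rid.1 x.2
      rw [hz, ← mul_assoc, hp]
    conv_lhs => rw [h1, map_smul]
    rfl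
  obtain ⟨t, ht⟩ : ∃ t : Fin n → Fin n → (rid p →ₗ[Aᵐᵒᵖ] rid p), ∀ i j, t i j =
    E.symm.toLinearMap ∘ₗ LinearMap.single Aᵐᵒᵖ (fun _ => S) i ∘ₗ LinearMap.proj j ∘ₗ
      E.toLinearMap := ⟨_, fun _ _ => rfl⟩
  have ht' : ∀ i j x, t i j x = E.symm (Pi.single i (E x j)) := by
    intro i j x
    rw [ht]
    rfl
  have hmul : ∀ i j k x, t i j (t j k x) = t i k x := by
    intro i j k x
    rw [ht', ht', ht', E.apply_symm_apply, Pi.single_eq_same]
  have hne : ∀ i j j' k, j ≠ j' → ∀ x, t i j (t j' k x) = 0 := by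
    intro i j j' k hj x
    rw [ht', ht', E.apply_symm_apply, Pi.single_eq_of_ne hj, Pi.single_zero, map_zero]
  have hpx : ∀ x : rid p, p * (x : A) = x := by
    intro x
    obtain ⟨z, hz⟩ := mem_rid.1 x.2
    rw [hz, ← mul_assoc, hp]
  have hval : ∀ i : Fin w, (i : ℕ) < n := fun i => lt_of_lt_of_le i.2 hwn
  refine ⟨⟨fun i j => (t ⟨i, hval i⟩ ⟨j, hval j⟩ p0 : A), ?_, ?_, ?_, ?_, ?_⟩⟩
  · intro i j k
    rw [← key, hmul]
  · intro i j j' k hj
    rw [← key, hne _ _ _ _ (by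
      intro h
      rw [Fin.ext_iff] at h
      exact hj (Fin.ext h))]
    rfl
  · intro i j
    exact hpx _
  · intro i j
    have h1 := key (t ⟨i, hval i⟩ ⟨j, hval j⟩) p0
    rw [hp0'] at h1
    exact h1.symm
  · intro i j h
    have hSn : Nontrivial S := IsSimpleModule.nontrivial Aᵐᵒᵖ S
    obtain ⟨s, hs⟩ := exists_ne (0 : S)
    obtain ⟨x, hx⟩ : ∃ x, x = E.symm (Pi.single (⟨j, hval j⟩ : Fin n) s) := ⟨_, rfl⟩
    have h1 := key (t ⟨i, hval i⟩ ⟨j, hval j⟩) x
    rw [h, zero_mul, ht', hx, E.apply_symm_apply, Pi.single_eq_same] at h1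
    have h2 := Submodule.coe_eq_zero.1 h1
    rw [LinearEquiv.map_eq_zero_iff] at h2
    have h3 := congrFun h2 ⟨i, hval i⟩
    rw [Pi.single_eq_same] at h3
    exact hs h3

end

end Pool.Agent.MP_f4742e_al
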