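import Mathlib

/-!
A divisibility of dimensions.
-/

set_option autoImplicit false

namespace Pool.Agent.MP_f4742e_al

section

variable {F : Type*} [Field F]

/-- If every element of an algebra acts on `X` as zero or injectively then the dimension of the
image of the algebra divides the dimension of `X`. -/
theorem finrank_range_dvd {C X : Type*} [Ring C] [Algebra F C]
    [AddCommGroup X] [Module F X] [FiniteDimensional F X]
    (ρ : C →ₐ[F] Module.End F X) (hρ : ∀ c, ρ c = 0 ∨ Function.Injective (ρ c)) :
    Module.finrank F (LinearMap.range ρ.toLinearMap) ∣ Module.finrank F X := by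
  rcases subsingleton_or_nontrivial X with hX | hX
  · rw [Module.finrank_zero_of_subsingleton (M := X)]
    exact dvd_zero _
  have hnz : Nontrivial ρ.range := by
    refine ⟨⟨0, 1, ?_⟩⟩
    intro h0
    have h1 := congrArg (fun t : ρ.range => (t : Module.End F X)) h0
    exact zero_ne_one h1
  have hnd : NoZeroDivisors ρ.range := by
    constructor
    intro a b hab
    obtain ⟨c, hc⟩ := a.2
    have hab' : (a : Module.End F X) * (b : Module.End F X) = 0 := by
      have h1 := congrArg (fun t : ρ.range => (t : Module.End F X)) hab
      exact h1
    rcases hρ c with h1 | h1
    · left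
      apply Subtype.ext
      rw [← hc]
      exact h1
    · right
      apply Subtype.ext
      apply LinearMap.ext
      intro x
      have hc' : ρ c = (a : Module.End F X) := hc
      rw [hc'] at h1
      apply h1
      have h2 := LinearMap.congr_fun hab' x
      rw [Module.End.mul_apply] at h2
      rw [h2]
      change (0 : X) = (a : Module.End F X) 0
      rw [map_zero]
  have hdom : IsDomain ρ.range := NoZeroDivisors.to_isDomain _
  letI : DivisionRing ρ.range := divisionRingOfFiniteDimensional F ρ.range
  have h1 : Module.finrank F ρ.range * Module.finrank ρ.range X = Module.finrank F X :=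
    Module.finrank_mul_finrank F ρ.range X
  exact ⟨_, h1.symm⟩

end

end Pool.Agent.MP_f4742e_al
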