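import Pool.Agent.Lib.MP_f4742e_al.G.WCount
import Pool.Agent.Lib.MP_f4742e_al.G.Setup

/-!
Divisibility of the dimensions of subspaces stable under an algebra which acts on `e A` by
injective maps or zero.
-/

set_option autoImplicit false

namespace Pool.Agent.MP_f4742e_al

section

variable {F A : Type*} [Field F] [AddCommGroup A] [Module F A] [FiniteDimensional F A]

theorem finrank_map_add (T : A →ₗ[F] A) (X K : Submodule F A) (hKX : K ≤ X)
    (hK : ∀ x ∈ X, T x = 0 ↔ x ∈ K) :
    Module.finrank F (X.map T) + Module.finrank F K = Module.finrank F X := by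
  have h1 := LinearMap.finrank_range_add_finrank_ker (T.domRestrict X)
  rw [LinearMap.range_domRestrict, LinearMap.ker_domRestrict] at h1
  have h2 : T.ker.comap X.subtype = K.comap X.subtype := by
    ext x
    rw [Submodule.mem_comap, Submodule.mem_comap, LinearMap.mem_ker]
    exact hK _ x.2
  rw [h2] at h1
  have h3 : Module.finrank F (K.comap X.subtype) = Module.finrank F K :=
    LinearEquiv.finrank_eq (Submodule.comapSubtypeEquivOfLe hKX)
  rw [h3] at h1
  exact h1

end

section

variable {F A : Type*} [Field F] [Ring A] [Algebra F A] [FiniteDimensional F A]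

theorem finrank_dvd_of (C : Subalgebra F A) (Y : Submodule F A) (T : A →ₗ[F] A)
    (ρ : C →ₐ[F] Module.End F Y) (hρ0 : ∀ c : C, T c = 0 → ρ c = 0)
    (hinj : ∀ c : C, T c ≠ 0 → ∀ y, ρ c y = 0 → y = 0) :
    Module.finrank F ((Subalgebra.toSubmodule C).map T) ∣ Module.finrank F Y := by
  by_cases hY0 : Y = ⊥
  · rw [hY0, finrank_bot]
    exact dvd_zero _
  obtain ⟨y0, hy0, hy0'⟩ := (Submodule.ne_bot_iff Y).1 hY0
  have hρ1 : ∀ c : C, ρ c = 0 ↔ T c = 0 := by
    intro c
    refine ⟨?_, hρ0 c⟩
    intro h0
    by_contra h1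
    apply hy0'
    have h2 := hinj c h1 ⟨y0, hy0⟩ (by rw [h0]; rfl)
    have h3 := congrArg (fun t : Y => (t : A)) h2
    exact h3
  have h1 := finrank_range_dvd ρ (by
    intro c
    by_cases h0 : T (c : A) = 0
    · left
      exact (hρ1 c).2 h0
    · right
      rw [injective_iff_map_eq_zero]
      exact hinj c h0)
  have h2 := LinearMap.finrank_range_add_finrank_ker (K := F) (V := C)
    (V₂ := Module.End F Y) ρ.toLinearMap
  have h3 := LinearMap.finrank_range_add_finrank_ker
    (T.comp (Subalgebra.toSubmodule C).subtype)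
  have h4 : ρ.toLinearMap.ker = (T.comp (Subalgebra.toSubmodule C).subtype).ker := by
    ext c
    rw [LinearMap.mem_ker, LinearMap.mem_ker]
    exact hρ1 c
  have h5 : (T.comp (Subalgebra.toSubmodule C).subtype).range =
      (Subalgebra.toSubmodule C).map T := by
    rw [LinearMap.range_comp, Submodule.range_subtype]
  rw [h5] at h3
  rw [h4] at h2
  have h7 : Module.finrank F ((Subalgebra.toSubmodule C).map T) =
      Module.finrank F (LinearMap.range ρ.toLinearMap) := by
    change _ = Module.finrank F (Subalgebra.toSubmodule C) at h2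
    have h8 := h2.trans h3.symm
    exact (Nat.add_right_cancel h8).symm
  rw [h7]
  exact h1

theorem finrank_dvd_left (C : Subalgebra F A) {e g : A}
    (hmin : ∀ z, e * z ≠ 0 → ∃ w, e * z * w = e)
    (Y : Submodule F A) (hY : ∀ y ∈ Y, e * (g * y) = y) (hst : ∀ c ∈ C, ∀ y ∈ Y, c * y ∈ Y) :
    Module.finrank F ((Subalgebra.toSubmodule C).map (LinearMap.mulRight F e)) ∣
      Module.finrank F Y := by
  have hinj : ∀ c : A, c * e ≠ 0 → ∀ y ∈ Y, c * y = 0 → y = 0 := by
    intro c hc y hy hcy
    by_contra h0
    obtain ⟨w, hw⟩ := hmin (g * y) (by rw [hY y hy]; exact h0)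
    rw [hY y hy] at hw
    apply hc
    rw [← hw, ← mul_assoc, hcy, zero_mul]
  refine finrank_dvd_of C Y (LinearMap.mulRight F e) (AlgHom.ofLinearMap
    { toFun := fun c => (LinearMap.mulLeft F (c : A)).restrict (fun y hy => hst c c.2 y hy)
      map_add' := by
        intro c c'
        apply LinearMap.ext
        intro y
        apply Subtype.ext
        exact add_mul _ _ _
      map_smul' := by
        intro a c
        apply LinearMap.ext
        intro y
        apply Subtype.ext
        exact smul_mul_assoc _ _ _ }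
    (by
      apply LinearMap.ext
      intro y
      apply Subtype.ext
      exact one_mul _)
    (by
      intro c c'
      apply LinearMap.ext
      intro y
      apply Subtype.ext
      exact mul_assoc _ _ _)) ?_ ?_
  · intro c h0
    apply LinearMap.ext
    intro y
    apply Subtype.ext
    change (c : A) * y = 0
    have h1 : (c : A) * e = 0 := h0
    rw [← hY y y.2, ← mul_assoc, h1, zero_mul]
  · intro c h0 y hy
    apply Subtype.ext
    apply hinj c h0 y y.2
    exact congrArg (fun t : Y => (t : A)) hy

theorem finrank_dvd_sharp (C : Subalgebra F A) {e g : A} (hg : e * g * e = e)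
    (hmin : ∀ z, e * z ≠ 0 → ∃ w, e * z * w = e)
    (hC : ∀ c ∈ C, ∃ z, e * c = z * e)
    (Y : Submodule F A) (hY : ∀ y ∈ Y, e * (g * y) = y)
    (hst : ∀ c ∈ C, ∀ y ∈ Y, e * c * g * y ∈ Y) :
    Module.finrank F ((Subalgebra.toSubmodule C).map (LinearMap.mulLeft F e)) ∣
      Module.finrank F Y := by
  have hcg : ∀ c ∈ C, e * c * g * e = e * c := by
    intro c hc
    obtain ⟨z, hz⟩ := hC c hc
    rw [hz]
    calc z * e * g * e = z * (e * g * e) := by noncomm_ring
      _ = z * e := by rw [hg]
  refine finrank_dvd_of C Y (LinearMap.mulLeft F e) (AlgHom.ofLinearMap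
    { toFun := fun c => (LinearMap.mulLeft F (e * (c : A) * g)).restrict
        (fun y hy => hst c c.2 y hy)
      map_add' := by
        intro c c'
        apply LinearMap.ext
        intro y
        apply Subtype.ext
        change e * ((c : A) + c') * g * y = e * c * g * y + e * c' * g * y
        noncomm_ring
      map_smul' := by
        intro a c
        apply LinearMap.ext
        intro y
        apply Subtype.ext
        change e * (a • (c : A)) * g * y = a • (e * c * g * y)
        rw [mul_smul_comm, smul_mul_assoc, smul_mul_assoc] }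
    (by
      apply LinearMap.ext
      intro y
      apply Subtype.ext
      change e * 1 * g * y = y
      rw [mul_one, mul_assoc]
      exact hY y y.2)
    (by
      intro c c'
      apply LinearMap.ext
      intro y
      apply Subtype.ext
      change e * ((c : A) * c') * g * y = e * c * g * (e * c' * g * y)
      have h1 : e * (c : A) * g * (e * c' * g * y) = (e * c * g * e) * c' * g * y := by
        noncomm_ring
      rw [h1, hcg c c.2]
      noncomm_ring)) ?_ ?_
  · intro c h0
    apply LinearMap.ext
    intro y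
    apply Subtype.ext
    change e * (c : A) * g * y = 0
    have h1 : e * (c : A) = 0 := h0
    rw [h1, zero_mul, zero_mul]
  · intro c h0 y hy
    by_contra h1
    have h1' : (y : A) ≠ 0 := fun h2 => h1 (Subtype.ext h2)
    obtain ⟨w, hw⟩ := hmin (g * y) (by rw [hY y y.2]; exact h1')
    rw [hY y y.2] at hw
    apply h0
    change e * (c : A) = 0
    have h2 : e * (c : A) * g * y = 0 := congrArg (fun t : Y => (t : A)) hy
    rw [← hcg c c.2]
    nth_rewrite 2 [← hw]
    rw [← mul_assoc, h2, zero_mul]

omit [FiniteDimensional F A] in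
theorem finrank_left_right (σ : Involution F A) (C : Subalgebra F A)
    (hCσ : ∀ c ∈ C, σ.f c ∈ C) {e : A} (hes : σ.f e = e) :
    Module.finrank F ((Subalgebra.toSubmodule C).map (LinearMap.mulLeft F e)) =
      Module.finrank F ((Subalgebra.toSubmodule C).map (LinearMap.mulRight F e)) := by
  have h1 : (Subalgebra.toSubmodule C).map (LinearMap.mulLeft F e) =
      ((Subalgebra.toSubmodule C).map (LinearMap.mulRight F e)).map
        ((LinearEquiv.ofInvolutive σ.f σ.invol : A ≃ₗ[F] A) : A →ₗ[F] A) := by
    ext x
    constructor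
    · rintro ⟨c, hc, rfl⟩
      refine ⟨σ.f c * e, ⟨σ.f c, hCσ c hc, rfl⟩, ?_⟩
      change σ.f (σ.f c * e) = e * c
      rw [σ.map_mul, hes, σ.invol]
    · rintro ⟨_, ⟨c, hc, rfl⟩, rfl⟩
      refine ⟨σ.f c, hCσ c hc, ?_⟩
      change e * σ.f c = σ.f (c * e)
      rw [σ.map_mul, hes]
  rw [h1]
  exact LinearEquiv.finrank_map_eq _ _

end

end Pool.Agent.MP_f4742e_al
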