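import Pool.Agent.Lib.MP_f4742e_al.G.WOne
import Pool.Agent.Lib.MP_f4742e_al.G.Main

/-!
The RB-index of `H(A, σ)` if the Witt index is one.
-/

set_option autoImplicit false

namespace Pool.Agent.MP_f4742e_al

open Polynomial

section

variable {F A : Type*} [Field F] [Ring A] [Algebra F A] {σ : Involution F A}

/-- If the Witt index is one then `e^⊥ / e` is anisotropic. -/
theorem anis_of_witt_one (hw : σ.IsWittIndex 1) {e : A} (hes : σ.f e = e) (he0 : e ≠ 0)
    (hee : e * e = 0) (y : A) (hy1 : e * y = 0) (hy2 : σ.f y * y = 0) : ∃ z, y = e * z := by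
  by_contra hcon
  have hlt : rid e < Submodule.span Aᵐᵒᵖ {e, y} := by
    rw [Submodule.span_insert]
    exact left_lt_sup.2 (fun h => hcon (mem_rid.1 (h (self_mem_rid y))))
  have h1 : ((1 : ℕ) : ℕ∞) ≤ Order.height (rid e) := by
    have := height_one (bot_lt_rid he0) (n := 0) (by simp)
    simpa using this
  have h2 := height_one hlt h1
  have hiso : σ.Iso (Submodule.span Aᵐᵒᵖ {e, y}) := by
    apply iso_span
    have h3 : σ.f y * e = 0 := by
      have h4 := congrArg σ.f hy1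
      rwa [σ.map_mul, hes, map_zero] at h4
    intro a ha b hb
    rcases ha with rfl | ha <;> rcases hb with rfl | hb
    · rw [hes, hee]
    · rw [Set.mem_singleton_iff.1 hb, hes, hy1]
    · rw [Set.mem_singleton_iff.1 ha, h3]
    · rw [Set.mem_singleton_iff.1 ha, Set.mem_singleton_iff.1 hb, hy2]
  obtain ⟨J, hJ, hJl⟩ := exists_chain h2
  have h5 : 1 + 1 ≤ 1 := hw.2 ⟨J, hJ, by rw [hJl]; exact hiso⟩
  omega

end

section

variable {F A : Type*} [Field F] [CharZero F] [Ring A] [Nontrivial A] [Algebra F A]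
  [FiniteDimensional F A] [IsSemisimpleRing A] {σ : Involution F A}

theorem w1_ext (hw : σ.IsWittIndex 1) {R : A →ₗ[F] A} (h : JRB R) (hσ : ∀ x, σ.f (R x) = R x)
    (hno : ∀ p q e : A, σ.f p = p → σ.f q = q → σ.f e = e → p ≠ 0 → q ≠ 0 → e ≠ 0 →
      p * p = p → q * q = q → e * e = 0 → p * q = 0 → e * p = 0 → e * q = 0 → False)
    (hor : (∀ p e : A, σ.f p = p → σ.f e = e → p ≠ 0 → e ≠ 0 → p * p = p → e * e = 0 →
      e * p = 0 → False) ∨
      ∀ x e : A, σ.f x = x → σ.f e = e → e * e = 0 → ∃ c : F, e * x * e = c • e) :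
    R ^ 2 = 0 := by
  obtain ⟨m, hm, hm0, hm1⟩ := exists_index h.nilpotent_one one_ne_zero
  by_cases hm2 : m < 2
  · exact pow_zero_of_le h hm0 (by omega)
  have hmw : m - 1 ≤ 1 := by
    obtain ⟨I, hI, hh⟩ := exists_iso σ h hσ (by omega) hm0 hm1
    obtain ⟨J, hJ, hJl⟩ := exists_chain hh
    exact hw.2 ⟨J, hJ, by rw [hJl]; exact hI⟩
  have hm3 : m = 2 := by omega
  subst hm3
  have hmin : ∀ z : A, (R 1) ^ (2 - 1) * z ≠ 0 → ∃ w, (R 1) ^ (2 - 1) * z * w = (R 1) ^ (2 - 1) := by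
    by_contra hcon
    push Not at hcon
    obtain ⟨z, hz, hw'⟩ := hcon
    have h1 : rid ((R 1) ^ (2 - 1) * z) < rid ((R 1) ^ (2 - 1)) := by
      refine lt_of_le_of_ne ?_ ?_
      · intro y hy
        obtain ⟨w, rfl⟩ := mem_rid.1 hy
        rw [mul_assoc]
        exact mul_mem_rid _ _
      · intro h2
        have h3 := self_mem_rid ((R 1) ^ (2 - 1))
        rw [← h2] at h3
        obtain ⟨w, h4⟩ := mem_rid.1 h3
        exact hw' w h4.symm
    obtain ⟨I, hI, hh⟩ := exists_iso_nonmin σ h hσ le_rfl hm0 hm1 (bot_lt_rid hz) h1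
    obtain ⟨J, hJ, hJl⟩ := exists_chain hh
    have h5 : 2 ≤ 1 := hw.2 ⟨J, hJ, by rw [hJl]; exact hI⟩
    omega
  have hese := ese_zero h le_rfl hm0 hm1 hmin
  have hexe : ∀ x, R ((R 1) ^ (2 - 1) * x * (R 1) ^ (2 - 1)) = 0 := by
    intro x
    rw [R_exe h le_rfl hm0, hese]
  have h21 : 2 - 1 = 1 := rfl
  rw [h21, pow_one] at hmin hm1
  simp only [h21, pow_one] at hese hexe
  obtain ⟨e, he⟩ : ∃ e, R 1 = e := ⟨_, rfl⟩
  rw [he] at hmin hm1 hm0
  simp only [he] at hese hexe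
  rw [pow_two] at hm0
  have hes : σ.f e = e := by rw [← he, hσ]
  have han := anis_of_witt_one hw hes hm1 hm0
  obtain ⟨g, hg⟩ := exists_reg e
  obtain ⟨g0, hg0⟩ : ∃ g0, g0 = (2⁻¹ : F) • (g + σ.f g) := ⟨_, rfl⟩
  have hg0s : σ.f g0 = g0 := by
    rw [hg0, map_smul, map_add, σ.invol, add_comm]
  have hgg : e * g0 * e = e := by
    have h1 : e * σ.f g * e = e := by
      have h2 := congrArg σ.f hg
      rw [σ.map_mul, σ.map_mul, hes, ← mul_assoc] at h2
      exact h2
    rw [hg0, mul_smul_comm, smul_mul_assoc, mul_add, add_mul, hg, h1, ← two_smul F, smul_smul,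
      inv_mul_cancel₀ two_ne_zero, one_smul]
  have hse := w1_se σ h hσ hes hese han
  apply LinearMap.ext
  intro x
  rw [pow_two, Module.End.mul_apply, LinearMap.zero_apply]
  by_cases hZ : ∀ x, R x * e = 0
  · by_cases hnil : ∀ x, IsNilpotent (R x)
    · exact w1_nil σ h hσ he hm0 hZ hexe han hg0s hgg hnil x
    · push Not at hnil
      obtain ⟨x0, hx0⟩ := hnil
      exact w1_nonnil σ h hσ he hm1 hm0 hZ hexe hg0s hgg hx0 hno x
  · exfalso
    push Not at hZ
    obtain ⟨x0, hx0⟩ := hZ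
    rcases hor with hor | hor
    · obtain ⟨z0, h1, h2, h3⟩ := w1_idem h hse hmin hx0
      have h4 : e * R z0 = e := by
        have h5 := congrArg σ.f h2
        rwa [σ.map_mul, hσ, hes] at h5
      refine hor (1 - R z0) e ?_ hes ?_ hm1 ?_ hm0 ?_
      · rw [map_sub, σ.f_one, hσ]
      · intro h5
        exact h3 (sub_eq_zero.1 h5).symm
      · rw [sub_mul, one_mul, mul_sub, mul_one, h1, sub_self, sub_zero]
      · rw [mul_sub, mul_one, h4, sub_self]
    · exact w1_red σ h hσ he hm1 hm0 hse hexe hg0s hgg hmin hx0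
        (fun x hx => hor x e hx hes hm0) hno

/-- `R^2 = 0` on `H(A, σ)` if the Witt index is one and there are no orthogonal idempotents
killed by a square zero element (and `H(A, σ)` is reduced or of degree two over `D`). -/
theorem w1_H (hw : σ.IsWittIndex 1) {R : σ.H →ₗ[F] σ.H} (hR : IsRotaBaxter R)
    (hno : ∀ p q e : A, σ.f p = p → σ.f q = q → σ.f e = e → p ≠ 0 → q ≠ 0 → e ≠ 0 →
      p * p = p → q * q = q → e * e = 0 → p * q = 0 → e * p = 0 → e * q = 0 → False)
    (hor : (∀ p e : A, σ.f p = p → σ.f e = e → p ≠ 0 → e ≠ 0 → p * p = p → e * e = 0 →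
      e * p = 0 → False) ∨
      ∀ x e : A, σ.f x = x → σ.f e = e → e * e = 0 → ∃ c : F, e * x * e = c • e) :
    R ^ 2 = 0 :=
  σ.pow_eq_zero_of_ext (w1_ext hw (σ.ext_jrb hR) (σ.ext_sym R) hno hor)

end

end Pool.Agent.MP_f4742e_al
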