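import Pool.Agent.Lib.MP_f4742e_al.G.WCountA
import Pool.Agent.Lib.MP_f4742e_al.G.WOneMain

/-!
Rota-Baxter operators with `(R 1)^2 = 0` if the Witt index is one: the case `R(A) R(1) ≠ 0`,
structure of the images.
-/

set_option autoImplicit false

namespace Pool.Agent.MP_f4742e_al

open Polynomial

/-- The situation: `π = R η` is an idempotent which fixes `e = R 1` and `n = 1 - π`. -/
structure WD {F A : Type*} [Field F] [CharZero F] [Ring A] [Algebra F A]
    (σ : Involution F A) (R : A →ₗ[F] A) (e g π n η : A) : Prop where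
  h : JRB R
  hσ : ∀ x, σ.f (R x) = R x
  hRσ : ∀ x, R (σ.f x) = R x
  he1 : R 1 = e
  he0 : e ≠ 0
  hee : e * e = 0
  hes : σ.f e = e
  hse : ∀ x, ∃ z, R x * e = e * z
  hese : ∀ x, e * R x * e = 0
  hexe : ∀ x, R (e * x * e) = 0
  hmin : ∀ z, e * z ≠ 0 → ∃ w, e * z * w = e
  han : ∀ y, e * y = 0 → σ.f y * y = 0 → ∃ z, y = e * z
  hno : ∀ p q e : A, σ.f p = p → σ.f q = q → σ.f e = e → p ≠ 0 → q ≠ 0 → e ≠ 0 →
      p * p = p → q * q = q → e * e = 0 → p * q = 0 → e * p = 0 → e * q = 0 → False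
  h3 : ∀ x, R (R (R x)) = 0
  hgs : σ.f g = g
  hg : e * g * e = e
  hπ : π = e * g + g * e - e * g * (g * e)
  h1n : (1 : A) = π + n
  hππ : π * π = π
  hnn : n * n = n
  hπn : π * n = 0
  hnπ : n * π = 0
  hπs : σ.f π = π
  hns : σ.f n = n
  hπe : π * e = e
  heπ : e * π = e
  hen : e * n = 0
  hne : n * e = 0
  hη : π * η = η
  hηn : η * n = η
  hRη : R η = π
  hRn : R n = 0
  hRπ : R π = e
  hRg : R (jp e g) = e

namespace WD

variable {F A : Type*} [Field F] [CharZero F] [Ring A] [Algebra F A]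
  {σ : Involution F A} {R : A →ₗ[F] A} {e g π n η : A} (D : WD σ R e g π n η)

include D

theorem es (x : A) : ∃ z, e * R x = z * e := by
  obtain ⟨z, hz⟩ := D.hse x
  refine ⟨σ.f z, ?_⟩
  have h1 := congrArg σ.f hz
  rwa [σ.map_mul, σ.map_mul, D.hσ, D.hes] at h1

theorem Re : R e = 0 := by
  have h1 := D.hexe g
  rwa [D.hg] at h1

theorem dec (s : A) : s = π * s * π + π * s * n + n * s * π + n * s * n := by
  calc s = 1 * s * 1 := by rw [one_mul, mul_one]
    _ = (π + n) * s * (π + n) := by rw [← D.h1n]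
    _ = _ := by noncomm_ring

theorem jp_π (s : A) : jp π s = (2 : F) • (π * s * π) + (π * s * n + n * s * π) := by
  have h1 := D.dec s
  have h2 : jp π s = π * s * (π + n) + (π + n) * s * π := by
    rw [← D.h1n]
    unfold jp
    rw [mul_one, one_mul]
  rw [h2, two_smul]
  noncomm_ring

theorem pp_mem (x : A) : ∃ z, π * R x * π = R z := by
  have h1 := D.h η x
  rw [D.hRη] at h1
  obtain ⟨z1, hz1⟩ : ∃ z1, z1 = jp π x + jp η (R x) := ⟨_, rfl⟩
  rw [← hz1] at h1
  have h2 := D.h η z1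
  rw [D.hRη, ← h1] at h2
  have h3 : jp π (jp π (R x)) - jp π (R x) = (2 : F) • (π * R x * π) := by
    rw [D.jp_π (R x), jp_add, jp_smul, two_smul, two_smul]
    unfold jp
    have h4 : π * (π * R x * π) + π * R x * π * π + (π * (π * R x * π) + π * R x * π * π) +
        (π * (π * R x * n + n * R x * π) + (π * R x * n + n * R x * π) * π) =
        (π * π) * R x * π + π * R x * (π * π) + ((π * π) * R x * π + π * R x * (π * π)) +
        ((π * π) * R x * n + (π * n) * R x * π + π * R x * (n * π) + n * R x * (π * π)) := by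
      noncomm_ring
    rw [h4, D.hππ, D.hπn, D.hnπ]
    noncomm_ring
  refine ⟨(2⁻¹ : F) • (jp π z1 + jp η (R z1) - z1), ?_⟩
  have h5 : R (jp π z1 + jp η (R z1)) = jp π (jp π (R x)) := by
    rw [h2, h1]
  rw [map_smul, map_sub, h5, ← h1, h3, smul_smul, inv_mul_cancel₀ two_ne_zero, one_smul]

theorem nn_mem (x : A) : ∃ z, n * R x * n = R z := by
  obtain ⟨z1, hz1⟩ := D.pp_mem x
  have h1 := D.h η x
  rw [D.hRη] at h1
  refine ⟨x - (jp π x + jp η (R x)) + z1, ?_⟩
  rw [map_add, map_sub, ← h1, ← hz1, D.jp_π, two_smul]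
  have h2 := D.dec (R x)
  generalize π * R x * π = a at h2 ⊢
  generalize π * R x * n = b at h2 ⊢
  generalize n * R x * π = c at h2 ⊢
  generalize n * R x * n = d at h2 ⊢
  rw [h2]
  abel

theorem nn0 [Nontrivial A] [FiniteDimensional F A] (x : A) : n * R x * n = 0 := by
  obtain ⟨z, hz⟩ := D.nn_mem x
  obtain ⟨q, hq⟩ : ∃ q, q = R z := ⟨_, rfl⟩
  rw [← hq] at hz
  have hqs : σ.f q = q := by rw [hq, D.hσ]
  have hnq : n * q = q := by rw [← hz, ← mul_assoc, ← mul_assoc, D.hnn]
  have hqn : q * n = q := by rw [← hz, mul_assoc, D.hnn]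
  have heq : e * q = 0 := by rw [← hnq, ← mul_assoc, D.hen, zero_mul]
  have hqe : q * e = 0 := by rw [← hqn, mul_assoc, D.hne, mul_zero]
  rw [hz]
  by_contra hq0
  by_cases hnil : IsNilpotent q
  · obtain ⟨z', hz'⟩ := nil_mul σ D.hns D.hne hqs heq hqe hnil D.han
    rw [hqn] at hz'
    apply hq0
    rw [← hnq, hz', ← mul_assoc, D.hne, zero_mul]
  · obtain ⟨P, hP1, hP2⟩ := exists_idem_ne (F := F) q (Algebra.IsIntegral.isIntegral _) hnil
    obtain ⟨z0, hz0⟩ := aeval_mem_range D.h 1 (p := q) (w := z) (by rw [pow_one, hq]) P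
    rw [pow_one] at hz0
    obtain ⟨t, ht⟩ : ∃ t, t = aeval q (X * P) := ⟨_, rfl⟩
    rw [← ht] at hP1 hP2 hz0
    have hnt : n * t = t := by
      rw [ht, map_mul, aeval_X, ← mul_assoc, hnq]
    have htn : t * n = t := by
      rw [ht, mul_comm X P, map_mul, aeval_X, mul_assoc, hqn]
    have hts : σ.f t = t := by rw [hz0, D.hσ]
    have het : e * t = 0 := by rw [← hnt, ← mul_assoc, D.hen, zero_mul]
    by_cases htn' : t = n
    · have h1 := not_range D.h 0 (by rw [pow_zero]; exact one_ne_zero) (η + z0)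
      rw [mul_zero, zero_add, pow_one, pow_zero] at h1
      apply h1
      rw [map_add, D.hRη, ← hz0, htn', ← D.h1n]
    · refine D.hno t (n - t) e hts ?_ D.hes hP2 ?_ D.he0 hP1 ?_ D.hee ?_ het ?_
      · rw [map_sub, D.hns, hts]
      · exact fun h2 => htn' (sub_eq_zero.1 h2).symm
      · rw [sub_mul, mul_sub, mul_sub, D.hnn, hnt, htn, hP1]
        abel
      · rw [mul_sub, htn, hP1, sub_self]
      · rw [mul_sub, D.hen, het, sub_self]

/-- The half space parts are in `e A`. -/
theorem k_mem [Nontrivial A] [FiniteDimensional F A] (x : A) : ∃ z, π * R x * n = e * z := by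
  apply D.han
  · obtain ⟨z, hz⟩ := D.es x
    rw [← mul_assoc, ← mul_assoc, D.heπ, hz, mul_assoc, D.hen, mul_zero]
  · obtain ⟨z, hz⟩ := w1_sq D.h x
    have h1 := D.nn0 z
    rw [← hz] at h1
    have h2 : n * (R x * R x) * n = n * R x * (π + n) * R x * n := by
      rw [← D.h1n]
      noncomm_ring
    have h3 : n * R x * (π + n) * R x * n = n * R x * π * (π * R x * n) +
        (n * R x * n) * (R x * n) := by
      have h4 : n * R x * π * (π * R x * n) = n * R x * (π * π) * R x * n := by noncomm_ring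
      rw [h4, D.hππ]
      noncomm_ring
    rw [h2, h3, D.nn0, zero_mul, add_zero] at h1
    rw [σ.map_mul, σ.map_mul, D.hσ, D.hns, D.hπs, ← mul_assoc n]
    exact h1

theorem σk (x : A) : σ.f (π * R x * n) = n * R x * π := by
  rw [σ.map_mul, σ.map_mul, D.hσ, D.hns, D.hπs, mul_assoc]

theorem aniso_n {k : A} (hkn : k * n = k) (hk : k * σ.f k = 0) : k = 0 := by
  have h1 : n * σ.f k = σ.f k := by
    have h2 := congrArg σ.f hkn
    rwa [σ.map_mul, D.hns] at h2
  obtain ⟨z, hz⟩ := D.han (σ.f k) (by rw [← h1, ← mul_assoc, D.hen, zero_mul])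
    (by rw [σ.invol, hk])
  have h2 : σ.f k = 0 := by rw [← h1, hz, ← mul_assoc, D.hne, zero_mul]
  rw [← σ.invol k, h2, map_zero]

/-- An image of square zero is in `e A e`. -/
theorem sq_zero_mem [Nontrivial A] [FiniteDimensional F A] (x : A) (hsq : R x * R x = 0) :
    R x = e * (g * R x * g) * e := by
  obtain ⟨s, hs⟩ : ∃ s, s = R x := ⟨_, rfl⟩
  have hse : s * e = 0 := by
    by_contra h0
    obtain ⟨z, hz⟩ := D.hse x
    rw [← hs] at hz
    rw [hz] at h0
    obtain ⟨w, hw⟩ := D.hmin z h0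
    apply h0
    rw [← hz, ← hw, ← hz]
    have h1 : s * (s * e * w) = s * s * e * w := by noncomm_ring
    rw [h1, hs, hsq, zero_mul, zero_mul]
  have hes : e * s = 0 := by
    have h1 := congrArg σ.f hse
    rwa [σ.map_mul, D.hes, hs, D.hσ, map_zero, ← hs] at h1
  have hpp : π * s * π = e * (g * s * g) * e := by
    rw [D.hπ]
    exact plane_ker hes hse
  obtain ⟨k, hk⟩ : ∃ k, k = π * s * n := ⟨_, rfl⟩
  have hσk : σ.f k = n * s * π := by rw [hk, hs, D.σk]
  have hk0 : k = 0 := by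
    apply D.aniso_n
    · rw [hk, mul_assoc, D.hnn]
    · have h1 : π * (s * s) * π = π * s * π * (π * s * π) + k * σ.f k := by
        rw [hσk, hk]
        have h2 : π * s * π * (π * s * π) + π * s * n * (n * s * π) =
            π * s * (π * π + n * n) * s * π := by noncomm_ring
        rw [h2, D.hππ, D.hnn, ← D.h1n]
        noncomm_ring
      rw [hs, hsq, ← hs, mul_zero, zero_mul, hpp] at h1
      have h2 : e * (g * s * g) * e * (e * (g * s * g) * e) =
          e * (g * s * g) * (e * e) * (g * s * g) * e := by noncomm_ring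
      rw [h2, D.hee, mul_zero, zero_mul, zero_mul, zero_add] at h1
      exact h1.symm
  have h1 := D.dec s
  have h2 : n * s * n = 0 := by rw [hs, D.nn0]
  have h3 : n * s * π = 0 := by rw [← hσk, hk0, map_zero]
  rw [← hk, hk0, h3, h2, add_zero, add_zero, add_zero, hpp] at h1
  rw [← hs]
  exact h1

end WD

end Pool.Agent.MP_f4742e_al
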