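import Pool.Agent.Lib.MP_f4742e_al.G.WDim

/-!
Rota-Baxter operators with `(R 1)^2 = 0` if the Witt index is one: the case `R(A) R(1) ≠ 0`,
the values on `e A n`.
-/

set_option autoImplicit false

namespace Pool.Agent.MP_f4742e_al

open Polynomial

namespace WD

variable {F A : Type*} [Field F] [CharZero F] [Ring A] [Algebra F A]
  {σ : Involution F A} {R : A →ₗ[F] A} {e g π n η : A} (D : WD σ R e g π n η)

include D

theorem sqR (x : A) : R x * R x = R (jp (R x) x) := by
  have h1 := D.h x x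
  rw [jp_comm x (R x), ← two_smul F (jp (R x) x), map_smul] at h1
  have h2 : jp (R x) (R x) = (2 : F) • (R x * R x) := by
    unfold jp
    rw [two_smul]
  rw [h2] at h1
  exact smul_right_injective A (two_ne_zero (α := F)) h1

theorem jpe (x : A) : R (jp e x) = jp e (R x) - (2 : F) • R (R x) := by
  have h1 := D.h 1 x
  rw [D.he1, one_jp, map_add, map_add, ← two_smul F (R (R x))] at h1
  rw [h1]
  abel

theorem jpe_RR (x : A) : jp e (R (R x)) = 0 := by
  have h1 := D.jpe (R x)
  rw [D.h3, smul_zero, sub_zero, jp_comm, K0 D.h D.Re] at h1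
  exact h1.symm

theorem RRe [FiniteDimensional F A] (x : A) : R (R x) * e = 0 := by
  by_contra h0
  obtain ⟨z, hz⟩ := D.hse (R x)
  rw [hz] at h0
  obtain ⟨w, hw⟩ := D.hmin z h0
  rw [← hz] at hw
  obtain ⟨P, hP1, hP2⟩ := exists_idem_fix (F := F) (R (R x)) (Algebra.IsIntegral.isIntegral _)
    hw.symm
  obtain ⟨z0, hz0⟩ := aeval_mem_range D.h 2 (p := R (R x)) (w := x)
    (by rw [pow_two, Module.End.mul_apply]) P
  rw [pow_two, Module.End.mul_apply] at hz0
  rw [hz0] at hP1 hP2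
  have h1 := D.jpe_RR z0
  have h2 : e * R (R z0) = e := by
    have h3 := congrArg σ.f hP2
    rwa [σ.map_mul, D.hσ, D.hes] at h3
  unfold jp at h1
  rw [h2, hP2, ← two_smul F] at h1
  exact D.he0 ((smul_eq_zero.1 h1).resolve_left two_ne_zero)

theorem eRR [FiniteDimensional F A] (x : A) : e * R (R x) = 0 := by
  have h1 := congrArg σ.f (D.RRe x)
  rwa [σ.map_mul, D.hσ, D.hes, map_zero] at h1

theorem Rjp_e [FiniteDimensional F A] (m : A) : R (jp e m) * e = 0 := by
  rw [D.jpe, sub_mul, smul_mul_assoc, D.RRe, smul_zero, sub_zero]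
  unfold jp
  rw [add_mul, D.hese, mul_assoc, D.hee, mul_zero, add_zero]

theorem ezn_eq (z : A) : jp e (g * (e * z * n)) = e * z * n := by
  unfold jp
  have h1 : e * (g * (e * z * n)) + g * (e * z * n) * e =
      e * g * e * z * n + g * e * z * (n * e) := by noncomm_ring
  rw [h1, D.hg, D.hne, mul_zero, add_zero]

theorem Rezn_e [FiniteDimensional F A] (z : A) : R (e * z * n) * e = 0 := by
  rw [← D.ezn_eq z]
  exact D.Rjp_e _

theorem ns [Nontrivial A] [FiniteDimensional F A] (x : A) : ∃ z, n * R x = z * e := by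
  obtain ⟨z, hz⟩ := D.k_mem x
  refine ⟨σ.f z, ?_⟩
  have h1 : n * R x = n * R x * π + n * R x * n := by
    rw [← mul_add, ← D.h1n, mul_one]
  rw [h1, D.nn0, add_zero, ← D.σk, hz, σ.map_mul, D.hes]

theorem sn [Nontrivial A] [FiniteDimensional F A] (x : A) : ∃ z, R x * n = e * z := by
  obtain ⟨z, hz⟩ := D.ns x
  refine ⟨σ.f z, ?_⟩
  have h1 := congrArg σ.f hz
  rwa [σ.map_mul, σ.map_mul, D.hσ, D.hns, D.hes] at h1

theorem Rezn_mem [Nontrivial A] [FiniteDimensional F A] (z : A) :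
    R (e * z * n) = e * (g * R (e * z * n) * g) * e := by
  apply D.sq_zero_mem
  rw [D.sqR]
  obtain ⟨z', hz'⟩ := D.ns (e * z * n)
  have h1 : jp (R (e * z * n)) (e * z * n) = e * (z * z') * e := by
    unfold jp
    have h2 : R (e * z * n) * (e * z * n) + e * z * n * R (e * z * n) =
        R (e * z * n) * e * z * n + e * z * (n * R (e * z * n)) := by noncomm_ring
    rw [h2, D.Rezn_e, hz']
    noncomm_ring
  rw [h1, D.hexe]

theorem Rk [Nontrivial A] [FiniteDimensional F A] (x : A) : R (π * R x * n) = 0 := by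
  have h1 := K0 D.h D.hRn x
  have h2 : jp (R x) n = π * R x * n + n * R x * π := by
    have h3 : jp (R x) n = (π + n) * R x * n + n * R x * (π + n) := by
      rw [← D.h1n]
      unfold jp
      rw [one_mul, mul_one]
    rw [h3, add_mul, add_mul, mul_add, D.nn0, add_zero, add_zero]
  rw [h2, map_add, ← D.σk, D.hRσ, ← two_smul F] at h1
  exact (smul_eq_zero.1 h1).resolve_left two_ne_zero

theorem RR_of [Nontrivial A] [FiniteDimensional F A] {m : A} (hm : R m * e = 0) :
    R (R m) = 0 := by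
  have hm' : e * R m = 0 := by
    have h1 := congrArg σ.f hm
    rwa [σ.map_mul, D.hσ, D.hes, map_zero] at h1
  have hpp : π * R m * π = e * (g * R m * g) * e := by
    rw [D.hπ]
    exact plane_ker hm' hm
  rw [D.dec (R m), hpp, D.nn0, add_zero, map_add, map_add, D.hexe, D.Rk, ← D.σk, D.hRσ, D.Rk]
  simp

theorem Rjp_of [Nontrivial A] [FiniteDimensional F A] {m : A} (hm : R m * e = 0) :
    R (jp e m) = 0 := by
  have hm' : e * R m = 0 := by
    have h1 := congrArg σ.f hm
    rwa [σ.map_mul, D.hσ, D.hes, map_zero] at h1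
  rw [D.jpe, D.RR_of hm, smul_zero, sub_zero]
  unfold jp
  rw [hm, hm', add_zero]

end WD

/-- The algebra generated by the corners of the images. -/
def Calg {F A : Type*} [Field F] [Ring A] [Algebra F A] (R : A →ₗ[F] A) (π : A) :
    Subalgebra F A := Algebra.adjoin F (Set.range fun x => π * R x * π)

/-- The space `e A n`. -/
def Wsub (F : Type*) {A : Type*} [Field F] [Ring A] [Algebra F A] (e g n : A) :
    Submodule F A where
  carrier := {w | e * (g * w) = w ∧ w * n = w}
  add_mem' := by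
    rintro x y ⟨hx1, hx2⟩ ⟨hy1, hy2⟩
    exact ⟨by rw [mul_add, mul_add, hx1, hy1], by rw [add_mul, hx2, hy2]⟩
  zero_mem' := ⟨by rw [mul_zero, mul_zero], zero_mul _⟩
  smul_mem' := by
    rintro c x ⟨hx1, hx2⟩
    exact ⟨by rw [mul_smul_comm, mul_smul_comm, hx1], by rw [smul_mul_assoc, hx2]⟩

namespace WD

variable {F A : Type*} [Field F] [CharZero F] [Ring A] [Algebra F A]
  {σ : Involution F A} {R : A →ₗ[F] A} {e g π n η : A} (D : WD σ R e g π n η)

include D

theorem ppe (x : A) : π * R x * π * e = R x * e := by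
  obtain ⟨z, hz⟩ := D.hse x
  rw [mul_assoc, D.hπe, mul_assoc, hz, ← mul_assoc, D.hπe]

theorem C_e : ∀ c ∈ Calg R π, ∃ z, c * e = e * z := by
  intro c hc
  unfold Calg at hc
  induction hc using Algebra.adjoin_induction with
  | mem x hx =>
    obtain ⟨y, rfl⟩ := hx
    obtain ⟨z, hz⟩ := D.hse y
    refine ⟨z, ?_⟩
    change π * R y * π * e = e * z
    rw [D.ppe, hz]
  | algebraMap r =>
    refine ⟨algebraMap F A r, ?_⟩
    exact Algebra.commutes r e
  | add x y _ _ hx hy =>
    obtain ⟨z1, h1⟩ := hx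
    obtain ⟨z2, h2⟩ := hy
    exact ⟨z1 + z2, by rw [add_mul, h1, h2, mul_add]⟩
  | mul x y _ _ hx hy =>
    obtain ⟨z1, h1⟩ := hx
    obtain ⟨z2, h2⟩ := hy
    exact ⟨z1 * z2, by rw [mul_assoc, h2, ← mul_assoc, h1, mul_assoc]⟩

theorem C_σ : ∀ c ∈ Calg R π, σ.f c ∈ Calg R π := by
  intro c hc
  unfold Calg at hc ⊢
  induction hc using Algebra.adjoin_induction with
  | mem x hx =>
    obtain ⟨y, rfl⟩ := hx
    apply Algebra.subset_adjoin
    refine ⟨y, ?_⟩
    change π * R y * π = σ.f (π * R y * π)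
    rw [σ.map_mul, σ.map_mul, D.hσ, D.hπs, mul_assoc]
  | algebraMap r =>
    rw [Algebra.algebraMap_eq_smul_one, map_smul, σ.f_one]
    exact Subalgebra.smul_mem _ (Subalgebra.one_mem _) _
  | add x y _ _ hx hy =>
    rw [map_add]
    exact Subalgebra.add_mem _ hx hy
  | mul x y _ _ hx hy =>
    rw [σ.map_mul]
    exact Subalgebra.mul_mem _ hy hx

theorem e_C : ∀ c ∈ Calg R π, ∃ z, e * c = z * e := by
  intro c hc
  obtain ⟨z, hz⟩ := D.C_e _ (D.C_σ c hc)
  refine ⟨σ.f z, ?_⟩
  have h1 := congrArg σ.f hz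
  rwa [σ.map_mul, σ.map_mul, σ.invol, D.hes] at h1

omit [CharZero F] D in
theorem C_stab {Y : Submodule F A} (hY : ∀ x, ∀ y ∈ Y, π * R x * π * y ∈ Y) :
    ∀ c ∈ Calg R π, ∀ y ∈ Y, c * y ∈ Y := by
  intro c hc
  unfold Calg at hc
  induction hc using Algebra.adjoin_induction with
  | mem x hx =>
    obtain ⟨y, rfl⟩ := hx
    exact hY y
  | algebraMap r =>
    intro y hy
    rw [← Algebra.smul_def]
    exact Y.smul_mem _ hy
  | add x y _ _ hx hy =>
    intro z hz
    rw [add_mul]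
    exact Y.add_mem (hx z hz) (hy z hz)
  | mul x y _ _ hx hy =>
    intro z hz
    rw [mul_assoc]
    exact hx _ (hy z hz)

theorem Re_mem (m : A) :
    R m * e ∈ (Subalgebra.toSubmodule (Calg R π)).map (LinearMap.mulRight F e) :=
  ⟨π * R m * π, Algebra.subset_adjoin ⟨m, rfl⟩, D.ppe m⟩

theorem W_mem (z : A) : e * z * n ∈ Wsub F e g n := by
  constructor
  · have h1 : e * (g * (e * z * n)) = e * g * e * z * n := by noncomm_ring
    rw [h1, D.hg]
  · rw [mul_assoc, D.hnn]

omit [CharZero F] D in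
theorem W_eq {w : A} (hw : w ∈ Wsub F e g n) : w = e * (g * w) * n := by
  rw [hw.1, hw.2]

theorem W_C : ∀ c ∈ Calg R π, ∀ w ∈ Wsub F e g n, c * w ∈ Wsub F e g n := by
  intro c hc w hw
  obtain ⟨z, hz⟩ := D.C_e c hc
  rw [W_eq hw, ← mul_assoc, ← mul_assoc, hz, mul_assoc e]
  exact D.W_mem _

end WD

end Pool.Agent.MP_f4742e_al
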