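import Pool.Agent.Lib.MP_f4742e_al.G.WDimB

/-!
Rota-Baxter operators with `(R 1)^2 = 0` if the Witt index is one: the case `R(A) R(1) ≠ 0`,
`R(e A n) = 0`.
-/

set_option autoImplicit false

namespace Pool.Agent.MP_f4742e_al

namespace WD

variable {F A : Type*} [Field F] [CharZero F] [Ring A] [Nontrivial A] [Algebra F A]
  [FiniteDimensional F A]
  {σ : Involution F A} {R : A →ₗ[F] A} {e g π n η : A} (D : WD σ R e g π n η)

include D

theorem KW_stab (x : A) : ∀ y ∈ Wsub F e g n ⊓ R.ker, π * R x * π * y ∈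
    Wsub F e g n ⊓ R.ker := by
  rintro y ⟨hy1, hy2⟩
  refine ⟨D.W_C _ (Algebra.subset_adjoin ⟨x, rfl⟩) y hy1, ?_⟩
  have hy2' : R y = 0 := hy2
  have hsy : π * R x * π * y = R x * y := by
    rw [← hy1.1, ← mul_assoc, D.ppe, mul_assoc]
  change R (π * R x * π * y) = 0
  rw [hsy]
  have h1 := K0 D.h hy2' x
  obtain ⟨z, hz⟩ := D.ns x
  have h2 : y * R x = e * (g * y * z) * e := by
    nth_rewrite 1 [W_eq hy1]
    rw [mul_assoc (e * (g * y)) n, hz]
    noncomm_ring
  unfold jp at h1
  rw [h2, map_add, D.hexe, add_zero] at h1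
  exact h1

omit [Nontrivial A] [FiniteDimensional F A] in
theorem jp_π_e : jp π e = (2 : F) • e := by
  unfold jp
  rw [D.hπe, D.heπ, two_smul]

omit [Nontrivial A] [FiniteDimensional F A] in
theorem η_e : η * e = 0 := by rw [← D.hηn, mul_assoc, D.hne, mul_zero]

omit [Nontrivial A] [FiniteDimensional F A] in
theorem η_π : η * π = 0 := by rw [← D.hηn, mul_assoc, D.hnπ, mul_zero]

omit [Nontrivial A] [FiniteDimensional F A] in
theorem R_eη : R (e * η) = 0 := by
  have h1 := D.jpe η
  rw [D.hRη, D.hRπ, jp_comm e π, D.jp_π_e, sub_self] at h1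
  unfold jp at h1
  rwa [D.η_e, add_zero] at h1

theorem not_Rw {w : A} (hw : w ∈ Wsub F e g n) (hRw : R w = e) : False := by
  have h1 := D.h η w
  have h2 : jp π w = w := by
    unfold jp
    rw [W_eq hw]
    have h3 : π * (e * (g * w) * n) + e * (g * w) * n * π =
        π * e * (g * w) * n + e * (g * w) * (n * π) := by noncomm_ring
    rw [h3, D.hπe, D.hnπ, mul_zero, add_zero]
  have h3 : jp η e = e * η := by
    unfold jp
    rw [D.η_e, zero_add]
  rw [D.hRη, hRw, h2, h3, map_add, hRw, D.R_eη, add_zero, D.jp_π_e, two_smul] at h1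
  exact D.he0 (by
    have h4 : e + e - e = e - e := by rw [h1]
    rwa [add_sub_cancel_right, sub_self] at h4)

theorem RW {w : A} (hw : w ∈ Wsub F e g n) : R w = 0 := by
  by_contra hne
  obtain ⟨Ce, hCe⟩ : ∃ Ce, Ce = (Subalgebra.toSubmodule (Calg R π)).map
    (LinearMap.mulRight F e) := ⟨_, rfl⟩
  have d1 : Module.finrank F Ce ∣ Module.finrank F (Wsub F e g n) := by
    rw [hCe]
    exact finrank_dvd_left _ D.hmin _ (fun y hy => hy.1) D.W_C
  have d2 : Module.finrank F Ce ∣ Module.finrank F (Wsub F e g n ⊓ R.ker : Submodule F A) := by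
    rw [hCe]
    exact finrank_dvd_left _ D.hmin _ (fun y hy => hy.1.1) (C_stab D.KW_stab)
  have d3 : Module.finrank F (Wsub F e g n ⊓ R.ker : Submodule F A) <
      Module.finrank F (Wsub F e g n) := by
    apply Submodule.finrank_lt_finrank_of_lt
    refine lt_of_le_of_ne inf_le_left ?_
    intro h1
    apply hne
    have h2 : w ∈ Wsub F e g n ⊓ R.ker := by rw [h1]; exact hw
    exact h2.2
  have d4 : Module.finrank F (Wsub F e g n ⊓ R.ker : Submodule F A) + Module.finrank F Ce ≤
      Module.finrank F (Wsub F e g n) := by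
    have h1 := Nat.le_of_dvd (Nat.sub_pos_of_lt d3) (Nat.dvd_sub d1 d2)
    omega
  obtain ⟨T, hT⟩ : ∃ T : A →ₗ[F] A, T = (LinearMap.mulRight F e).comp
    (R.comp (LinearMap.mulLeft F g)) := ⟨_, rfl⟩
  have hTa : ∀ w, T w = R (g * w) * e := by
    intro w
    rw [hT]
    rfl
  have hjp : ∀ w ∈ Wsub F e g n, jp e (g * w) = w := by
    intro w hw
    nth_rewrite 1 [W_eq hw]
    rw [D.ezn_eq, ← W_eq hw]
  have d5 := finrank_map_add T (Wsub F e g n) (Wsub F e g n ⊓ T.ker) inf_le_left (by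
    intro x hx
    constructor
    · intro h1
      exact ⟨hx, h1⟩
    · intro h1
      exact h1.2)
  have d6 : Module.finrank F (Wsub F e g n ⊓ T.ker : Submodule F A) ≤
      Module.finrank F (Wsub F e g n ⊓ R.ker : Submodule F A) := by
    apply Submodule.finrank_mono
    rintro x ⟨hx1, hx2⟩
    refine ⟨hx1, ?_⟩
    have h1 : R (g * x) * e = 0 := by
      rw [← hTa]
      exact hx2
    have h2 := D.Rjp_of h1
    rw [hjp x hx1] at h2
    exact h2
  have d7 : (Wsub F e g n).map T ≤ Ce := by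
    rintro _ ⟨x, hx, rfl⟩
    rw [hTa, hCe]
    exact D.Re_mem _
  have d8 : (Wsub F e g n).map T = Ce := Submodule.eq_of_le_of_finrank_le d7 (by omega)
  have d9 : R g * e ∈ (Wsub F e g n).map T := by
    rw [d8, hCe]
    exact D.Re_mem g
  obtain ⟨w1, hw1, hw2⟩ := d9
  rw [hTa] at hw2
  have h1 : R (g - g * w1) * e = 0 := by
    rw [map_sub, sub_mul, hw2, sub_self]
  have h2 := D.Rjp_of h1
  have h3 : jp e (g - g * w1) = jp e g - jp e (g * w1) := by
    unfold jp
    noncomm_ring
  rw [h3, hjp w1 hw1, map_sub, D.hRg] at h2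
  exact D.not_Rw hw1 (sub_eq_zero.1 h2).symm

theorem RW' (z : A) : R (e * z * n) = 0 := D.RW (D.W_mem z)

/-- `R(n A n) = 0`. -/
theorem Rnn (x : A) : R (n * x * n) = 0 := by
  obtain ⟨q, hq⟩ : ∃ q, q = n * x * n := ⟨_, rfl⟩
  obtain ⟨s, hs⟩ : ∃ s, s = R q := ⟨_, rfl⟩
  have h1 : s * s = 0 := by
    obtain ⟨z1, hz1⟩ := D.sn q
    obtain ⟨z2, hz2⟩ := D.ns q
    rw [hs, D.sqR]
    have h2 : jp (R q) q = e * (z1 * x) * n + n * x * z2 * e := by
      unfold jp
      nth_rewrite 2 [hq]
      nth_rewrite 2 [hq]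
      have h3 : R q * (n * x * n) + n * x * n * R q = R q * n * x * n + n * x * (n * R q) := by
        noncomm_ring
      rw [h3, hz1, hz2]
      noncomm_ring
    have h4 : R (n * x * z2 * e) = 0 := by
      rw [← D.hRσ, σ.map_mul, σ.map_mul, σ.map_mul, D.hes, D.hns]
      have h5 : e * (σ.f z2 * (σ.f x * n)) = e * (σ.f z2 * σ.f x) * n := by noncomm_ring
      rw [h5, D.RW']
    rw [h2, map_add, D.RW', h4, add_zero]
  have h2 : s = e * (g * s * g) * e := by
    rw [hs] at h1 ⊢
    exact D.sq_zero_mem q h1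
  have h3 := D.h η q
  rw [D.hRη, ← hs] at h3
  have h4 : jp π q = 0 := by
    unfold jp
    rw [hq]
    have h5 : π * (n * x * n) + n * x * n * π = (π * n) * x * n + n * x * (n * π) := by
      noncomm_ring
    rw [h5, D.hπn, D.hnπ]
    noncomm_ring
  have h5 : jp η s = e * (g * s * g * e * η) * n := by
    unfold jp
    nth_rewrite 1 [h2]
    nth_rewrite 2 [h2]
    have h6 : η * (e * (g * s * g) * e) + e * (g * s * g) * e * η =
        (η * e) * (g * s * g) * e + e * (g * s * g * e * η) := by noncomm_ring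
    rw [h6, D.η_e, zero_mul, zero_mul, zero_add]
    nth_rewrite 1 [← D.hηn]
    noncomm_ring
  rw [h4, h5, zero_add, D.RW'] at h3
  have h6 : jp π s = (2 : F) • s := by
    unfold jp
    rw [h2]
    have h7 : π * (e * (g * s * g) * e) + e * (g * s * g) * e * π =
        (π * e) * (g * s * g) * e + e * (g * s * g) * (e * π) := by noncomm_ring
    rw [h7, D.hπe, D.heπ, two_smul]
  rw [h6] at h3
  rw [← hq, ← hs]
  exact (smul_eq_zero.1 h3).resolve_left two_ne_zero

omit [Nontrivial A] [FiniteDimensional F A] in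
theorem eA_closed (z z' : A) : ∃ z'', jp (R (e * z)) (R (e * z')) = R (e * z'') := by
  obtain ⟨a, ha⟩ := D.hse (e * z)
  obtain ⟨b, hb⟩ := D.hse (e * z')
  refine ⟨a * z' + z' * R (e * z) + z * R (e * z') + b * z, ?_⟩
  rw [D.h]
  congr 1
  unfold jp
  have h1 : R (e * z) * (e * z') + e * z' * R (e * z) +
      (e * z * R (e * z') + R (e * z') * (e * z)) =
      R (e * z) * e * z' + e * z' * R (e * z) + (e * z * R (e * z') + R (e * z') * e * z) := by
    noncomm_ring
  rw [h1, ha, hb]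
  noncomm_ring

theorem eA_pow (z : A) (k : ℕ) : ∃ z', R (e * z) ^ (k + 1) = R (e * z') := by
  induction k with
  | zero => exact ⟨z, by rw [zero_add, pow_one]⟩
  | succ k ih =>
    obtain ⟨z', hz'⟩ := ih
    obtain ⟨z'', hz''⟩ := D.eA_closed z z'
    refine ⟨(2⁻¹ : F) • z'', ?_⟩
    rw [mul_smul_comm, map_smul, ← hz'', ← hz']
    have h1 : jp (R (e * z)) (R (e * z) ^ (k + 1)) = (2 : F) • R (e * z) ^ (k + 1 + 1) := by
      unfold jp
      rw [← pow_succ, ← pow_succ', two_smul]
    rw [h1, smul_smul, inv_mul_cancel₀ two_ne_zero, one_smul]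

theorem eA_aeval (z : A) (P : Polynomial F) :
    ∃ z', Polynomial.aeval (R (e * z)) (Polynomial.X * P) = R (e * z') := by
  induction P using Polynomial.induction_on' with
  | add f g hf hg =>
    obtain ⟨z1, h1⟩ := hf
    obtain ⟨z2, h2⟩ := hg
    refine ⟨z1 + z2, ?_⟩
    rw [mul_add, map_add, h1, h2, mul_add, map_add]
  | monomial k a =>
    obtain ⟨z', hz'⟩ := D.eA_pow z k
    refine ⟨a • z', ?_⟩
    rw [mul_smul_comm, map_smul, ← hz', Polynomial.X_mul_monomial, Polynomial.aeval_monomial,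
      Algebra.smul_def]

/-- `R(e A) e = 0`. -/
theorem Rez_e (z : A) : R (e * z) * e = 0 := by
  by_contra h0
  obtain ⟨a, ha⟩ := D.hse (e * z)
  rw [ha] at h0
  obtain ⟨w, hw⟩ := D.hmin a h0
  rw [← ha] at hw
  obtain ⟨P, hP1, hP2⟩ := exists_idem_fix (F := F) (R (e * z)) (Algebra.IsIntegral.isIntegral _)
    hw.symm
  obtain ⟨z', hz'⟩ := D.eA_aeval z P
  obtain ⟨t, ht⟩ : ∃ t, t = R (e * z') := ⟨_, rfl⟩
  rw [hz', ← ht] at hP1 hP2
  have h1 := D.sqR (e * z')
  have h2 : jp t (e * z') = e * z' + e * z' * t := by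
    unfold jp
    rw [← mul_assoc, hP2]
  rw [← ht, hP1, h2, map_add, ← ht] at h1
  have h3 : R (e * z' * t) = 0 := by
    have h4 : t - t = t + R (e * z' * t) - t := by rw [← h1]
    rw [sub_self, add_sub_cancel_left] at h4
    exact h4.symm
  have h4 : R (e * z' * (1 - t)) = 0 := by
    obtain ⟨w', hw'⟩ : ∃ w', w' = e * z' * (1 - t) := ⟨_, rfl⟩
    have hw'e : w' * e = 0 := by
      rw [hw', mul_assoc, sub_mul, one_mul, hP2, sub_self, mul_zero]
    have h5 : w' = e * (z' * (1 - t) * g) * e + e * (z' * (1 - t)) * n := by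
      calc w' = w' * π + w' * n := by rw [← mul_add, ← D.h1n, mul_one]
        _ = w' * g * e + w' * n := by
          have h6 : w' * π = w' * g * e := by
            rw [D.hπ]
            have h7 : w' * (e * g + g * e - e * g * (g * e)) =
                w' * e * g + w' * g * e - w' * e * g * (g * e) := by noncomm_ring
            rw [h7, hw'e]
            noncomm_ring
          rw [h6]
        _ = _ := by
          rw [hw']
          noncomm_ring
    rw [← hw', h5, map_add, D.hexe, D.RW', add_zero]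
  have h5 : t = 0 := by
    rw [ht]
    have h6 : e * z' = e * z' * t + e * z' * (1 - t) := by noncomm_ring
    rw [h6, map_add, h3, h4, add_zero]
  rw [h5, zero_mul] at hP2
  exact D.he0 hP2.symm

/-- `R(e A)` is contained in `e A e`. -/
theorem Rez_mem (z : A) : R (e * z) = e * (g * R (e * z) * g) * e := by
  apply D.sq_zero_mem
  obtain ⟨s, hs⟩ : ∃ s, s = R (e * z) := ⟨_, rfl⟩
  have hse : s * e = 0 := by rw [hs, D.Rez_e]
  have hes : e * s = 0 := by
    have h1 := congrArg σ.f hse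
    rwa [σ.map_mul, D.hes, hs, D.hσ, map_zero, ← hs] at h1
  obtain ⟨z', hz'⟩ := D.ns (e * z)
  rw [D.sqR, ← hs]
  rw [← hs] at hz'
  have h1 : jp s (e * z) = e * (z * e * (g * s * g)) * e + e * (z * π * s) * n +
      e * (z * z') * e := by
    unfold jp
    have h2 : s * (e * z) + e * z * s = s * e * z + e * z * s := by noncomm_ring
    have hpp : π * s * π = e * (g * s * g) * e := by
      rw [D.hπ]
      exact plane_ker hes hse
    have hnn : n * s * n = 0 := by rw [hs, D.nn0]
    have hnsπ : n * s * π = z' * e := by rw [hz', mul_assoc, D.heπ]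
    rw [h2, hse, zero_mul, zero_add]
    nth_rewrite 1 [D.dec s]
    rw [hpp, hnn, hnsπ]
    noncomm_ring
  rw [h1, map_add, map_add, D.hexe, D.hexe, D.RW', add_zero, add_zero]

end WD

end Pool.Agent.MP_f4742e_al
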