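import Pool.Agent.Lib.MP_f4742e_al.G.WDimC

/-!
Rota-Baxter operators with `(R 1)^2 = 0` if the Witt index is one: the case `R(A) R(1) ≠ 0` is
impossible if there are no orthogonal idempotents killed by `e`.
-/

set_option autoImplicit false
set_option linter.unusedSectionVars false

namespace Pool.Agent.MP_f4742e_al

/-- The space `π A n`. -/
def Msub (F : Type*) {A : Type*} [Field F] [Ring A] [Algebra F A] (π n : A) :
    Submodule F A where
  carrier := {w | π * w = w ∧ w * n = w}
  add_mem' := by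
    rintro x y ⟨hx1, hx2⟩ ⟨hy1, hy2⟩
    exact ⟨by rw [mul_add, hx1, hy1], by rw [add_mul, hx2, hy2]⟩
  zero_mem' := ⟨by rw [mul_zero], zero_mul _⟩
  smul_mem' := by
    rintro c x ⟨hx1, hx2⟩
    exact ⟨by rw [mul_smul_comm, hx1], by rw [smul_mul_assoc, hx2]⟩

namespace WD

variable {F A : Type*} [Field F] [CharZero F] [Ring A] [Nontrivial A] [Algebra F A]
  [FiniteDimensional F A]
  {σ : Involution F A} {R : A →ₗ[F] A} {e g π n η : A} (D : WD σ R e g π n η)

include D

theorem M_e {m : A} (hm : m ∈ Msub F π n) : m * e = 0 := by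
  rw [← hm.2, mul_assoc, D.hne, mul_zero]

theorem M_π {m : A} (hm : m ∈ Msub F π n) : m * π = 0 := by
  rw [← hm.2, mul_assoc, D.hnπ, mul_zero]

theorem W_le : Wsub F e g n ≤ Msub F π n := by
  intro w hw
  refine ⟨?_, hw.2⟩
  rw [← hw.1, ← mul_assoc, D.hπe]

theorem eM_mem {m : A} (hm : m ∈ Msub F π n) : e * m ∈ Wsub F e g n := by
  have h1 := D.W_mem m
  rwa [mul_assoc, hm.2] at h1

theorem M_ker {m : A} (hm : m ∈ Msub F π n) : LinearMap.mulLeft F e m = 0 ↔
    m ∈ Wsub F e g n := by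
  constructor
  · intro h0
    have h0' : e * m = 0 := h0
    refine ⟨?_, hm.2⟩
    have h1 : π * m = e * (g * m) := by
      rw [D.hπ]
      have h2 : (e * g + g * e - e * g * (g * e)) * m =
          e * (g * m) + g * (e * m) - e * g * g * (e * m) := by noncomm_ring
      rw [h2, h0']
      noncomm_ring
    rw [← h1, hm.1]
  · intro hw
    change e * m = 0
    rw [← hw.1, ← mul_assoc, D.hee, zero_mul]

theorem map_M : (Msub F π n).map (LinearMap.mulLeft F e) = Wsub F e g n := by
  apply le_antisymm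
  · rintro _ ⟨m, hm, rfl⟩
    exact D.eM_mem hm
  · intro w hw
    refine ⟨π * (g * w), ⟨?_, ?_⟩, ?_⟩
    · rw [← mul_assoc, D.hππ]
    · rw [mul_assoc, mul_assoc, hw.2]
    · change e * (π * (g * w)) = w
      rw [← mul_assoc, D.heπ, hw.1]

theorem pp_n (x : A) : π * R x * π * n = 0 := by
  rw [mul_assoc, D.hπn, mul_zero]

theorem s_mem (x : A) {m : A} (hm : m ∈ Msub F π n) : π * R x * π * m ∈ Msub F π n := by
  refine ⟨?_, ?_⟩
  · rw [← mul_assoc, ← mul_assoc, ← mul_assoc, D.hππ]
  · rw [mul_assoc, hm.2]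

theorem E1 (z : A) : R (e * z) * e = 0 := D.Rez_e z

theorem E2 (z : A) : π * R (e * z) * n = 0 := by
  rw [D.Rez_mem]
  have h1 : π * (e * (g * R (e * z) * g) * e) * n = π * (e * (g * R (e * z) * g)) * (e * n) := by
    noncomm_ring
  rw [h1, D.hen, mul_zero]

/-- `M₀`: the elements of `π A n` with `R(m) e = 0`. -/
theorem mem_M0 {m : A} : m ∈ Msub F π n ⊓ ((LinearMap.mulRight F e).comp R).ker ↔
    m ∈ Msub F π n ∧ R m * e = 0 := Iff.rfl

theorem K_stab (x : A) {m : A} (hm : m ∈ Msub F π n) (h1 : R m * e = 0)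
    (h2 : π * R m * n = 0) :
    R (π * R x * π * m) * e = 0 ∧ π * R (π * R x * π * m) * n = 0 := by
  obtain ⟨z1, hz1⟩ := D.pp_mem x
  obtain ⟨s, hs⟩ : ∃ s, s = π * R x * π := ⟨_, rfl⟩
  obtain ⟨t, ht⟩ : ∃ t, t = R m := ⟨_, rfl⟩
  have hsn : s * n = 0 := by rw [hs, D.pp_n]
  have h1' : e * R m = 0 := by
    have h3 := congrArg σ.f h1
    rwa [σ.map_mul, D.hσ, D.hes, map_zero] at h3
  have hte : t = e * (g * t * g) * e := by
    have hpp : π * R m * π = e * (g * R m * g) * e := by
      rw [D.hπ]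
      exact plane_ker h1' h1
    have h3 := D.dec (R m)
    rw [hpp, h2, D.nn0, ← D.σk, h2, map_zero, add_zero, add_zero, add_zero] at h3
    rw [ht]
    exact h3
  have h3 := D.h z1 m
  rw [← hz1, ← hs, ← ht, map_add] at h3
  have hms : jp s m = s * m := by
    unfold jp
    have h4 : m * s = 0 := by
      rw [hs, ← mul_assoc, ← mul_assoc, D.M_π hm, zero_mul, zero_mul]
    rw [h4, add_zero]
  have hj : R (jp z1 t) = R (e * (g * t * g * e * σ.f z1)) + R (e * (g * t * g * e * z1)) := by
    unfold jp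
    rw [map_add]
    congr 1
    · rw [← D.hRσ, σ.map_mul]
      congr 1
      have h4 : σ.f t = t := by rw [ht, D.hσ]
      rw [h4]
      nth_rewrite 1 [hte]
      noncomm_ring
    · congr 1
      nth_rewrite 1 [hte]
      noncomm_ring
  rw [hms, hj] at h3
  have h4 : R (s * m) = jp s t - (R (e * (g * t * g * e * σ.f z1)) +
      R (e * (g * t * g * e * z1))) := by rw [h3]; abel
  rw [← hs, h4]
  constructor
  · rw [sub_mul, add_mul, D.E1, D.E1, add_zero, sub_zero]
    unfold jp
    have hte' : t * e = 0 := by rw [ht, h1]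
    have h5 : (s * t + t * s) * e = s * (t * e) + t * (s * e) := by noncomm_ring
    have hse : t * (s * e) = 0 := by
      have h6 : s * e = R x * e := by rw [hs, D.ppe]
      rw [h6, hte]
      have h7 : e * (g * t * g) * e * (R x * e) = e * (g * t * g) * (e * R x * e) := by
        noncomm_ring
      rw [h7, D.hese, mul_zero]
    rw [h5, hte', hse, mul_zero, add_zero]
  · rw [mul_sub, sub_mul, mul_add, add_mul, D.E2, D.E2, add_zero, sub_zero]
    unfold jp
    have h5 : π * (s * t + t * s) * n = π * s * (t * n) + π * t * (s * n) := by noncomm_ring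
    have htn : t * n = 0 := by
      rw [hte, mul_assoc, D.hen, mul_zero]
    rw [h5, htn, hsn, mul_zero, mul_zero, add_zero]

theorem G_stab (x : A) {m : A} (hm : m ∈ Msub F π n) (h1 : R m * e = 0) :
    ∃ m1 ∈ Msub F π n, R m1 * e = 0 ∧ π * R m1 * n = π * R x * π * (π * R m * n) := by
  obtain ⟨z1, hz1⟩ := D.pp_mem x
  obtain ⟨s, hs⟩ : ∃ s, s = π * R x * π := ⟨_, rfl⟩
  obtain ⟨r, hr⟩ : ∃ r, r = R m := ⟨_, rfl⟩
  obtain ⟨v, hv⟩ : ∃ v, v = z1 + σ.f z1 := ⟨_, rfl⟩
  obtain ⟨k, hk⟩ : ∃ k, k = π * r * n := ⟨_, rfl⟩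
  have hvs : σ.f v = v := by rw [hv, map_add, σ.invol, add_comm]
  have hrs : σ.f r = r := by rw [hr, D.hσ]
  have hsn : s * n = 0 := by rw [hs, D.pp_n]
  have hsπ : s * π = s := by rw [hs, mul_assoc, D.hππ]
  have hπs : π * s = s := by rw [hs, ← mul_assoc, ← mul_assoc, D.hππ]
  have h1' : e * R m = 0 := by
    have h3 := congrArg σ.f h1
    rwa [σ.map_mul, D.hσ, D.hes, map_zero] at h3
  have hpp : π * r * π = e * (g * r * g) * e := by
    rw [D.hπ, hr]
    exact plane_ker h1' h1
  have hnn : n * r * n = 0 := by rw [hr, D.nn0]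
  have hσk : σ.f k = n * r * π := by rw [hk, hr, D.σk]
  obtain ⟨kz, hkz⟩ := D.k_mem m
  rw [← hr, ← hk] at hkz
  refine ⟨s * m + π * (v * k), ?_, ?_⟩
  · refine Submodule.add_mem _ ?_ ⟨?_, ?_⟩
    · rw [hs]
      exact D.s_mem x hm
    · rw [← mul_assoc, D.hππ]
    · rw [hk]
      have h3 : π * (v * (π * r * n)) * n = π * (v * (π * r * (n * n))) := by noncomm_ring
      rw [h3, D.hnn]
  have h3 := D.h z1 m
  rw [← hz1, ← hs, ← hr, map_add] at h3
  have hms : jp s m = s * m := by
    unfold jp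
    have h4 : m * s = 0 := by
      rw [hs, ← mul_assoc, ← mul_assoc, D.M_π hm, zero_mul, zero_mul]
    rw [h4, add_zero]
  have hj : R (jp z1 r) = R (e * (g * r * g * e * v)) + R (e * (kz * v)) +
      R (π * (v * k)) := by
    have h4 : R (jp z1 r) = R (r * v) := by
      unfold jp
      rw [hv, mul_add, map_add, map_add, add_comm]
      congr 1
      rw [← D.hRσ, σ.map_mul, hrs]
    have h5 : r * v = e * (g * r * g * e * v) + e * (kz * v) + n * r * π * v := by
      nth_rewrite 1 [D.dec r]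
      rw [hpp, hnn, ← hk, hkz]
      noncomm_ring
    have h6 : R (n * r * π * v) = R (π * (v * k)) := by
      rw [← hσk, ← D.hRσ, σ.map_mul, σ.invol, hvs]
      have h7 : v * k = π * (v * k) + n * (v * (π * r)) * n := by
        calc v * k = (π + n) * (v * k) := by rw [← D.h1n, one_mul]
          _ = π * (v * k) + n * (v * k) := by rw [add_mul]
          _ = _ := by
            congr 1
            rw [hk]
            noncomm_ring
      nth_rewrite 1 [h7]
      rw [map_add, D.Rnn, add_zero]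
    rw [h4, h5, map_add, map_add, h6]
  rw [hms, hj] at h3
  have h4 : R (s * m + π * (v * k)) = jp s r - (R (e * (g * r * g * e * v)) +
      R (e * (kz * v))) := by
    rw [map_add, h3]
    abel
  rw [h4]
  constructor
  · rw [sub_mul, add_mul, D.E1, D.E1, add_zero, sub_zero]
    unfold jp
    have hre : r * e = 0 := by rw [hr, h1]
    obtain ⟨a, ha⟩ := D.hse x
    have hse : s * e = e * a := by rw [hs, D.ppe, ha]
    have h5 : (s * r + r * s) * e = s * (r * e) + r * (s * e) := by noncomm_ring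
    rw [h5, hse, hre, mul_zero, ← mul_assoc, hre, zero_mul, add_zero]
  · rw [mul_sub, sub_mul, mul_add, add_mul, D.E2, D.E2, add_zero, sub_zero]
    unfold jp
    have h5 : π * (s * r + r * s) * n = (π * s) * r * n + π * r * (s * n) := by noncomm_ring
    rw [h5, hπs, hsn, mul_zero, add_zero, ← hs, ← hr]
    nth_rewrite 1 [← hsπ]
    noncomm_ring

end WD

end Pool.Agent.MP_f4742e_al
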