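import Pool.Agent.Lib.MP_f4742e_al.G.WDimD

/-!
Rota-Baxter operators on `H(A, σ)` if the Witt index is one, any coefficient algebra.
-/

set_option autoImplicit false
set_option linter.unusedSectionVars false

namespace Pool.Agent.MP_f4742e_al

namespace WD

variable {F A : Type*} [Field F] [CharZero F] [Ring A] [Nontrivial A] [Algebra F A]
  [FiniteDimensional F A]
  {σ : Involution F A} {R : A →ₗ[F] A} {e g π n η : A} (D : WD σ R e g π n η)

include D

theorem absurd : False := by
  obtain ⟨Ce, hCe⟩ : ∃ Ce, Ce = (Subalgebra.toSubmodule (Calg R π)).map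
    (LinearMap.mulRight F e) := ⟨_, rfl⟩
  obtain ⟨W, hW⟩ : ∃ W, W = Wsub F e g n := ⟨_, rfl⟩
  obtain ⟨M, hM⟩ : ∃ M, M = Msub F π n := ⟨_, rfl⟩
  obtain ⟨T, hT⟩ : ∃ T : A →ₗ[F] A, T = (LinearMap.mulRight F e).comp R := ⟨_, rfl⟩
  obtain ⟨Γ, hΓ⟩ : ∃ Γ : A →ₗ[F] A, Γ = (LinearMap.mulLeft F π).comp
    ((LinearMap.mulRight F n).comp R) := ⟨_, rfl⟩
  have hTa : ∀ m, T m = R m * e := by
    intro m
    rw [hT]
    rfl
  have hΓa : ∀ m, Γ m = π * R m * n := by
    intro m
    rw [hΓ, mul_assoc]
    rfl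
  obtain ⟨M0, hM0⟩ : ∃ M0, M0 = M ⊓ T.ker := ⟨_, rfl⟩
  obtain ⟨Kg, hKg⟩ : ∃ Kg, Kg = M0 ⊓ Γ.ker := ⟨_, rfl⟩
  have memM0 : ∀ m, m ∈ M0 ↔ m ∈ M ∧ R m * e = 0 := by
    intro m
    rw [hM0, Submodule.mem_inf, LinearMap.mem_ker, hTa]
  have memKg : ∀ m, m ∈ Kg ↔ m ∈ M ∧ R m * e = 0 ∧ π * R m * n = 0 := by
    intro m
    rw [hKg, Submodule.mem_inf, LinearMap.mem_ker, memM0, hΓa, and_assoc]
  -- dimensions
  have c1 : Module.finrank F W + Module.finrank F W = Module.finrank F M := by
    have h1 := finrank_map_add (LinearMap.mulLeft F e) M W (by rw [hM, hW]; exact D.W_le)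
      (by
        intro m hm
        rw [hM] at hm
        rw [hW]
        exact D.M_ker hm)
    rwa [hM, D.map_M, ← hM, ← hW] at h1
  have c2 : Module.finrank F (M.map T) + Module.finrank F M0 = Module.finrank F M :=
    finrank_map_add T M M0 (by rw [hM0]; exact inf_le_left) (by
      intro m hm
      rw [memM0, hTa]
      exact ⟨fun h1 => ⟨hm, h1⟩, fun h1 => h1.2⟩)
  have c3 : Module.finrank F (M0.map Γ) + Module.finrank F Kg = Module.finrank F M0 :=
    finrank_map_add Γ M0 Kg (by rw [hKg]; exact inf_le_left) (by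
      intro m hm
      rw [memKg, hΓa]
      exact ⟨fun h1 => ⟨((memM0 m).1 hm).1, ((memM0 m).1 hm).2, h1⟩, fun h1 => h1.2.2⟩)
  have hWKg : W ≤ Kg := by
    intro w hw
    rw [hW] at hw
    have h1 := D.RW hw
    rw [memKg, h1]
    refine ⟨by rw [hM]; exact D.W_le hw, zero_mul _, by rw [mul_zero, zero_mul]⟩
  have c4 : Module.finrank F (Kg.map (LinearMap.mulLeft F e)) + Module.finrank F W =
      Module.finrank F Kg :=
    finrank_map_add (LinearMap.mulLeft F e) Kg W hWKg (by
      intro m hm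
      have h1 := ((memKg m).1 hm).1
      rw [hM] at h1
      rw [hW]
      exact D.M_ker h1)
  -- divisibility
  have d1 : Module.finrank F Ce ∣ Module.finrank F W := by
    rw [hCe, hW]
    exact finrank_dvd_left _ D.hmin _ (fun y hy => hy.1) D.W_C
  have d2 : Module.finrank F Ce ∣ Module.finrank F (M0.map Γ) := by
    rw [hCe]
    refine finrank_dvd_left (g := g) _ D.hmin _ ?_ (C_stab ?_)
    · rintro _ ⟨m, hm, rfl⟩
      obtain ⟨z, hz⟩ := D.k_mem m
      rw [hΓa, hz]
      have h1 : e * (g * (e * z)) = e * g * e * z := by noncomm_ring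
      rw [h1, D.hg]
    · rintro x _ ⟨m, hm, rfl⟩
      have h1 := (memM0 m).1 hm
      rw [hM] at h1
      obtain ⟨m1, hm1, hm2, hm3⟩ := D.G_stab x h1.1 h1.2
      refine ⟨m1, (memM0 m1).2 ⟨by rw [hM]; exact hm1, hm2⟩, ?_⟩
      rw [hΓa, hΓa, hm3]
  have hKgC : ∀ c ∈ Calg R π, ∀ m ∈ Kg, c * m ∈ Kg := by
    apply C_stab
    intro x m hm
    have h1 := (memKg m).1 hm
    rw [hM] at h1
    have h2 := D.K_stab x h1.1 h1.2.1 h1.2.2
    refine (memKg _).2 ⟨?_, h2.1, h2.2⟩
    rw [hM]
    exact D.s_mem x h1.1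
  have d3 : Module.finrank F Ce ∣ Module.finrank F (Kg.map (LinearMap.mulLeft F e)) := by
    rw [hCe, ← finrank_left_right σ (Calg R π) D.C_σ D.hes]
    refine finrank_dvd_sharp _ D.hg D.hmin D.e_C _ ?_ ?_
    · rintro _ ⟨m, hm, rfl⟩
      change e * (g * (e * m)) = e * m
      have h1 : e * (g * (e * m)) = e * g * e * m := by noncomm_ring
      rw [h1, D.hg]
    · rintro c hc _ ⟨m, hm, rfl⟩
      refine ⟨c * m, hKgC c hc m hm, ?_⟩
      change e * (c * m) = e * c * g * (e * m)
      obtain ⟨z, hz⟩ := D.e_C c hc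
      have h1 : e * c * g * (e * m) = e * c * (g * e * m) := by noncomm_ring
      rw [h1, ← mul_assoc, hz]
      have h2 : z * e * (g * e * m) = z * (e * g * e) * m := by noncomm_ring
      rw [h2, D.hg]
  have d4 : Module.finrank F Ce ∣ Module.finrank F (M.map T) := by
    have h1 : Module.finrank F (M.map T) + (Module.finrank F (M0.map Γ) +
        Module.finrank F (Kg.map (LinearMap.mulLeft F e))) = Module.finrank F W := by omega
    rw [← h1] at d1
    exact (Nat.dvd_add_left (Nat.dvd_add d2 d3)).1 d1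
  have d5 : M.map T ≤ Ce := by
    rintro _ ⟨x, hx, rfl⟩
    rw [hTa, hCe]
    exact D.Re_mem _
  have d6 : 0 < Module.finrank F (M.map T) := by
    rw [Nat.pos_iff_ne_zero]
    intro h0
    rw [Submodule.finrank_eq_zero] at h0
    have h1 : T η ∈ M.map T := ⟨η, by rw [hM]; exact ⟨D.hη, D.hηn⟩, rfl⟩
    rw [h0, Submodule.mem_bot, hTa, D.hRη, D.hπe] at h1
    exact D.he0 h1
  have d7 : M.map T = Ce := Submodule.eq_of_le_of_finrank_le d5 (Nat.le_of_dvd d6 d4)
  have d8 : R g * e ∈ M.map T := by
    rw [d7, hCe]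
    exact D.Re_mem g
  obtain ⟨m, hm, hm2⟩ := d8
  rw [hTa] at hm2
  rw [hM] at hm
  have h1 : R (g - m) * e = 0 := by
    rw [map_sub, sub_mul, hm2, sub_self]
  have h2 := D.Rjp_of h1
  have h3 : jp e (g - m) = jp e g - e * m := by
    unfold jp
    have h4 : e * (g - m) + (g - m) * e = e * g + g * e - e * m - m * e := by noncomm_ring
    rw [h4, D.M_e hm, sub_zero]
  rw [h3, map_sub, D.hRg, D.RW (D.eM_mem hm), sub_zero] at h2
  exact D.he0 h2

end WD

section

variable {F A : Type*} [Field F] [CharZero F] [Ring A] [Nontrivial A] [Algebra F A]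
  [FiniteDimensional F A] (σ : Involution F A) {R : A →ₗ[F] A} (h : JRB R)

include h

/-- If `R(A) e ≠ 0` then there are orthogonal idempotents killed by `e`. -/
theorem w1_any (hσ : ∀ x, σ.f (R x) = R x) (hRσ : ∀ x, R (σ.f x) = R x) {e g0 : A}
    (he1 : R 1 = e) (he0 : e ≠ 0) (hee : e * e = 0) (hse : ∀ x, ∃ z, R x * e = e * z)
    (hese : ∀ x, e * R x * e = 0) (h3 : ∀ x, R (R (R x)) = 0)
    (han : ∀ y, e * y = 0 → σ.f y * y = 0 → ∃ z, y = e * z)
    (hexe : ∀ x, R (e * x * e) = 0) (hg0s : σ.f g0 = g0) (hg0 : e * g0 * e = e)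
    (hmin : ∀ z, e * z ≠ 0 → ∃ w, e * z * w = e) {x0 : A} (hx0 : R x0 * e ≠ 0)
    (hno : ∀ p q e : A, σ.f p = p → σ.f q = q → σ.f e = e → p ≠ 0 → q ≠ 0 → e ≠ 0 →
      p * p = p → q * q = q → e * e = 0 → p * q = 0 → e * p = 0 → e * q = 0 → False) :
    False := by
  have hes : σ.f e = e := by rw [← he1, hσ]
  obtain ⟨y, hππ, hπe, hπ1⟩ := w1_idem h hse hmin hx0
  obtain ⟨π, hπy⟩ : ∃ π, π = R y := ⟨_, rfl⟩
  rw [← hπy] at hππ hπe hπ1
  have hπs : σ.f π = π := by rw [hπy, hσ]
  have heπ : e * π = e := by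
    have h1 := congrArg σ.f hπe
    rwa [σ.map_mul, hes, hπs] at h1
  obtain ⟨g, hgs, hg, hπ⟩ := exists_plane σ (π := π) hes he0 hee hg0s hg0 hπs hππ hπe hπ1 hno
  obtain ⟨n, hn⟩ : ∃ n, n = 1 - π := ⟨_, rfl⟩
  have hen : e * n = 0 := by rw [hn, mul_sub, mul_one, heπ, sub_self]
  have hne : n * e = 0 := by rw [hn, sub_mul, one_mul, hπe, sub_self]
  have hnn : n * n = n := by
    rw [hn, sub_mul, one_mul, mul_sub, mul_one, hππ, sub_self, sub_zero]
  have hπn : π * n = 0 := by rw [hn, mul_sub, mul_one, hππ, sub_self]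
  have hnπ : n * π = 0 := by rw [hn, sub_mul, one_mul, hππ, sub_self]
  have h1n : (1 : A) = π + n := by rw [hn]; abel
  have hKπ : ∀ k, R k = 0 → R (jp π k) = 0 := by
    intro k hk
    rw [hπy]
    exact K0 h hk y
  -- the half space part of `y`
  have hyk : R (y - jp π y) = 0 := by
    have h1 := h y y
    rw [← hπy, map_add, jp_comm y π] at h1
    have h2 : jp π π = (2 : F) • π := by
      unfold jp
      rw [hππ, two_smul]
    rw [h2, ← two_smul F] at h1
    rw [map_sub, ← hπy, ← smul_right_injective A (two_ne_zero (α := F)) h1, sub_self]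
  have hydec : y = π * y * π + (π * y * n + n * y * π) + n * y * n := by
    calc y = 1 * y * 1 := by rw [one_mul, mul_one]
      _ = (π + n) * y * (π + n) := by rw [← h1n]
      _ = _ := by noncomm_ring
  have hk1 : y - jp π y = n * y * n - π * y * π := by
    have h2 : jp π y = (2 : F) • (π * y * π) + (π * y * n + n * y * π) := by
      unfold jp
      conv_lhs => rw [hydec]
      rw [two_smul]
      have h3 : π * (π * y * π + (π * y * n + n * y * π) + n * y * n) +
          (π * y * π + (π * y * n + n * y * π) + n * y * n) * π =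
          π * π * y * π + π * π * y * n + (π * n) * y * π + (π * n) * y * n +
          (π * y * (π * π) + π * y * (n * π) + n * y * (π * π) + n * y * (n * π)) := by
        noncomm_ring
      rw [h3, hππ, hπn, hnπ]
      noncomm_ring
    rw [h2, two_smul]
    generalize π * y * π = a at hydec ⊢
    generalize π * y * n + n * y * π = b at hydec ⊢
    generalize n * y * n = c at hydec ⊢
    rw [hydec]
    abel
  have hk2 : R (π * y * π) = 0 := by
    have h1 := hKπ _ hyk
    rw [hk1] at h1
    have h2 : jp π (n * y * n - π * y * π) = (-2 : F) • (π * y * π) := by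
      unfold jp
      have h3 : π * (n * y * n - π * y * π) + (n * y * n - π * y * π) * π =
          (π * n) * y * n - π * π * y * π + (n * y * (n * π) - π * y * (π * π)) := by
        noncomm_ring
      rw [h3, hππ, hπn, hnπ, neg_smul, two_smul]
      noncomm_ring
    rw [h2, map_smul] at h1
    exact (smul_eq_zero.1 h1).resolve_left (neg_ne_zero.2 two_ne_zero)
  have hk3 : R (n * y * n) = 0 := by
    rw [hk1, map_sub, hk2, sub_zero] at hyk
    exact hyk
  obtain ⟨y', hy'⟩ : ∃ y', y' = π * y * n + n * y * π := ⟨_, rfl⟩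
  have hRy' : R y' = π := by
    have h1 : R y = R (π * y * π) + R y' + R (n * y * n) := by
      rw [← map_add, ← map_add, hy', ← hydec]
    rw [hk2, hk3, zero_add, add_zero] at h1
    rw [← h1, ← hπy]
  -- `R n = 0`
  have hRn : R n = 0 := by
    have h1 := h 1 y'
    have h2 : jp e π = (2 : F) • e := by
      unfold jp
      rw [heπ, hπe, two_smul]
    rw [he1, hRy', h2, one_jp, map_add, map_add] at h1
    have h3 : e = R π + R n := by rw [← map_add, ← h1n, he1]
    have h4 : R (jp e y' - (2 : F) • n) = 0 := by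
      rw [map_sub, map_smul, two_smul]
      have h5 : R (jp e y') = (2 : F) • e - (R π + R π) := by rw [h1]; abel
      rw [h5, two_smul]
      nth_rewrite 1 [h3]
      nth_rewrite 1 [h3]
      abel
    have h5 := hKπ _ h4
    have h6 : jp e y' = e * y * n + n * y * e := by
      unfold jp
      rw [hy']
      have h7 : e * (π * y * n + n * y * π) + (π * y * n + n * y * π) * e =
          (e * π) * y * n + (e * n) * y * π + (π * y * (n * e) + n * y * (π * e)) := by
        noncomm_ring
      rw [h7, heπ, hen, hne, hπe]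
      noncomm_ring
    have h7 : jp π (jp e y' - (2 : F) • n) = jp e y' := by
      rw [jp_sub, jp_smul]
      have h8 : jp π n = 0 := by
        unfold jp
        rw [hπn, hnπ, add_zero]
      rw [h8, smul_zero, sub_zero, h6]
      unfold jp
      have h9 : π * (e * y * n + n * y * e) + (e * y * n + n * y * e) * π =
          (π * e) * y * n + (π * n) * y * e + (e * y * (n * π) + n * y * (e * π)) := by
        noncomm_ring
      rw [h9, hπe, hπn, hnπ, heπ]
      noncomm_ring
    rw [h7] at h5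
    rw [map_sub, h5, zero_sub, neg_eq_zero, map_smul] at h4
    exact (smul_eq_zero.1 h4).resolve_left two_ne_zero
  have hRπ : R π = e := by
    have h1 : R 1 = R π + R n := by rw [← map_add, ← h1n]
    rw [he1, hRn, add_zero] at h1
    exact h1.symm
  have hns : σ.f n = n := by rw [hn, map_sub, σ.f_one, hπs]
  obtain ⟨η, hη⟩ : ∃ η, η = π * y * n + π * σ.f y * n := ⟨_, rfl⟩
  have hRη : R η = π := by
    rw [← hRy', hy', hη, map_add, map_add]
    congr 1
    rw [← hRσ (n * y * π), σ.map_mul, σ.map_mul, hns, hπs, mul_assoc]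
  exact WD.absurd (σ := σ) (R := R) (e := e) (g := g) (π := π) (n := n) (η := η)
    { h := h
      hσ := hσ
      hRσ := hRσ
      he1 := he1
      he0 := he0
      hee := hee
      hes := hes
      hse := hse
      hese := hese
      hexe := hexe
      hmin := hmin
      han := han
      hno := hno
      h3 := h3
      hgs := hgs
      hg := hg
      hπ := hπ
      h1n := h1n
      hππ := hππ
      hnn := hnn
      hπn := hπn
      hnπ := hnπ
      hπs := hπs
      hns := hns
      hπe := hπe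
      heπ := heπ
      hen := hen
      hne := hne
      hη := by
        rw [hη, mul_add, ← mul_assoc, ← mul_assoc, hππ, ← mul_assoc, ← mul_assoc, hππ]
      hηn := by
        rw [hη, add_mul, mul_assoc, hnn, mul_assoc (π * σ.f y), hnn]
      hRη := hRη
      hRn := hRn
      hRπ := hRπ
      hRg := by
        have h3 : jp e g = π + e * (g * g) * e := by
          rw [hπ]
          unfold jp
          noncomm_ring
        rw [h3, map_add, hexe, add_zero, hRπ] }

end

end Pool.Agent.MP_f4742e_al
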