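import Pool.Agent.Lib.MP_f4742e_al.G.WDimE

/-!
The RB-index of `H(A, σ)` if the Witt index is at most one, and the general bounds.
-/

set_option autoImplicit false

namespace Pool.Agent.MP_f4742e_al

open Polynomial

section

variable {F A : Type*} [Field F] [CharZero F] [Ring A] [Nontrivial A] [Algebra F A]
  [FiniteDimensional F A] [IsSemisimpleRing A] {σ : Involution F A}

theorem w1_ext_any (hw : σ.IsWittIndex 1) {R : A →ₗ[F] A} (h : JRB R) (hσ : ∀ x, σ.f (R x) = R x)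
    (hRσ : ∀ x, R (σ.f x) = R x)
    (hno : ∀ p q e : A, σ.f p = p → σ.f q = q → σ.f e = e → p ≠ 0 → q ≠ 0 → e ≠ 0 →
      p * p = p → q * q = q → e * e = 0 → p * q = 0 → e * p = 0 → e * q = 0 → False) :
    R ^ 2 = 0 := by
  obtain ⟨m, hm, hm0, hm1⟩ := exists_index h.nilpotent_one one_ne_zero
  by_cases hm2 : m < 2
  · exact pow_zero_of_le h hm0 (by omega)
  have hmw : m - 1 ≤ 1 := by
    obtain ⟨I, hI, hh⟩ := exists_iso σ h hσ (by omega) hm0 hm1
    obtain ⟨J, hJ, hJl⟩ := exists_chain hh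
    exact hw.2 ⟨J, hJ, by rw [hJl]; exact hI⟩
  have hm3 : m = 2 := by omega
  subst hm3
  have hmin : ∀ z : A, (R 1) ^ (2 - 1) * z ≠ 0 → ∃ w, (R 1) ^ (2 - 1) * z * w = (R 1) ^ (2 - 1) := by
    by_contra hcon
    push Not at hcon
    obtain ⟨z, hz, hw'⟩ := hcon
    have h1 : rid ((R 1) ^ (2 - 1) * z) < rid ((R 1) ^ (2 - 1)) := by
      refine lt_of_le_of_ne ?_ ?_
      · intro y hy
        obtain ⟨w, rfl⟩ := mem_rid.1 hy
        rw [mul_assoc]
        exact mul_mem_rid _ _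
      · intro h2
        have h3 := self_mem_rid ((R 1) ^ (2 - 1))
        rw [← h2] at h3
        obtain ⟨w, h4⟩ := mem_rid.1 h3
        exact hw' w h4.symm
    obtain ⟨I, hI, hh⟩ := exists_iso_nonmin σ h hσ le_rfl hm0 hm1 (bot_lt_rid hz) h1
    obtain ⟨J, hJ, hJl⟩ := exists_chain hh
    have h5 : 2 ≤ 1 := hw.2 ⟨J, hJ, by rw [hJl]; exact hI⟩
    omega
  have hese := ese_zero h le_rfl hm0 hm1 hmin
  have hexe : ∀ x, R ((R 1) ^ (2 - 1) * x * (R 1) ^ (2 - 1)) = 0 := by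
    intro x
    rw [R_exe h le_rfl hm0, hese]
  have h21 : 2 - 1 = 1 := rfl
  rw [h21, pow_one] at hmin hm1
  simp only [h21, pow_one] at hese hexe
  obtain ⟨e, he⟩ : ∃ e, R 1 = e := ⟨_, rfl⟩
  rw [he] at hmin hm1 hm0
  simp only [he] at hese hexe
  rw [pow_two] at hm0
  have hes : σ.f e = e := by rw [← he, hσ]
  have han := anis_of_witt_one hw hes hm1 hm0
  obtain ⟨g, hg⟩ := exists_reg e
  obtain ⟨g0, hg0⟩ : ∃ g0, g0 = (2⁻¹ : F) • (g + σ.f g) := ⟨_, rfl⟩
  have hg0s : σ.f g0 = g0 := by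
    rw [hg0, map_smul, map_add, σ.invol, add_comm]
  have hgg : e * g0 * e = e := by
    have h1 : e * σ.f g * e = e := by
      have h2 := congrArg σ.f hg
      rw [σ.map_mul, σ.map_mul, hes, ← mul_assoc] at h2
      exact h2
    rw [hg0, mul_smul_comm, smul_mul_assoc, mul_add, add_mul, hg, h1, ← two_smul F, smul_smul,
      inv_mul_cancel₀ two_ne_zero, one_smul]
  have hse := w1_se σ h hσ hes hese han
  apply LinearMap.ext
  intro x
  rw [pow_two, Module.End.mul_apply, LinearMap.zero_apply]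
  by_cases hZ : ∀ x, R x * e = 0
  · by_cases hnil : ∀ x, IsNilpotent (R x)
    · exact w1_nil σ h hσ he hm0 hZ hexe han hg0s hgg hnil x
    · push Not at hnil
      obtain ⟨x0, hx0⟩ := hnil
      exact w1_nonnil σ h hσ he hm1 hm0 hZ hexe hg0s hgg hx0 hno x
  · exfalso
    push Not at hZ
    obtain ⟨x0, hx0⟩ := hZ
    have h3 : ∀ x, R (R (R x)) = 0 := by
      intro x
      have h4 := LinearMap.congr_fun (upper_ext_one hw le_rfl h hσ) x
      rw [show 2 * 1 + 1 = 3 from rfl, pow_succ, pow_two, Module.End.mul_apply,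
        Module.End.mul_apply, LinearMap.zero_apply] at h4
      exact h4
    exact w1_any σ h hσ hRσ he hm1 hm0 hse hese h3 han hexe hg0s hgg hmin hx0 hno

/-- `R^2 = 0` on `H(A, σ)` if the Witt index is one and there are no orthogonal idempotents
killed by a square zero element. -/
theorem w1_H_any (hw : σ.IsWittIndex 1) {R : σ.H →ₗ[F] σ.H} (hR : IsRotaBaxter R)
    (hno : ∀ p q e : A, σ.f p = p → σ.f q = q → σ.f e = e → p ≠ 0 → q ≠ 0 → e ≠ 0 →
      p * p = p → q * q = q → e * e = 0 → p * q = 0 → e * p = 0 → e * q = 0 → False) :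
    R ^ 2 = 0 :=
  σ.pow_eq_zero_of_ext (w1_ext_any hw (σ.ext_jrb hR) (σ.ext_sym R) (σ.ext_f R) hno)

omit [FiniteDimensional F A] in
/-- A symmetric element of square zero gives a symmetric idempotent. -/
theorem exists_idem_of_sq_zero {e : A} (hes : σ.f e = e) (he0 : e ≠ 0) (hee : e * e = 0) :
    ∃ p, σ.f p = p ∧ p * p = p ∧ p ≠ 0 ∧ p ≠ 1 := by
  obtain ⟨g, hg⟩ := exists_reg e
  obtain ⟨g0, hg0⟩ : ∃ g0, g0 = (2⁻¹ : F) • (g + σ.f g) := ⟨_, rfl⟩
  have hg0s : σ.f g0 = g0 := by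
    rw [hg0, map_smul, map_add, σ.invol, add_comm]
  have hgg : e * g0 * e = e := by
    have h1 : e * σ.f g * e = e := by
      have h2 := congrArg σ.f hg
      rw [σ.map_mul, σ.map_mul, hes, ← mul_assoc] at h2
      exact h2
    rw [hg0, mul_smul_comm, smul_mul_assoc, mul_add, add_mul, hg, h1, ← two_smul F, smul_smul,
      inv_mul_cancel₀ two_ne_zero, one_smul]
  obtain ⟨π, hπ⟩ : ∃ π, π = e * g0 + g0 * e - e * g0 * (g0 * e) := ⟨_, rfl⟩
  have hππ : π * π = π := by rw [hπ]; exact plane_idem hee hgg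
  have hπe : π * e = e := by rw [hπ]; exact plane_e hee hgg
  have hπs : σ.f π = π := by rw [hπ]; exact plane_sym σ hes hg0s
  by_cases h1 : π = 1
  swap
  · refine ⟨π, hπs, hππ, ?_, h1⟩
    intro h0
    rw [h0, zero_mul] at hπe
    exact he0 hπe.symm
  -- `π = 1`
  obtain ⟨P, hP⟩ : ∃ P, P = e * g0 := ⟨_, rfl⟩
  obtain ⟨Q, hQ⟩ : ∃ Q, Q = g0 * e := ⟨_, rfl⟩
  have hPP : P * P = P := by
    rw [hP]
    calc e * g0 * (e * g0) = e * g0 * e * g0 := by noncomm_ring
      _ = e * g0 := by rw [hgg]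
  have hQQ : Q * Q = Q := by
    rw [hQ]
    calc g0 * e * (g0 * e) = g0 * (e * g0 * e) := by noncomm_ring
      _ = g0 * e := by rw [hgg]
  have hQP : Q * P = 0 := by
    rw [hP, hQ]
    calc g0 * e * (e * g0) = g0 * (e * e) * g0 := by noncomm_ring
      _ = 0 := by rw [hee, mul_zero, zero_mul]
  have hPs : σ.f P = Q := by rw [hP, hQ, σ.map_mul, hes, hg0s]
  have hQs : σ.f Q = P := by rw [← hPs, σ.invol]
  have hone : P + Q - P * Q = 1 := by rw [hP, hQ, ← hπ, h1]
  obtain ⟨p1, hp1⟩ : ∃ p1, p1 = P - (2⁻¹ : F) • (P * Q) := ⟨_, rfl⟩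
  obtain ⟨p2, hp2⟩ : ∃ p2, p2 = Q - (2⁻¹ : F) • (P * Q) := ⟨_, rfl⟩
  have hp1s : σ.f p1 = p2 := by
    rw [hp1, hp2, map_sub, map_smul, σ.map_mul, hPs, hQs]
  have hp2s : σ.f p2 = p1 := by rw [← hp1s, σ.invol]
  have hp12 : p1 + p2 = 1 := by
    rw [← hone, hp1, hp2]
    have h2 : P - (2⁻¹ : F) • (P * Q) + (Q - (2⁻¹ : F) • (P * Q)) =
        P + Q - ((2⁻¹ : F) • (P * Q) + (2⁻¹ : F) • (P * Q)) := by abel
    rw [h2, ← add_smul, ← two_mul, mul_inv_cancel₀ two_ne_zero, one_smul]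
  have hPe : P * e = e := by rw [hP, hgg]
  have hp1e : p1 * e = e := by
    rw [hp1, sub_mul, hPe, smul_mul_assoc]
    have h2 : P * Q * e = 0 := by rw [hQ, mul_assoc, mul_assoc, hee, mul_zero, mul_zero]
    rw [h2, smul_zero, sub_zero]
  have hep2 : e * p2 = e := by
    have h2 := congrArg σ.f hp1e
    rwa [σ.map_mul, hp1s, hes] at h2
  have hp11 : p1 * p1 = p1 := by
    rw [hp1, sub_mul, mul_sub, mul_sub, smul_mul_assoc, mul_smul_comm, smul_mul_assoc,
      mul_smul_comm, hPP]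
    have h2 : P * (P * Q) = P * Q := by rw [← mul_assoc, hPP]
    have h3 : P * Q * P = 0 := by rw [mul_assoc, hQP, mul_zero]
    have h4 : P * Q * (P * Q) = 0 := by rw [← mul_assoc, h3, zero_mul]
    rw [h2, h3, h4]
    simp
  have hp1p2 : p1 * p2 = 0 := by
    have h2 : p2 = 1 - p1 := by rw [← hp12]; abel
    rw [h2, mul_sub, mul_one, hp11, sub_self]
  obtain ⟨f, hf⟩ : ∃ f, f = p2 * g0 * p1 := ⟨_, rfl⟩
  have hfs : σ.f f = f := by
    rw [hf, σ.map_mul, σ.map_mul, hp1s, hp2s, hg0s, mul_assoc]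
  have hef : e * f = p1 := by
    rw [hf, ← mul_assoc, ← mul_assoc, hep2, ← hP, hp1, mul_sub, mul_smul_comm, hPP,
      ← mul_assoc, hPP]
  have hfe : f * e = p2 := by
    have h2 := congrArg σ.f hef
    rwa [σ.map_mul, hfs, hes, hp1s] at h2
  have hff : f * f = 0 := by
    have h2 : f * f = p2 * g0 * (p1 * p2) * g0 * p1 := by
      rw [hf]
      noncomm_ring
    rw [h2, hp1p2, mul_zero, zero_mul, zero_mul]
  have hp1ne : p1 * p1 ≠ 0 := by
    rw [hp11]
    intro h2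
    rw [h2, zero_mul] at hp1e
    exact he0 hp1e.symm
  refine ⟨(2⁻¹ : F) • (1 + (e + f)), ?_, ?_, ?_, ?_⟩
  · rw [map_smul, map_add, map_add, σ.f_one, hes, hfs]
  · have h2 : (1 + (e + f)) * (1 + (e + f)) = (2 : F) • (1 + (e + f)) := by
      have h3 : (1 + (e + f)) * (1 + (e + f)) =
          1 + (e + f) + (e + f) + (e * e + e * f + (f * e + f * f)) := by noncomm_ring
      rw [h3, hee, hef, hfe, hff, zero_add, add_zero, hp12, two_smul]
      abel
    rw [smul_mul_assoc, mul_smul_comm, h2, smul_smul, smul_smul]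
    congr 1
    rw [mul_assoc, inv_mul_cancel₀ (two_ne_zero (α := F)), mul_one]
  · intro h2
    have h3 : (1 : A) + (e + f) = 0 := by
      have h4 := (smul_eq_zero.1 h2)
      exact h4.resolve_left (inv_ne_zero two_ne_zero)
    have h4 : e * (1 + (e + f)) = 0 := by rw [h3, mul_zero]
    rw [mul_add, mul_add, mul_one, hee, hef, zero_add] at h4
    have h5 : p1 = -e := by
      rw [eq_neg_iff_add_eq_zero, add_comm]
      exact h4
    apply hp1ne
    rw [h5, neg_mul_neg, hee]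
  · intro h2
    have h3 : (1 : A) + (e + f) = (2 : F) • 1 := by
      have h6 := congrArg (fun t => (2 : F) • t) h2
      simp only [smul_smul, mul_inv_cancel₀ (two_ne_zero (α := F)), one_smul] at h6
      exact h6
    have h4 : e * (1 + (e + f)) = (2 : F) • e := by rw [h3, mul_smul_comm, mul_one]
    rw [mul_add, mul_add, mul_one, hee, hef, zero_add, two_smul] at h4
    have h5 : p1 = e := add_left_cancel h4
    apply hp1ne
    rw [h5, hee]

/-- `R = 0` if there are no idempotents other than `0` and `1`. -/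
theorem zero_of_no_idem (hid : ∀ p : A, σ.f p = p → p * p = p → p = 0 ∨ p = 1)
    {R : σ.H →ₗ[F] σ.H} (hR : IsRotaBaxter R) : R = 0 := by
  have hnil : ∀ q : A, σ.f q = q → IsNilpotent q → q = 0 := by
    intro q hq hqn
    obtain ⟨m, hm, hm0, hm1⟩ := exists_index hqn one_ne_zero
    by_cases hm2 : m < 2
    · have : m = 1 := by omega
      rw [this, pow_one] at hm0
      exact hm0
    · exfalso
      obtain ⟨p, h1, h2, h3, h4⟩ := exists_idem_of_sq_zero (σ := σ) (e := q ^ (m - 1))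
        (σ.f_pow hq _) hm1 (by
          rw [← pow_add]
          exact pow_eq_zero_of_le (by omega) hm0)
      rcases hid p h1 h2 with h5 | h5
      · exact h3 h5
      · exact h4 h5
  obtain ⟨S, hS⟩ : ∃ S, S = σ.ext R := ⟨_, rfl⟩
  have hJ : JRB S := by
    rw [hS]
    exact σ.ext_jrb hR
  have hsym : ∀ x, σ.f (S x) = S x := by
    intro x
    rw [hS]
    exact σ.ext_sym R x
  have h0 : S ^ 1 = 0 := by
    apply LinearMap.ext
    intro x
    rw [LinearMap.zero_apply]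
    by_contra hne
    obtain ⟨q, hq⟩ : ∃ q, q = (S ^ 1) x := ⟨_, rfl⟩
    rw [← hq] at hne
    have hqs : σ.f q = q := by
      rw [hq, pow_one, hsym]
    obtain ⟨P, hP1, hP2⟩ := exists_idem_ne (F := F) q (Algebra.IsIntegral.isIntegral q)
      (fun h => hne (hnil q hqs h))
    obtain ⟨z, hz⟩ := aeval_mem_range hJ 1 hq P
    have hps : σ.f (aeval q (X * P)) = aeval q (X * P) := by
      rw [hz, pow_one, hsym]
    have h1 := (hid _ hps hP1).resolve_left hP2
    have h2 := not_range hJ 0 (by rw [pow_zero]; exact one_ne_zero) z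
    apply h2
    rw [pow_zero, mul_zero, zero_add, ← hz, h1]
  have h1 : R ^ 1 = 0 := σ.pow_eq_zero_of_ext (by rw [← hS]; exact h0)
  rw [pow_one] at h1
  exact h1

end

section

variable {F A : Type*} [Field F] [CharZero F] [Ring A] [Algebra F A]
  [FiniteDimensional F A] [IsSimpleRing A] {σ : Involution F A}

/-- Bounds for the RB-index by the Witt index, exact values if it is at most one. -/
theorem general_bounds_full {w : ℕ} (hw : σ.IsWittIndex w) :
    ∃ r, HasRBIndex F σ.H r ∧ 2 * w - 1 ≤ r ∧ r ≤ max 2 (2 * w + 1) ∧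
      ((∃ p, σ.f p = p ∧ p * p = p ∧ p ≠ 0 ∧ p ≠ 1) → 2 ≤ r) ∧
      ((∀ p : A, σ.f p = p → p * p = p → p = 0 ∨ p = 1) → r = 1) ∧
      ((∃ p q e : A, σ.f p = p ∧ σ.f q = q ∧ σ.f e = e ∧ p ≠ 0 ∧ q ≠ 0 ∧ e ≠ 0 ∧
        p * p = p ∧ q * q = q ∧ e * e = 0 ∧ p * q = 0 ∧ e * p = 0 ∧ e * q = 0) → 3 ≤ r) ∧
      (w ≤ 1 → (¬ ∃ p q e : A, σ.f p = p ∧ σ.f q = q ∧ σ.f e = e ∧ p ≠ 0 ∧ q ≠ 0 ∧ e ≠ 0 ∧
        p * p = p ∧ q * q = q ∧ e * e = 0 ∧ p * q = 0 ∧ e * p = 0 ∧ e * q = 0) → r ≤ 2) := by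
  obtain ⟨r, hr, h1, h2, h3, h4, -⟩ := general_bounds hw
  have hart : IsArtinianRing A := IsArtinianRing.of_finite F A
  refine ⟨r, hr, h1, h2, h3, ?_, h4, ?_⟩
  · intro hid
    have h5 : r ≤ 1 := by
      apply hr.2
      intro R hR
      rw [pow_one]
      exact zero_of_no_idem hid hR
    have hr1 : ∀ R : σ.H →ₗ[F] σ.H, IsRotaBaxter R → R ^ r = 0 := hr.1
    have h6 : r ≠ 0 := by
      intro h0
      have h7 := hr1 0 (by intro x y; simp)
      rw [h0, pow_zero] at h7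
      have h8 : ((⟨1, σ.f_one⟩ : σ.H) : A) = 0 := by
        have h9 := LinearMap.congr_fun h7 (⟨1, σ.f_one⟩ : σ.H)
        rw [Module.End.one_apply, LinearMap.zero_apply] at h9
        rw [h9]
        rfl
      exact one_ne_zero h8
    omega
  · intro hw1 hno
    rcases Nat.eq_zero_or_pos w with hw0 | hw0
    · rw [hw0] at h2
      exact le_trans h2 (by norm_num)
    · obtain rfl : w = 1 := by omega
      apply hr.2
      intro R hR
      apply w1_H_any hw hR
      intro p q e a1 a2 a3 a4 a5 a6 a7 a8 a9 a10 a11 a12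
      exact hno ⟨p, q, e, a1, a2, a3, a4, a5, a6, a7, a8, a9, a10, a11, a12⟩

end

end Pool.Agent.MP_f4742e_al
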