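import Pool.Agent.Lib.MP_f4742e_al.G.NonMin
import Pool.Agent.Lib.MP_f4742e_al.G.LemB
import Pool.Agent.Lib.MP_f4742e_al.Anis

/-!
Rota-Baxter operators with `(R 1)^2 = 0` if the Witt index is one: the case `R(A) R(1) = 0`.
-/

set_option autoImplicit false

namespace Pool.Agent.MP_f4742e_al

open Polynomial

section

variable {F A : Type*} [Field F] [CharZero F] [Ring A] [Algebra F A]
  (σ : Involution F A) {R : A →ₗ[F] A} (h : JRB R)

include h

theorem w1_sq (x : A) : ∃ z, R x * R x = R z := by
  obtain ⟨z, hz⟩ := sq_mem h 1 x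
  rw [pow_one] at hz
  exact ⟨z, hz⟩

/-- `R(A) e ⊆ e A`. -/
theorem w1_se (hσ : ∀ x, σ.f (R x) = R x) {e : A} (hes : σ.f e = e)
    (hese : ∀ x, e * R x * e = 0)
    (han : ∀ y, e * y = 0 → σ.f y * y = 0 → ∃ z, y = e * z) (x : A) :
    ∃ z, R x * e = e * z := by
  apply han
  · rw [← mul_assoc, hese]
  · obtain ⟨z, hz⟩ := w1_sq h x
    rw [σ.map_mul, hσ, hes]
    have h1 : e * R x * (R x * e) = e * (R x * R x) * e := by noncomm_ring
    rw [h1, hz, hese]

/-- If `R(A) e = 0` then products of images are in the kernel. -/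
theorem w1_prod (hσ : ∀ x, σ.f (R x) = R x) {e : A} (he1 : R 1 = e)
    (hZ : ∀ x, R x * e = 0) (x y : A) : R (jp (R x) (R y)) = 0 := by
  have hes : σ.f e = e := by rw [← he1, hσ]
  have hZ' : ∀ x, e * R x = 0 := by
    intro x
    have h1 := congrArg σ.f (hZ x)
    rwa [σ.map_mul, hσ, hes, map_zero] at h1
  have h1 := closure h 1 x y
  rw [pow_one, he1, Nat.sub_self, pow_zero, tp_one_mid, Nat.cast_one, one_smul] at h1
  have h2 : tp (R x) e (R y) = 0 := by
    unfold tp
    rw [hZ, hZ, zero_mul, zero_mul, add_zero]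
  have h3 : tp x e (R y) = 0 := by
    unfold tp
    rw [mul_assoc, hZ', hZ, zero_mul, mul_zero, add_zero]
  have h4 : tp (R x) e y = 0 := by
    unfold tp
    rw [mul_assoc, mul_assoc, hZ', mul_zero, ← mul_assoc, hZ, zero_mul, add_zero]
  rw [h2, h3, h4, zero_add, zero_add] at h1
  exact h1.symm

end

section

variable {F A : Type*} [Field F] [CharZero F] [Ring A] [Algebra F A]
  (σ : Involution F A)

/-- The plane of `e` and `g`. -/
theorem plane_idem {e g : A} (hee : e * e = 0) (hg : e * g * e = e) :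
    (e * g + g * e - e * g * (g * e)) * (e * g + g * e - e * g * (g * e)) =
      e * g + g * e - e * g * (g * e) := by
  obtain ⟨P, hP⟩ : ∃ P, P = e * g := ⟨_, rfl⟩
  obtain ⟨Q, hQ⟩ : ∃ Q, Q = g * e := ⟨_, rfl⟩
  have h1 : P * P = P := by
    rw [hP]
    calc e * g * (e * g) = e * g * e * g := by noncomm_ring
      _ = e * g := by rw [hg]
  have h2 : Q * Q = Q := by
    rw [hQ]
    calc g * e * (g * e) = g * (e * g * e) := by noncomm_ring
      _ = g * e := by rw [hg]
  have h3 : Q * P = 0 := by
    rw [hP, hQ]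
    calc g * e * (e * g) = g * (e * e) * g := by noncomm_ring
      _ = 0 := by rw [hee, mul_zero, zero_mul]
  rw [← hP, ← hQ]
  have h4 : (P + Q - P * Q) * (P + Q - P * Q) = P * P + P * Q - P * P * Q + Q * P + Q * Q -
      Q * P * Q - P * (Q * P) - P * (Q * Q) + P * (Q * P) * Q := by noncomm_ring
  rw [h4, h1, h2, h3]
  noncomm_ring

theorem e_plane {e g : A} (hee : e * e = 0) (hg : e * g * e = e) :
    e * (e * g + g * e - e * g * (g * e)) = e := by
  have h1 : e * (e * g + g * e - e * g * (g * e)) =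
      e * e * g + e * g * e - e * e * g * g * e := by noncomm_ring
  rw [h1, hee, hg]
  noncomm_ring

theorem plane_e {e g : A} (hee : e * e = 0) (hg : e * g * e = e) :
    (e * g + g * e - e * g * (g * e)) * e = e := by
  have h1 : (e * g + g * e - e * g * (g * e)) * e =
      e * g * e + g * (e * e) - e * g * g * (e * e) := by noncomm_ring
  rw [h1, hee, hg]
  noncomm_ring

omit [CharZero F] in
theorem plane_sym {e g : A} (hes : σ.f e = e) (hgs : σ.f g = g) :
    σ.f (e * g + g * e - e * g * (g * e)) = e * g + g * e - e * g * (g * e) := by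
  rw [map_sub, map_add, σ.map_mul, σ.map_mul, σ.map_mul, σ.map_mul, σ.map_mul, hes, hgs]
  abel

/-- An element of the plane which is killed by `e` is in `e A e`. -/
theorem plane_ker {e g t : A} (ht1 : e * t = 0) (ht2 : t * e = 0) :
    (e * g + g * e - e * g * (g * e)) * t * (e * g + g * e - e * g * (g * e)) =
      e * (g * t * g) * e := by
  have h1 : (e * g + g * e - e * g * (g * e)) * t = e * g * t := by
    have h2 : (e * g + g * e - e * g * (g * e)) * t =
        e * g * t + g * (e * t) - e * g * g * (e * t) := by noncomm_ring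
    rw [h2, ht1]
    noncomm_ring
  have h3 : t * (e * g + g * e - e * g * (g * e)) = t * g * e := by
    have h2 : t * (e * g + g * e - e * g * (g * e)) =
        t * e * g + t * g * e - t * e * g * g * e := by noncomm_ring
    rw [h2, ht2]
    noncomm_ring
  rw [h1, mul_assoc (e * g) t, h3]
  noncomm_ring

omit [CharZero F] in
/-- If there are no orthogonal idempotents killed by `e` then an idempotent which fixes `e` and
is not `1` is a plane. -/
theorem exists_plane {e g0 π : A} (hes : σ.f e = e) (he0 : e ≠ 0) (hee : e * e = 0)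
    (hg0s : σ.f g0 = g0) (hg0 : e * g0 * e = e) (hπs : σ.f π = π) (hπ : π * π = π)
    (hπe : π * e = e) (hπ1 : π ≠ 1)
    (hno : ∀ p q e : A, σ.f p = p → σ.f q = q → σ.f e = e → p ≠ 0 → q ≠ 0 → e ≠ 0 →
      p * p = p → q * q = q → e * e = 0 → p * q = 0 → e * p = 0 → e * q = 0 → False) :
    ∃ g, σ.f g = g ∧ e * g * e = e ∧ π = e * g + g * e - e * g * (g * e) := by
  have heπ : e * π = e := by
    have h1 := congrArg σ.f hπe
    rwa [σ.map_mul, hes, hπs] at h1
  obtain ⟨g, hg⟩ : ∃ g, g = π * g0 * π := ⟨_, rfl⟩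
  have hgs : σ.f g = g := by
    rw [hg, σ.map_mul, σ.map_mul, hg0s, hπs, ← mul_assoc]
  have hge : e * g * e = e := by
    rw [hg]
    calc e * (π * g0 * π) * e = (e * π) * g0 * (π * e) := by noncomm_ring
      _ = e := by rw [heπ, hπe, hg0]
  refine ⟨g, hgs, hge, ?_⟩
  by_contra hne
  have hπg : π * g = g := by rw [hg, ← mul_assoc, ← mul_assoc, hπ]
  have hgπ : g * π = g := by rw [hg, mul_assoc, hπ]
  obtain ⟨π', hπ'⟩ : ∃ π', π' = e * g + g * e - e * g * (g * e) := ⟨_, rfl⟩
  rw [← hπ'] at hne
  have h1 : π * π' = π' := by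
    rw [hπ']
    calc π * (e * g + g * e - e * g * (g * e)) =
        (π * e) * g + (π * g) * e - (π * e) * g * (g * e) := by noncomm_ring
      _ = _ := by rw [hπe, hπg]
  have h2 : π' * π = π' := by
    rw [hπ']
    calc (e * g + g * e - e * g * (g * e)) * π =
        e * (g * π) + g * (e * π) - e * g * (g * (e * π)) := by noncomm_ring
      _ = _ := by rw [heπ, hgπ]
  have h3 : π' * π' = π' := by
    rw [hπ']
    exact plane_idem hee hge
  have h4 : e * π' = e := by
    rw [hπ']
    exact e_plane hee hge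
  have h5 : σ.f π' = π' := by
    rw [hπ']
    exact plane_sym σ hes hgs
  refine hno (1 - π) (π - π') e ?_ ?_ hes ?_ ?_ he0 ?_ ?_ hee ?_ ?_ ?_
  · rw [map_sub, σ.f_one, hπs]
  · rw [map_sub, hπs, h5]
  · intro h6
    exact hπ1 (sub_eq_zero.1 h6).symm
  · intro h6
    exact hne (sub_eq_zero.1 h6)
  · rw [sub_mul, one_mul, mul_sub, mul_one, hπ, sub_self, sub_zero]
  · rw [sub_mul, mul_sub, mul_sub, hπ, h1, h2, h3]
    abel
  · rw [sub_mul, one_mul, mul_sub, hπ, h1, sub_self]
  · rw [mul_sub, mul_one, heπ, sub_self]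
  · rw [mul_sub, heπ, h4, sub_self]

end

section

variable {F A : Type*} [Field F] [CharZero F] [Ring A] [Algebra F A]
  (σ : Involution F A) {R : A →ₗ[F] A} (h : JRB R)

include h

omit [CharZero F] h in
/-- A nilpotent symmetric element which is killed by `e`. -/
theorem nil_mul {e n s : A} (hns : σ.f n = n) (hne : n * e = 0) (hss : σ.f s = s)
    (hes : e * s = 0) (hse : s * e = 0) (hnil : IsNilpotent s)
    (han : ∀ y, e * y = 0 → σ.f y * y = 0 → ∃ z, y = e * z) : ∃ z, s * n = e * z := by
  obtain ⟨N, hN⟩ := hnil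
  have hstep : ∀ j, 1 ≤ j → (∃ z, s ^ (j + 1) * n = e * z) → ∃ z, s ^ j * n = e * z := by
    intro j hj hz
    obtain ⟨z, hz⟩ := hz
    obtain ⟨i, rfl⟩ : ∃ i, j = i + 1 := ⟨j - 1, by omega⟩
    apply han
    · rw [pow_succ', ← mul_assoc, ← mul_assoc, hes, zero_mul, zero_mul]
    · rw [σ.map_mul, σ.f_pow hss, hns]
      have h1 : n * s ^ (i + 1) * (s ^ (i + 1) * n) = n * s ^ i * (s ^ (i + 1 + 1) * n) := by
        have h2 : s ^ (i + 1 + 1) = s * s ^ (i + 1) := pow_succ' _ _
        rw [h2, pow_succ s i]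
        noncomm_ring
      rw [h1, hz]
      rcases Nat.eq_zero_or_pos i with h3 | h3
      · rw [h3, pow_zero, mul_one, ← mul_assoc, hne, zero_mul]
      · obtain ⟨l, rfl⟩ : ∃ l, i = l + 1 := ⟨i - 1, by omega⟩
        have h4 : n * s ^ (l + 1) * (e * z) = n * s ^ l * (s * e) * z := by
          rw [pow_succ s l]
          noncomm_ring
        rw [h4, hse, mul_zero, zero_mul]
  have hall : ∀ d, d ≤ N → ∃ z, s ^ (N - d + 1) * n = e * z := by
    intro d
    induction d with
    | zero =>
      intro _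
      refine ⟨0, ?_⟩
      rw [Nat.sub_zero, pow_succ, hN, zero_mul, zero_mul, mul_zero]
    | succ d ih =>
      intro hd
      obtain ⟨z, hz⟩ := ih (by omega)
      have h1 : N - d + 1 = (N - (d + 1) + 1) + 1 := by omega
      rw [h1] at hz
      exact hstep _ (by omega) ⟨z, hz⟩
  obtain ⟨z, hz⟩ := hall N le_rfl
  rw [Nat.sub_self, zero_add, pow_one] at hz
  exact ⟨z, hz⟩

/-- If `R(A) e = 0` and all images are nilpotent then `R^2 = 0`. -/
theorem w1_nil (hσ : ∀ x, σ.f (R x) = R x) {e g : A} (he1 : R 1 = e) (hee : e * e = 0)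
    (hZ : ∀ x, R x * e = 0) (hexe : ∀ x, R (e * x * e) = 0)
    (han : ∀ y, e * y = 0 → σ.f y * y = 0 → ∃ z, y = e * z)
    (hgs : σ.f g = g) (hg : e * g * e = e) (hnil : ∀ x, IsNilpotent (R x)) (x : A) :
    R (R x) = 0 := by
  have hes : σ.f e = e := by rw [← he1, hσ]
  have hZ' : ∀ x, e * R x = 0 := by
    intro x
    have h1 := congrArg σ.f (hZ x)
    rwa [σ.map_mul, hσ, hes, map_zero] at h1
  obtain ⟨π, hπ⟩ : ∃ π, π = e * g + g * e - e * g * (g * e) := ⟨_, rfl⟩
  have hππ : π * π = π := by rw [hπ]; exact plane_idem hee hg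
  have heπ : e * π = e := by rw [hπ]; exact e_plane hee hg
  have hπe : π * e = e := by rw [hπ]; exact plane_e hee hg
  have hπs : σ.f π = π := by rw [hπ]; exact plane_sym σ hes hgs
  obtain ⟨n, hn⟩ : ∃ n, n = 1 - π := ⟨_, rfl⟩
  have hns : σ.f n = n := by rw [hn, map_sub, σ.f_one, hπs]
  have hen : e * n = 0 := by rw [hn, mul_sub, mul_one, heπ, sub_self]
  have hne : n * e = 0 := by rw [hn, sub_mul, one_mul, hπe, sub_self]
  have hnn : n * n = n := by
    rw [hn, sub_mul, one_mul, mul_sub, mul_one, hππ, sub_self, sub_zero]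
  have hge : e * (g * e) = e := by rw [← mul_assoc, hg]
  -- the parts of `R x`
  have hpart : ∀ x, ∃ z, R x * n = e * z := fun x =>
    nil_mul σ hns hne (hσ x) (hZ' x) (hZ x) (hnil x) han
  have hdec : ∀ x, R x = e * (g * R x * g) * e + (R x * n + n * R x) := by
    intro x
    obtain ⟨z, hz⟩ := hpart x
    have h1 : π * R x * π = e * (g * R x * g) * e := by
      rw [hπ]
      exact plane_ker (hZ' x) (hZ x)
    have h2 : n * R x * n = 0 := by rw [mul_assoc, hz, ← mul_assoc, hne, zero_mul]
    rw [← h1]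
    have h3 : π = 1 - n := by rw [hn]; abel
    rw [h3]
    have h4 : (1 - n) * R x * (1 - n) + (R x * n + n * R x) = R x + n * R x * n := by
      noncomm_ring
    rw [h4, h2, add_zero]
  have hR0 : ∀ x, R (R x) = R (R x * n + n * R x) := by
    intro x
    conv_lhs => rw [hdec x, map_add, hexe, zero_add]
  -- the main relation
  have k3 : ∀ x y, R (e * x * R y + R y * x * e + (e * y * R x + R x * y * e)) = 0 := by
    intro x y
    have h1 := h x y
    have h2 := h 1 (jp (R x) y + jp x (R y))
    rw [← h1, he1, one_jp, map_add, map_add, w1_prod σ h hσ he1 hZ, add_zero, add_zero] at h2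
    have h3 : jp e (jp (R x) (R y)) = 0 := by
      unfold jp
      have h4 : e * (R x * R y + R y * R x) + (R x * R y + R y * R x) * e =
          (e * R x) * R y + (e * R y) * R x + R x * (R y * e) + R y * (R x * e) := by
        noncomm_ring
      rw [h4, hZ, hZ, hZ', hZ']
      simp
    rw [h3] at h2
    rw [h2]
    congr 1
    unfold jp
    have h4 : e * (R x * y + y * R x + (x * R y + R y * x)) +
        (R x * y + y * R x + (x * R y + R y * x)) * e =
        (e * R x) * y + y * (R x * e) + (e * R y) * x + x * (R y * e) +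
        (e * x * R y + R y * x * e + (e * y * R x + R x * y * e)) := by noncomm_ring
    rw [h4, hZ, hZ, hZ', hZ']
    simp
  -- `R (e x t + t x e)` by the parts
  have hred : ∀ x y, R (e * x * R y + R y * x * e) =
      R (e * x * (R y * n) + n * R y * x * e) := by
    intro x y
    obtain ⟨z, hz⟩ := hpart y
    have hz' : n * R y = σ.f z * e := by
      have h1 := congrArg σ.f hz
      rwa [σ.map_mul, σ.map_mul, hσ, hns, hes] at h1
    have h1 : e * x * R y = e * (x * e * (g * R y * g)) * e + e * (x * σ.f z) * e +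
        e * x * (R y * n) := by
      conv_lhs => rw [hdec y, hz']
      noncomm_ring
    have h2 : R y * x * e = e * (g * R y * g * e * x) * e + e * (z * x) * e +
        n * R y * x * e := by
      conv_lhs => rw [hdec y, hz]
      noncomm_ring
    rw [h1, h2]
    simp only [map_add, hexe, zero_add]
  -- `y = g`
  have hgg : ∀ x, R (e * g * R x + R x * g * e) = R (R x) := by
    intro x
    rw [hred, hR0]
    obtain ⟨z, hz⟩ := hpart x
    have hz' : n * R x = σ.f z * e := by
      have h1 := congrArg σ.f hz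
      rwa [σ.map_mul, σ.map_mul, hσ, hns, hes] at h1
    congr 1
    rw [hz, hz']
    have h1 : e * g * (e * z) = e * g * e * z := by noncomm_ring
    have h2 : σ.f z * e * g * e = σ.f z * (e * g * e) := by noncomm_ring
    rw [h1, h2, hg]
  have hzero : ∀ x, e * x * e = 0 → σ.f x = x → R (R x) = 0 := by
    intro x hx hxs
    have h1 := k3 g g
    rw [map_add, hgg] at h1
    have h2 : R (R g) = 0 := by
      have h3 : (2 : F) • R (R g) = 0 := by rw [two_smul, h1]
      exact (smul_eq_zero.1 h3).resolve_left two_ne_zero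
    have h3 := k3 x g
    rw [map_add, hgg, hred] at h3
    obtain ⟨z, hz⟩ := hpart g
    have hz' : n * R g = σ.f z * e := by
      have h1 := congrArg σ.f hz
      rwa [σ.map_mul, σ.map_mul, hσ, hns, hes] at h1
    have h4 : e * x * (R g * n) + n * R g * x * e = 0 := by
      rw [hz, hz']
      have h5 : e * x * (e * z) + σ.f z * e * x * e = e * x * e * z + σ.f z * (e * x * e) := by
        noncomm_ring
      rw [h5, hx, zero_mul, mul_zero, add_zero]
    rw [h4, map_zero, zero_add] at h3
    exact h3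
  have hw : ∀ w, w = e * (g * w) → w * e = 0 → R (w + σ.f w) = 0 := by
    intro w hw1 hw2
    have hw3 : e * σ.f w = 0 := by
      have h1 := congrArg σ.f hw2
      rwa [σ.map_mul, hes, map_zero] at h1
    have hw4 : σ.f w = σ.f w * g * e := by
      have h1 := congrArg σ.f hw1
      rwa [σ.map_mul, σ.map_mul, hes, hgs] at h1
    have h1 := hzero (g * w + σ.f w * g) (by
      have h2 : e * (g * w + σ.f w * g) * e = e * g * (w * e) + e * σ.f w * g * e := by
        noncomm_ring
      rw [h2, hw2, hw3]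
      noncomm_ring) (by
      rw [map_add, σ.map_mul, σ.map_mul, σ.invol, hgs, add_comm])
    have h2 := h 1 (g * w + σ.f w * g)
    have h3 : jp e (R (g * w + σ.f w * g)) = 0 := by
      unfold jp
      rw [hZ, hZ', add_zero]
    rw [he1, h3, one_jp, map_add, map_add, h1, add_zero, add_zero] at h2
    rw [h2]
    congr 1
    unfold jp
    have h4 : e * (g * w + σ.f w * g) + (g * w + σ.f w * g) * e =
        e * (g * w) + e * σ.f w * g + g * (w * e) + σ.f w * g * e := by noncomm_ring
    rw [h4, ← hw1, hw2, hw3, ← hw4]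
    noncomm_ring
  rw [hR0]
  obtain ⟨z, hz⟩ := hpart x
  have h1 := hw (R x * n) (by
    rw [hz]
    calc e * z = e * g * e * z := by rw [hg]
      _ = _ := by noncomm_ring) (by rw [mul_assoc, hne, mul_zero])
  rwa [σ.map_mul, hσ, hns] at h1

/-- If `R(A) e = 0`, some image is not nilpotent and there are no orthogonal idempotents killed
by `e` then `R^2 = 0`. -/
theorem w1_nonnil [FiniteDimensional F A] (hσ : ∀ x, σ.f (R x) = R x) {e g0 : A}
    (he1 : R 1 = e) (he0 : e ≠ 0) (hee : e * e = 0) (hZ : ∀ x, R x * e = 0)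
    (hexe : ∀ x, R (e * x * e) = 0) (hg0s : σ.f g0 = g0) (hg0 : e * g0 * e = e)
    {x0 : A} (hx0 : ¬ IsNilpotent (R x0))
    (hno : ∀ p q e : A, σ.f p = p → σ.f q = q → σ.f e = e → p ≠ 0 → q ≠ 0 → e ≠ 0 →
      p * p = p → q * q = q → e * e = 0 → p * q = 0 → e * p = 0 → e * q = 0 → False) (x : A) :
    R (R x) = 0 := by
  have hes : σ.f e = e := by rw [← he1, hσ]
  have hZ' : ∀ x, e * R x = 0 := by
    intro x
    have h1 := congrArg σ.f (hZ x)
    rwa [σ.map_mul, hσ, hes, map_zero] at h1
  obtain ⟨P, hP1, hP2⟩ := exists_idem_ne (F := F) (R x0) (Algebra.IsIntegral.isIntegral _) hx0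
  obtain ⟨z0, hz0⟩ := aeval_mem_range h 1 (p := R x0) (w := x0) (by rw [pow_one]) P
  rw [pow_one] at hz0
  obtain ⟨p, hp⟩ : ∃ p, p = R z0 := ⟨_, rfl⟩
  rw [hz0, ← hp] at hP1 hP2
  have hps : σ.f p = p := by rw [hp, hσ]
  have hpe : p * e = 0 := by rw [hp, hZ]
  have hep : e * p = 0 := by rw [hp, hZ']
  obtain ⟨g, hgs, hg, hπ⟩ := exists_plane σ (π := 1 - p) hes he0 hee hg0s hg0
    (by rw [map_sub, σ.f_one, hps])
    (by rw [sub_mul, one_mul, mul_sub, mul_one, hP1, sub_self, sub_zero])
    (by rw [sub_mul, one_mul, hpe, sub_zero])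
    (by
      intro h1
      exact hP2 (by rw [← sub_sub_cancel 1 p, h1, sub_self])) hno
  obtain ⟨s, hs⟩ : ∃ s, s = R x := ⟨_, rfl⟩
  have h1 : R (jp p s) = 0 := by rw [hp, hs]; exact w1_prod σ h hσ he1 hZ _ _
  have h2 : R (jp p (jp p s)) = 0 := by
    rw [hp, hs, h z0 x]
    exact w1_prod σ h hσ he1 hZ _ _
  have h3 : jp p (jp p s) = jp p s + (2 : F) • (p * s * p) := by
    unfold jp
    rw [two_smul]
    have h4 : p * (p * s + s * p) + (p * s + s * p) * p =
        p * p * s + s * (p * p) + (p * s * p + p * s * p) := by noncomm_ring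
    rw [h4, hP1]
  have h5 : R (p * s * p) = 0 := by
    rw [h3, map_add, h1, zero_add, map_smul] at h2
    exact (smul_eq_zero.1 h2).resolve_left two_ne_zero
  have h6 : (1 - p) * s * (1 - p) = e * (g * s * g) * e := by
    rw [hπ]
    exact plane_ker (by rw [hs, hZ']) (by rw [hs, hZ])
  have h7 : s = (1 - p) * s * (1 - p) + (jp p s - p * s * p) := by
    unfold jp
    noncomm_ring
  rw [← hs, h7, map_add, map_sub, h1, h5, h6, hexe, sub_self, add_zero]

omit [CharZero F] h in
/-- An idempotent polynomial in `s` which fixes `e`, if `e = s e w`. -/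
theorem exists_idem_fix (s : A) (hs : IsIntegral F s) {e w : A} (hw : e = s * e * w) :
    ∃ P : F[X], aeval s (X * P) * aeval s (X * P) = aeval s (X * P) ∧
      aeval s (X * P) * e = e := by
  have hp0 : minpoly F s ≠ 0 := minpoly.ne_zero hs
  obtain ⟨g, hg, hnd⟩ := exists_eq_pow_rootMultiplicity_mul_and_not_dvd (minpoly F s) hp0 0
  rw [map_zero, sub_zero] at hg hnd
  obtain ⟨d, hd⟩ : ∃ d, d = (minpoly F s).rootMultiplicity 0 := ⟨_, rfl⟩
  rw [← hd] at hg
  have hcop : IsCoprime (X ^ (d + 1)) g := by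
    apply IsCoprime.pow_left
    exact (prime_X.irreducible.coprime_iff_not_dvd).2 hnd
  obtain ⟨u, v, huv⟩ := hcop
  refine ⟨u * X ^ d, ?_, ?_⟩
  · rw [← map_mul, ← sub_eq_zero, ← map_sub]
    have h1 : X * (u * X ^ d) * (X * (u * X ^ d)) - X * (u * X ^ d) =
        -(u * X * v) * (X ^ d * g) := by
      linear_combination (X * u * X ^ d) * huv
    rw [h1, ← hg, map_mul, minpoly.aeval, mul_zero]
  · have h1 : (X : F[X]) ^ d = X * (u * X ^ d) * X ^ d + v * (X ^ d * g) := by
      linear_combination (-(X ^ d : F[X])) * huv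
    have h2 := congrArg (aeval s) h1
    rw [map_add, map_mul _ _ (X ^ d), ← hg, map_mul _ v, minpoly.aeval, mul_zero, add_zero,
      map_pow, aeval_X] at h2
    have h3 : ∀ j : ℕ, e = s ^ j * e * w ^ j := by
      intro j
      induction j with
      | zero => rw [pow_zero, pow_zero, one_mul, mul_one]
      | succ j ih =>
        calc e = s * e * w := hw
          _ = s * (s ^ j * e * w ^ j) * w := by rw [← ih]
          _ = s ^ (j + 1) * e * w ^ (j + 1) := by
            rw [pow_succ' s, pow_succ w]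
            noncomm_ring
    obtain ⟨t, ht⟩ : ∃ t, t = aeval s (X * (u * X ^ d)) := ⟨_, rfl⟩
    rw [← ht] at h2 ⊢
    conv_lhs => rw [h3 d]
    have h4 : t * (s ^ d * e * w ^ d) = t * s ^ d * e * w ^ d := by noncomm_ring
    rw [h4, ← h2]
    exact (h3 d).symm

/-- If `R(A) e ≠ 0` then an idempotent image fixes `e`. -/
theorem w1_idem [Nontrivial A] [FiniteDimensional F A] {e : A}
    (hse : ∀ x, ∃ z, R x * e = e * z) (hmin : ∀ z, e * z ≠ 0 → ∃ w, e * z * w = e)
    {x0 : A} (hx0 : R x0 * e ≠ 0) :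
    ∃ z0, R z0 * R z0 = R z0 ∧ R z0 * e = e ∧ R z0 ≠ 1 := by
  obtain ⟨z, hz⟩ := hse x0
  rw [hz] at hx0
  obtain ⟨w, hw⟩ := hmin z hx0
  rw [← hz] at hw
  obtain ⟨P, hP1, hP2⟩ := exists_idem_fix (F := F) (R x0) (Algebra.IsIntegral.isIntegral _) hw.symm
  obtain ⟨z0, hz0⟩ := aeval_mem_range h 1 (p := R x0) (w := x0) (by rw [pow_one]) P
  rw [pow_one] at hz0
  rw [hz0] at hP1 hP2
  refine ⟨z0, hP1, hP2, ?_⟩
  have h1 := not_range h 0 (by rw [pow_zero]; exact one_ne_zero) z0
  rw [mul_zero, zero_add, pow_one, pow_zero] at h1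
  exact h1

/-- If `R(A) e ≠ 0` then, in the reduced case, there are orthogonal idempotents killed by `e`. -/
theorem w1_red [Nontrivial A] [FiniteDimensional F A] (hσ : ∀ x, σ.f (R x) = R x) {e g0 : A}
    (he1 : R 1 = e) (he0 : e ≠ 0) (hee : e * e = 0) (hse : ∀ x, ∃ z, R x * e = e * z)
    (hexe : ∀ x, R (e * x * e) = 0) (hg0s : σ.f g0 = g0) (hg0 : e * g0 * e = e)
    (hmin : ∀ z, e * z ≠ 0 → ∃ w, e * z * w = e) {x0 : A} (hx0 : R x0 * e ≠ 0)
    (hred : ∀ x, σ.f x = x → ∃ c : F, e * x * e = c • e)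
    (hno : ∀ p q e : A, σ.f p = p → σ.f q = q → σ.f e = e → p ≠ 0 → q ≠ 0 → e ≠ 0 →
      p * p = p → q * q = q → e * e = 0 → p * q = 0 → e * p = 0 → e * q = 0 → False) :
    False := by
  have hes : σ.f e = e := by rw [← he1, hσ]
  obtain ⟨y, hππ, hπe, hπ1⟩ := w1_idem h hse hmin hx0
  obtain ⟨π, hπy⟩ : ∃ π, π = R y := ⟨_, rfl⟩
  rw [← hπy] at hππ hπe hπ1
  have hπs : σ.f π = π := by rw [hπy, hσ]
  have heπ : e * π = e := by
    have h1 := congrArg σ.f hπe
    rwa [σ.map_mul, hes, hπs] at h1
  obtain ⟨g, hgs, hg, hπ⟩ := exists_plane σ (π := π) hes he0 hee hg0s hg0 hπs hππ hπe hπ1 hno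
  obtain ⟨n, hn⟩ : ∃ n, n = 1 - π := ⟨_, rfl⟩
  have hen : e * n = 0 := by rw [hn, mul_sub, mul_one, heπ, sub_self]
  have hne : n * e = 0 := by rw [hn, sub_mul, one_mul, hπe, sub_self]
  have hnn : n * n = n := by
    rw [hn, sub_mul, one_mul, mul_sub, mul_one, hππ, sub_self, sub_zero]
  have hπn : π * n = 0 := by rw [hn, mul_sub, mul_one, hππ, sub_self]
  have hnπ : n * π = 0 := by rw [hn, sub_mul, one_mul, hππ, sub_self]
  have h1n : (1 : A) = π + n := by rw [hn]; abel
  have hKπ : ∀ k, R k = 0 → R (jp π k) = 0 := by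
    intro k hk
    rw [hπy]
    exact K0 h hk y
  -- the half space part of `y`
  have hyk : R (y - jp π y) = 0 := by
    have h1 := h y y
    rw [← hπy, map_add, jp_comm y π] at h1
    have h2 : jp π π = (2 : F) • π := by
      unfold jp
      rw [hππ, two_smul]
    rw [h2, ← two_smul F] at h1
    rw [map_sub, ← hπy, ← smul_right_injective A (two_ne_zero (α := F)) h1, sub_self]
  have hydec : y = π * y * π + (π * y * n + n * y * π) + n * y * n := by
    calc y = 1 * y * 1 := by rw [one_mul, mul_one]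
      _ = (π + n) * y * (π + n) := by rw [← h1n]
      _ = _ := by noncomm_ring
  have hk1 : y - jp π y = n * y * n - π * y * π := by
    have h2 : jp π y = (2 : F) • (π * y * π) + (π * y * n + n * y * π) := by
      unfold jp
      conv_lhs => rw [hydec]
      rw [two_smul]
      have h3 : π * (π * y * π + (π * y * n + n * y * π) + n * y * n) +
          (π * y * π + (π * y * n + n * y * π) + n * y * n) * π =
          π * π * y * π + π * π * y * n + (π * n) * y * π + (π * n) * y * n +
          (π * y * (π * π) + π * y * (n * π) + n * y * (π * π) + n * y * (n * π)) := by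
        noncomm_ring
      rw [h3, hππ, hπn, hnπ]
      noncomm_ring
    rw [h2, two_smul]
    generalize π * y * π = a at hydec ⊢
    generalize π * y * n + n * y * π = b at hydec ⊢
    generalize n * y * n = c at hydec ⊢
    rw [hydec]
    abel
  have hk2 : R (π * y * π) = 0 := by
    have h1 := hKπ _ hyk
    rw [hk1] at h1
    have h2 : jp π (n * y * n - π * y * π) = (-2 : F) • (π * y * π) := by
      unfold jp
      have h3 : π * (n * y * n - π * y * π) + (n * y * n - π * y * π) * π =
          (π * n) * y * n - π * π * y * π + (n * y * (n * π) - π * y * (π * π)) := by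
        noncomm_ring
      rw [h3, hππ, hπn, hnπ, neg_smul, two_smul]
      noncomm_ring
    rw [h2, map_smul] at h1
    exact (smul_eq_zero.1 h1).resolve_left (neg_ne_zero.2 two_ne_zero)
  have hk3 : R (n * y * n) = 0 := by
    rw [hk1, map_sub, hk2, sub_zero] at hyk
    exact hyk
  obtain ⟨y', hy'⟩ : ∃ y', y' = π * y * n + n * y * π := ⟨_, rfl⟩
  have hRy' : R y' = π := by
    have h1 : R y = R (π * y * π) + R y' + R (n * y * n) := by
      rw [← map_add, ← map_add, hy', ← hydec]
    rw [hk2, hk3, zero_add, add_zero] at h1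
    rw [← h1, ← hπy]
  -- `R n = 0`
  have hRn : R n = 0 := by
    have h1 := h 1 y'
    have h2 : jp e π = (2 : F) • e := by
      unfold jp
      rw [heπ, hπe, two_smul]
    rw [he1, hRy', h2, one_jp, map_add, map_add] at h1
    have h3 : e = R π + R n := by rw [← map_add, ← h1n, he1]
    have h4 : R (jp e y' - (2 : F) • n) = 0 := by
      rw [map_sub, map_smul, two_smul]
      have h5 : R (jp e y') = (2 : F) • e - (R π + R π) := by rw [h1]; abel
      rw [h5, two_smul]
      nth_rewrite 1 [h3]
      nth_rewrite 1 [h3]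
      abel
    have h5 := hKπ _ h4
    have h6 : jp e y' = e * y * n + n * y * e := by
      unfold jp
      rw [hy']
      have h7 : e * (π * y * n + n * y * π) + (π * y * n + n * y * π) * e =
          (e * π) * y * n + (e * n) * y * π + (π * y * (n * e) + n * y * (π * e)) := by
        noncomm_ring
      rw [h7, heπ, hen, hne, hπe]
      noncomm_ring
    have h7 : jp π (jp e y' - (2 : F) • n) = jp e y' := by
      rw [jp_sub, jp_smul]
      have h8 : jp π n = 0 := by
        unfold jp
        rw [hπn, hnπ, add_zero]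
      rw [h8, smul_zero, sub_zero, h6]
      unfold jp
      have h9 : π * (e * y * n + n * y * e) + (e * y * n + n * y * e) * π =
          (π * e) * y * n + (π * n) * y * e + (e * y * (n * π) + n * y * (e * π)) := by
        noncomm_ring
      rw [h9, hπe, hπn, hnπ, heπ]
      noncomm_ring
    rw [h7] at h5
    rw [map_sub, h5, zero_sub, neg_eq_zero, map_smul] at h4
    exact (smul_eq_zero.1 h4).resolve_left two_ne_zero
  have hRπ : R π = e := by
    have h1 : R 1 = R π + R n := by rw [← map_add, ← h1n]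
    rw [he1, hRn, add_zero] at h1
    exact h1.symm
  -- the image of `g`
  have hSjp : ∀ x y, ∃ z, jp (R x) (R y) = R z := fun x y => ⟨_, h x y⟩
  have hredS : ∀ x, ∃ c : F, jp (R x) e = c • e := by
    intro x
    obtain ⟨z, hz⟩ := hse x
    have hz' : e * R x = σ.f z * e := by
      have h1 := congrArg σ.f hz
      rwa [σ.map_mul, σ.map_mul, hσ, hes] at h1
    obtain ⟨c, hc⟩ := hred (g * jp (R x) e * g) (by
      rw [σ.map_mul, σ.map_mul, hgs]
      unfold jp
      rw [map_add, σ.map_mul, σ.map_mul, hσ, hes, add_comm (e * R x), mul_assoc])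
    refine ⟨c, ?_⟩
    rw [← hc]
    unfold jp
    have h1 : e * (g * (R x * e + e * R x) * g) * e =
        e * g * (R x * e) * g * e + e * g * (e * R x) * g * e := by noncomm_ring
    rw [h1, hz, hz']
    have h2 : e * g * (e * z) * g * e + e * g * (σ.f z * e) * g * e =
        e * g * e * z * g * e + e * g * σ.f z * (e * g * e) := by noncomm_ring
    rw [h2, hg, ← hz, ← hz']
    have h3 : R x * e * g * e = R x * (e * g * e) := by noncomm_ring
    have h4 : e * g * (e * R x) = e * g * e * R x := by noncomm_ring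
    have h5 : e * g * σ.f z * e = e * g * (σ.f z * e) := by noncomm_ring
    rw [h3, hg, h5, ← hz', h4, hg]
  obtain ⟨s, hs⟩ : ∃ s, s = R g := ⟨_, rfl⟩
  obtain ⟨c, hc⟩ := hredS g
  obtain ⟨zs, hzs⟩ := hse g
  rw [← hs] at hc hzs
  have hSn : ∀ x, R (jp (R x) n) = 0 := fun x => K0 h hRn x
  have hsdec : s = π * s * π + (π * s * n + n * s * π) + n * s * n := by
    calc s = 1 * s * 1 := by rw [one_mul, mul_one]
      _ = (π + n) * s * (π + n) := by rw [← h1n]
      _ = _ := by noncomm_ring
  have hjps : jp π s = (2 : F) • (π * s * π) + (π * s * n + n * s * π) := by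
    unfold jp
    conv_lhs => rw [hsdec]
    rw [two_smul]
    have h3 : π * (π * s * π + (π * s * n + n * s * π) + n * s * n) +
        (π * s * π + (π * s * n + n * s * π) + n * s * n) * π =
        π * π * s * π + π * π * s * n + (π * n) * s * π + (π * n) * s * n +
        (π * s * (π * π) + π * s * (n * π) + n * s * (π * π) + n * s * (n * π)) := by
      noncomm_ring
    rw [h3, hππ, hπn, hnπ]
    noncomm_ring
  have hs1 : R (π * s * n + n * s * π) = 0 := by
    obtain ⟨z, hz⟩ := hSjp y g
    rw [← hπy, ← hs] at hz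
    have h1 := hSn z
    rw [← hz, hjps] at h1
    have h2 : jp ((2 : F) • (π * s * π) + (π * s * n + n * s * π)) n =
        π * s * n + n * s * π := by
      rw [two_smul]
      unfold jp
      have h3 : (π * s * π + π * s * π + (π * s * n + n * s * π)) * n +
          n * (π * s * π + π * s * π + (π * s * n + n * s * π)) =
          (π * s * (π * n) + π * s * (π * n) + π * s * (n * n) + n * s * (π * n)) +
          ((n * π) * s * π + (n * π) * s * π + (n * π) * s * n + n * n * s * π) := by
        noncomm_ring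
      rw [h3, hnn, hπn, hnπ]
      noncomm_ring
    rw [h2] at h1
    exact h1
  have hs2 : R (n * s * n) = 0 := by
    have h1 := hSn g
    rw [← hs] at h1
    have h2 : jp s n = (π * s * n + n * s * π) + (2 : F) • (n * s * n) := by
      unfold jp
      conv_lhs => rw [hsdec]
      rw [two_smul]
      have h3 : (π * s * π + (π * s * n + n * s * π) + n * s * n) * n +
          n * (π * s * π + (π * s * n + n * s * π) + n * s * n) =
          (π * s * (π * n) + π * s * (n * n) + n * s * (π * n) + n * s * (n * n)) +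
          ((n * π) * s * π + (n * π) * s * n + n * n * s * π + n * n * s * n) := by
        noncomm_ring
      rw [h3, hnn, hπn, hnπ]
      noncomm_ring
    rw [h2, map_add, hs1, zero_add, map_smul] at h1
    exact (smul_eq_zero.1 h1).resolve_left two_ne_zero
  obtain ⟨s1, hs1'⟩ : ∃ s1, s1 = π * s * π := ⟨_, rfl⟩
  have hRs : R s = R s1 := by
    conv_lhs => rw [hsdec]
    rw [map_add, map_add, hs1, hs2, add_zero, add_zero, hs1']
  have hs1S : ∃ z, s1 = R z := by
    obtain ⟨z, hz⟩ := hSjp y g
    obtain ⟨z', hz'⟩ := hSjp y z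
    rw [← hz, ← hπy, ← hs] at hz'
    rw [← hπy, ← hs] at hz
    refine ⟨(2⁻¹ : F) • (z' - z), ?_⟩
    rw [map_smul, map_sub, ← hz, ← hz', hs1']
    unfold jp
    have h1 : π * (π * s + s * π) + (π * s + s * π) * π - (π * s + s * π) =
        (2 : F) • (π * s * π) := by
      rw [two_smul]
      have h2 : π * (π * s + s * π) + (π * s + s * π) * π =
          π * π * s + π * s * π + (π * s * π + s * (π * π)) := by noncomm_ring
      rw [h2, hππ]
      abel
    rw [h1, smul_smul, inv_mul_cancel₀ two_ne_zero, one_smul]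
  obtain ⟨s', hs'⟩ : ∃ s', s' = s1 - (c / 2) • π := ⟨_, rfl⟩
  have hs'S : ∃ z, s' = R z := by
    obtain ⟨z, hz⟩ := hs1S
    exact ⟨z - (c / 2) • y, by rw [map_sub, map_smul, ← hz, ← hπy, hs']⟩
  have hs1e : s1 * e = s * e := by
    rw [hs1', mul_assoc, hπe, mul_assoc, hzs, ← mul_assoc, hπe]
  have hss : σ.f s = s := by rw [hs, hσ]
  have hes1 : e * s1 = e * s := by
    have h1 := congrArg σ.f hs1e
    rw [σ.map_mul, σ.map_mul, hes, hss] at h1
    rw [← h1]
    congr 1
    rw [hs1', σ.map_mul, σ.map_mul, hss, hπs, mul_assoc]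
  have hanti : s' * e = -(e * s') := by
    have h1 : s' * e + e * s' = 0 := by
      rw [hs', sub_mul, mul_sub, hs1e, hes1, smul_mul_assoc, mul_smul_comm, hπe, heπ]
      have h2 : s * e + e * s = c • e := hc
      have h3 : s * e - (c / 2) • e + (e * s - (c / 2) • e) =
          (s * e + e * s) - ((c / 2) • e + (c / 2) • e) := by abel
      rw [h3, h2, ← add_smul, add_halves, sub_self]
    exact eq_neg_of_add_eq_zero_left h1
  -- `R (2 s' + π) = 0`
  have hdia : R ((2 : F) • s' + π) = 0 := by
    have h1 := h 1 g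
    rw [he1, ← hs, one_jp, jp_comm e s, hc, map_add, map_add] at h1
    have h2 : R (jp e g) = e := by
      have h3 : jp e g = π + e * (g * g) * e := by
        rw [hπ]
        unfold jp
        noncomm_ring
      rw [h3, map_add, hexe, add_zero, hRπ]
    rw [h2, hRs] at h1
    rw [hs', smul_sub, smul_smul, map_add, map_sub, map_smul, map_smul, hRπ]
    have h4 : (2 : F) * (c / 2) = c := by field_simp
    rw [h4, two_smul, h1]
    abel
  -- the square of `s'`
  have hπs' : π * s' = s' := by
    rw [hs', hs1', mul_sub, mul_smul_comm, hππ, ← mul_assoc, ← mul_assoc, hππ]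
  have hs'π : s' * π = s' := by
    rw [hs', hs1', sub_mul, smul_mul_assoc, hππ, mul_assoc, hππ]
  obtain ⟨t, ht⟩ : ∃ t, t = s' * s' := ⟨_, rfl⟩
  have hte : t * e = e * t := by
    rw [ht, mul_assoc, hanti, mul_neg, ← mul_assoc, hanti, neg_mul, neg_neg, mul_assoc]
  obtain ⟨q, hq⟩ : ∃ q : F, t * e = q • e := by
    obtain ⟨z, hz⟩ := hs'S
    obtain ⟨z2, hz2⟩ := w1_sq h z
    obtain ⟨c2, hc2⟩ := hredS z2
    rw [← hz2, ← hz, ← ht] at hc2
    refine ⟨c2 / 2, ?_⟩
    have h1 : (2 : F) • (t * e) = c2 • e := by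
      rw [← hc2]
      unfold jp
      rw [two_smul, ← hte]
    rw [div_eq_inv_mul, mul_smul, ← h1, smul_smul, inv_mul_cancel₀ two_ne_zero, one_smul]
  have hRt : R t = q • e := by
    have h1 : π * (t - q • π) * π = e * (g * (t - q • π) * g) * e := by
      rw [hπ]
      apply plane_ker
      · rw [← hπ, mul_sub, mul_smul_comm, heπ, ← hte, hq, sub_self]
      · rw [← hπ, sub_mul, smul_mul_assoc, hπe, hq, sub_self]
    have h2 : π * (t - q • π) * π = t - q • π := by
      rw [ht, mul_sub, sub_mul, mul_smul_comm, smul_mul_assoc, hππ, hππ]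
      have h3 : π * (s' * s') * π = (π * s') * (s' * π) := by noncomm_ring
      rw [h3, hπs', hs'π]
    rw [h2] at h1
    have h3 := congrArg R h1
    rw [hexe, map_sub, map_smul, hRπ] at h3
    exact sub_eq_zero.1 h3
  have hq4 : 4 * q = 1 := by
    obtain ⟨z, hz⟩ := hs'S
    have h1 := K0 h hdia z
    rw [← hz, jp_add, jp_smul] at h1
    have h2 : jp s' s' = (2 : F) • t := by
      unfold jp
      rw [ht, two_smul]
    have h3 : jp s' π = (2 : F) • s' := by
      unfold jp
      rw [hπs', hs'π, two_smul]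
    rw [h2, h3, map_add, map_smul, map_smul, map_smul, hRt] at h1
    rw [map_add, map_smul, hRπ] at hdia
    have h4 : (2 : F) • R s' = -e := eq_neg_of_add_eq_zero_left hdia
    rw [h4, smul_smul, smul_smul, ← sub_eq_add_neg] at h1
    have h5 : (2 * (2 * q) - 1) • e = 0 := by
      rw [sub_smul, one_smul, ← h1]
      congr 2
      ring
    have h6 := (smul_eq_zero.1 h5).resolve_right he0
    linear_combination h6
  -- the contradiction
  have hpm : (2 : F) • (s' * e) = e ∨ (2 : F) • (s' * e) = -e := by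
    obtain ⟨yp, hyp⟩ : ∃ yp, yp = (2 : F) • (s' * e) + e := ⟨_, rfl⟩
    by_cases h0 : yp = 0
    · right
      rw [hyp] at h0
      exact eq_neg_of_add_eq_zero_left h0
    · left
      have h1 : yp = e * ((2 : F) • (zs - (c / 2) • 1) + 1) := by
        rw [hyp, hs', sub_mul, hs1e, hzs, smul_mul_assoc, hπe, mul_add, mul_one, mul_smul_comm,
          mul_sub, mul_smul_comm, mul_one]
      rw [h1] at h0
      obtain ⟨w, hw⟩ := hmin _ h0
      rw [← h1] at hw
      have h2 : (2 : F) • (s' * yp) - yp = 0 := by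
        have h3 : s' * (s' * e) = q • e := by rw [← mul_assoc, ← ht, hq]
        rw [hyp, mul_add, mul_smul_comm, h3, smul_add, smul_smul, smul_smul]
        have h4 : 2 * (2 * q) = (1 : F) := by linear_combination hq4
        rw [← mul_assoc] at h4
        rw [h4, one_smul]
        abel
      have h3 : (2 : F) • (s' * e) - e = ((2 : F) • (s' * yp) - yp) * w := by
        rw [sub_mul, smul_mul_assoc, mul_assoc, hw]
      rw [h2, zero_mul] at h3
      exact sub_eq_zero.1 h3
  have hs's : σ.f s' = s' := by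
    obtain ⟨z, hz⟩ := hs'S
    rw [hz, hσ]
  have hfin : (2 : F) • e = 0 := by
    rcases hpm with h1 | h1
    · have h2 := congrArg σ.f h1
      rw [map_smul, σ.map_mul, hs's, hes] at h2
      rw [hanti, smul_neg, h2] at h1
      rw [two_smul]
      nth_rewrite 1 [← h1]
      exact neg_add_cancel e
    · have h2 := congrArg σ.f h1
      rw [map_smul, σ.map_mul, map_neg, hs's, hes] at h2
      rw [hanti, smul_neg, h2, neg_neg] at h1
      rw [two_smul]
      nth_rewrite 1 [h1]
      exact neg_add_cancel e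
  exact he0 ((smul_eq_zero.1 hfin).resolve_left two_ne_zero)

end

end Pool.Agent.MP_f4742e_al
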