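import Pool.Agent.Lib.MP_f4742e_al.G.Chain
import Pool.Agent.Lib.MP_f4742e_al.Upper

/-!
The Witt index of an algebra with involution, and the upper bound `R ^ (2 w + 2) = 0`.
-/

set_option autoImplicit false

namespace Pool.Agent.MP_f4742e_al

section

variable {F A : Type*} [Field F] [Ring A] [Algebra F A]

/-- `w` is the Witt index of `(A, σ)`: the largest number such that some totally isotropic right
ideal `I` (that is, `σ(x) y = 0` for all `x, y ∈ I`) is the last term of a strictly increasing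
chain `I_0 < I_1 < ... < I_w = I` of right ideals. -/
def Involution.IsWittIndex (σ : Involution F A) (w : ℕ) : Prop :=
  IsGreatest {l : ℕ | ∃ I : Fin (l + 1) → Submodule Aᵐᵒᵖ A, StrictMono I ∧
    σ.Iso (I (Fin.last l))} w

theorem exists_chain {I : Submodule Aᵐᵒᵖ A} {n : ℕ} (h : (n : ℕ∞) ≤ Order.height I) :
    ∃ J : Fin (n + 1) → Submodule Aᵐᵒᵖ A, StrictMono J ∧ J (Fin.last n) = I := by
  obtain ⟨p, hp, hl⟩ := Order.exists_series_of_le_height I h
  subst hl
  exact ⟨p, p.strictMono, hp⟩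

end

section

variable {F A : Type*} [Field F] [CharZero F] [Ring A] [Nontrivial A] [Algebra F A]
  [FiniteDimensional F A] [IsSemisimpleRing A] {σ : Involution F A}

theorem upper_ext {w : ℕ} (hw : σ.IsWittIndex w) {R : A →ₗ[F] A} (h : JRB R)
    (hσ : ∀ x, σ.f (R x) = R x) : R ^ (2 * w + 2) = 0 := by
  obtain ⟨m, hm, hm0, hm1⟩ := exists_index h.nilpotent_one one_ne_zero
  by_cases hm2 : m < 2
  · exact pow_zero_of_le h hm0 (by omega)
  · obtain ⟨I, hI, hh⟩ := exists_iso σ h hσ (by omega) hm0 hm1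
    obtain ⟨J, hJ, hJl⟩ := exists_chain hh
    have h1 : m - 1 ≤ w := hw.2 ⟨J, hJ, by rw [hJl]; exact hI⟩
    exact pow_zero_of_le h hm0 (by omega)

/-- The upper bound. -/
theorem upper_H {w : ℕ} (hw : σ.IsWittIndex w) {R : σ.H →ₗ[F] σ.H} (hR : IsRotaBaxter R) :
    R ^ (2 * w + 2) = 0 :=
  σ.pow_eq_zero_of_ext (upper_ext hw (σ.ext_jrb hR) (σ.ext_sym R))

end

end Pool.Agent.MP_f4742e_al
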